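import Mathlib

set_option autoImplicit false

open Finset

namespace SimplexPool

variable {α : Type} [DecidableEq α]

/-- `S` is an irredundant cover of `V`: its union is `V`, and no member can be dropped. -/
def IrrCover (S : Finset (Finset α)) (V : Finset α) : Prop :=
  S.sup id = V ∧ ∀ C ∈ S, (S.erase C).sup id ≠ V

/-- no subfamily of `H` with exactly `D` members is an irredundant cover of `V` -/
def NoCover (H : Finset (Finset α)) (V : Finset α) (D : ℕ) : Prop :=
  ∀ S : Finset (Finset α), S ⊆ H → S.card = D → ¬ IrrCover S V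

/-- the bound for families of `s`-subsets of an `n`-set without irredundant `D`-cover -/
def TB (n s D : ℕ) : Prop :=
  ∀ (α : Type) [DecidableEq α] (V : Finset α) (H : Finset (Finset α)),
    V.card = n → (∀ C ∈ H, C ⊆ V ∧ C.card = s) → NoCover H V D →
      n * H.card ≤ (n - s) * n.choose s

/-- number of members of `H` inside `W` -/
def inside (H : Finset (Finset α)) (W : Finset α) : Finset (Finset α) :=
  H.filter (fun C => C ⊆ W)

lemma mem_inside {H : Finset (Finset α)} {W C : Finset α} :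
    C ∈ inside H W ↔ C ∈ H ∧ C ⊆ W := by
  simp [inside]

/-- supersets of `C` of size `m` inside `V` -/
lemma card_supersets (V C : Finset α) (m : ℕ) (hC : C ⊆ V) (hm : C.card ≤ m) :
    ((V.powersetCard m).filter (fun W => C ⊆ W)).card
      = (V.card - C.card).choose (m - C.card) := by
  classical
  rw [← card_sdiff_of_subset hC, ← card_powersetCard]
  apply card_bij (fun W _ => W \ C)
  · intro W hW
    simp only [mem_filter, mem_powersetCard] at hW
    simp only [mem_powersetCard]
    refine ⟨sdiff_subset_sdiff hW.1.1 le_rfl, ?_⟩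
    rw [card_sdiff_of_subset hW.2, hW.1.2]
  · intro W₁ h₁ W₂ h₂ h
    simp only [mem_filter] at h₁ h₂
    have : W₁ \ C ∪ C = W₂ \ C ∪ C := by rw [h]
    rwa [sdiff_union_of_subset h₁.2, sdiff_union_of_subset h₂.2] at this
  · intro T hT
    simp only [mem_powersetCard] at hT
    refine ⟨T ∪ C, ?_, ?_⟩
    · have hd : Disjoint T C := disjoint_of_subset_left hT.1 sdiff_disjoint
      simp only [mem_filter, mem_powersetCard]
      refine ⟨⟨union_subset (hT.1.trans sdiff_subset) hC, ?_⟩, subset_union_right⟩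
      rw [card_union_of_disjoint hd, hT.2]; omega
    · have hd : Disjoint T C := disjoint_of_subset_left hT.1 sdiff_disjoint
      rw [union_sdiff_right]
      exact sdiff_eq_self_of_disjoint hd

/-- sets of size `m` inside `V` whose complement contains `C` -/
lemma card_avoid (V C : Finset α) (m : ℕ) (hC : C ⊆ V) :
    ((V.powersetCard m).filter (fun W => C ⊆ V \ W)).card
      = (V.card - C.card).choose m := by
  classical
  rw [← card_sdiff_of_subset hC, ← card_powersetCard]
  congr 1
  ext W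
  simp only [mem_filter, mem_powersetCard]
  constructor
  · rintro ⟨⟨h1, h2⟩, h3⟩
    refine ⟨?_, h2⟩
    intro x hx
    rw [mem_sdiff]
    refine ⟨h1 hx, fun hxC => ?_⟩
    exact (mem_sdiff.1 (h3 hxC)).2 hx
  · rintro ⟨h1, h2⟩
    refine ⟨⟨h1.trans sdiff_subset, h2⟩, ?_⟩
    intro x hx
    rw [mem_sdiff]
    exact ⟨hC hx, fun hxW => (mem_sdiff.1 (h1 hxW)).2 hx⟩

lemma sum_inside (V : Finset α) (H : Finset (Finset α)) (n s m : ℕ) (hV : V.card = n)
    (hH : ∀ C ∈ H, C ⊆ V ∧ C.card = s) (hm : s ≤ m) :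
    ∑ W ∈ V.powersetCard m, (inside H W).card = H.card * (n - s).choose (m - s) := by
  classical
  simp only [inside, card_filter]
  rw [sum_comm]
  have : ∀ C ∈ H, ∑ W ∈ V.powersetCard m, (if C ⊆ W then 1 else 0)
      = (n - s).choose (m - s) := by
    intro C hC
    obtain ⟨h1, h2⟩ := hH C hC
    rw [← card_filter, card_supersets V C m h1 (by omega), hV, h2]
  rw [sum_congr rfl this, sum_const, smul_eq_mul]

lemma sum_inside_compl (V : Finset α) (H : Finset (Finset α)) (n s m : ℕ) (hV : V.card = n)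
    (hH : ∀ C ∈ H, C ⊆ V ∧ C.card = s) :
    ∑ W ∈ V.powersetCard m, (inside H (V \ W)).card = H.card * (n - s).choose m := by
  classical
  simp only [inside, card_filter]
  rw [sum_comm]
  have : ∀ C ∈ H, ∑ W ∈ V.powersetCard m, (if C ⊆ V \ W then 1 else 0)
      = (n - s).choose m := by
    intro C hC
    obtain ⟨h1, h2⟩ := hH C hC
    rw [← card_filter, card_avoid V C m h1, hV, h2]
  rw [sum_congr rfl this, sum_const, smul_eq_mul]

lemma inside_card_le (H : Finset (Finset α)) (V W : Finset α) (s : ℕ)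
    (hH : ∀ C ∈ H, C ⊆ V ∧ C.card = s) : (inside H W).card ≤ W.card.choose s := by
  classical
  rw [← card_powersetCard]
  apply card_le_card
  intro C hC
  rw [mem_inside] at hC
  rw [mem_powersetCard]
  exact ⟨hC.2, (hH C hC.1).2⟩

lemma sup_id_subset {S : Finset (Finset α)} {V : Finset α} (h : ∀ C ∈ S, C ⊆ V) :
    S.sup id ⊆ V := by
  intro x hx
  rw [mem_sup] at hx
  obtain ⟨C, hC, hx⟩ := hx
  exact h C hC hx

/-- gluing irredundant covers of the two parts of a partition -/
lemma glue {S₁ S₂ : Finset (Finset α)} {W V : Finset α} (hW : W ⊆ V)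
    (h1 : IrrCover S₁ W) (h2 : IrrCover S₂ (V \ W)) (hs1 : ∀ C ∈ S₁, C.Nonempty)
    (_hs2 : ∀ C ∈ S₂, C.Nonempty) :
    Disjoint S₁ S₂ ∧ IrrCover (S₁ ∪ S₂) V := by
  classical
  have hsub1 : ∀ C ∈ S₁, C ⊆ W := by
    intro C hC
    rw [← h1.1]
    exact le_sup (f := id) hC
  have hsub2 : ∀ C ∈ S₂, C ⊆ V \ W := by
    intro C hC
    rw [← h2.1]
    exact le_sup (f := id) hC
  have hdisj : Disjoint S₁ S₂ := by
    rw [disjoint_left]
    intro C hC1 hC2
    obtain ⟨x, hx⟩ := hs1 C hC1
    exact (mem_sdiff.1 (hsub2 C hC2 hx)).2 (hsub1 C hC1 hx)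
  refine ⟨hdisj, ?_, ?_⟩
  · rw [sup_union, h1.1, h2.1]
    exact union_sdiff_of_subset hW
  · intro C hC h
    rw [mem_union] at hC
    rcases hC with hC | hC
    · apply h1.2 C hC
      have hCn : C ∉ S₂ := fun h => disjoint_left.1 hdisj hC h
      rw [erase_union_distrib, erase_eq_of_notMem hCn, sup_union, h2.1] at h
      apply Subset.antisymm
      · exact sup_id_subset fun D hD => hsub1 D (mem_of_mem_erase hD)
      · intro x hx
        have hxV : x ∈ (S₁.erase C).sup id ⊔ V \ W := by rw [h]; exact hW hx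
        rw [sup_eq_union, mem_union] at hxV
        rcases hxV with h' | h'
        · exact h'
        · exact absurd hx (mem_sdiff.1 h').2
    · apply h2.2 C hC
      have hCn : C ∉ S₁ := fun h => disjoint_left.1 hdisj h hC
      rw [erase_union_distrib, erase_eq_of_notMem hCn, sup_union, h1.1] at h
      apply Subset.antisymm
      · exact sup_id_subset fun D hD => hsub2 D (mem_of_mem_erase hD)
      · intro x hx
        have hxV : x ∈ W ⊔ (S₂.erase C).sup id := by rw [h]; exact (mem_sdiff.1 hx).1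
        rw [sup_eq_union, mem_union] at hxV
        rcases hxV with h' | h'
        · exact absurd h' (mem_sdiff.1 hx).2
        · exact h'

/-- for every split of `V`, one of the two parts is cover free -/
lemma split_noCover {H : Finset (Finset α)} {V W : Finset α} {s D₁ D₂ : ℕ} (hs : 1 ≤ s)
    (hH : ∀ C ∈ H, C ⊆ V ∧ C.card = s) (hW : W ⊆ V) (hno : NoCover H V (D₁ + D₂)) :
    NoCover (inside H W) W D₁ ∨ NoCover (inside H (V \ W)) (V \ W) D₂ := by
  classical
  by_contra hcon
  rw [not_or] at hcon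
  obtain ⟨c1, c2⟩ := hcon
  unfold NoCover at c1 c2
  push Not at c1 c2
  obtain ⟨S₁, hS₁, hc₁, hi₁⟩ := c1
  obtain ⟨S₂, hS₂, hc₂, hi₂⟩ := c2
  have hne : ∀ C ∈ H, C.Nonempty := by
    intro C hC
    rw [← card_pos, (hH C hC).2]; omega
  obtain ⟨hd, hcov⟩ := glue hW hi₁ hi₂
    (fun C hC => hne C (mem_inside.1 (hS₁ hC)).1) (fun C hC => hne C (mem_inside.1 (hS₂ hC)).1)
  refine hno (S₁ ∪ S₂) ?_ ?_ hcov
  · intro C hC
    rw [mem_union] at hC
    rcases hC with hC | hC
    · exact (mem_inside.1 (hS₁ hC)).1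
    · exact (mem_inside.1 (hS₂ hC)).1
  · rw [card_union_of_disjoint hd, hc₁, hc₂]

/-- the inequality attached to one split -/
lemma split_ineq {n₁ n₂ s D₁ D₂ : ℕ} (hs : 1 ≤ s) (h1 : s ≤ n₁) (h2 : s ≤ n₂)
    (T1 : TB n₁ s D₁) (T2 : TB n₂ s D₂) {H : Finset (Finset α)} {V W : Finset α}
    (hV : V.card = n₁ + n₂) (hH : ∀ C ∈ H, C ⊆ V ∧ C.card = s)
    (hno : NoCover H V (D₁ + D₂)) (hW : W ∈ V.powersetCard n₁) :
    n₁ * (inside H W).card * n₂.choose s + n₂ * (inside H (V \ W)).card * n₁.choose s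
      ≤ (n₁ + n₂ - s) * (n₁.choose s * n₂.choose s) ∧
    (n₁ * (inside H W).card * n₂.choose s + n₂ * (inside H (V \ W)).card * n₁.choose s
      = (n₁ + n₂ - s) * (n₁.choose s * n₂.choose s) →
      (inside H W).card = n₁.choose s ∨ (inside H (V \ W)).card = n₂.choose s) := by
  classical
  rw [mem_powersetCard] at hW
  have hc2 : (V \ W).card = n₂ := by
    rw [card_sdiff_of_subset hW.1, hV, hW.2]; omega
  have b1 : (inside H W).card ≤ n₁.choose s := by
    have := inside_card_le H V W s hH
    rwa [hW.2] at this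
  have b2 : (inside H (V \ W)).card ≤ n₂.choose s := by
    have := inside_card_le H V (V \ W) s hH
    rwa [hc2] at this
  have p1 : 0 < n₁.choose s := Nat.choose_pos h1
  have p2 : 0 < n₂.choose s := Nat.choose_pos h2
  have hin : ∀ (U : Finset α), ∀ C ∈ inside H U, C ⊆ U ∧ C.card = s := by
    intro U C hC
    rw [mem_inside] at hC
    exact ⟨hC.2, (hH C hC.1).2⟩
  set a := (inside H W).card with ha
  set b := (inside H (V \ W)).card with hb
  rcases split_noCover hs hH hW.1 hno with hn | hn
  · have t := T1 α W (inside H W) hW.2 (hin W) hn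
    rw [← ha] at t
    have e1 : n₁ * a * n₂.choose s ≤ (n₁ - s) * n₁.choose s * n₂.choose s :=
      Nat.mul_le_mul_right _ t
    have e2 : n₂ * b * n₁.choose s ≤ n₂ * n₂.choose s * n₁.choose s :=
      Nat.mul_le_mul_right _ (Nat.mul_le_mul_left _ b2)
    have e3 : (n₁ - s) * n₁.choose s * n₂.choose s + n₂ * n₂.choose s * n₁.choose s
        = (n₁ + n₂ - s) * (n₁.choose s * n₂.choose s) := by
      have : n₁ + n₂ - s = (n₁ - s) + n₂ := by omega
      rw [this]; ring
    refine ⟨by omega, fun heq => Or.inr ?_⟩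
    have e4 : n₂ * b * n₁.choose s = n₂ * n₂.choose s * n₁.choose s := by omega
    have e5 : n₂ * b = n₂ * n₂.choose s := Nat.eq_of_mul_eq_mul_right p1 e4
    exact Nat.eq_of_mul_eq_mul_left (by omega) e5
  · have t := T2 α (V \ W) (inside H (V \ W)) hc2 (hin _) hn
    rw [← hb] at t
    have e1 : n₂ * b * n₁.choose s ≤ (n₂ - s) * n₂.choose s * n₁.choose s :=
      Nat.mul_le_mul_right _ t
    have e2 : n₁ * a * n₂.choose s ≤ n₁ * n₁.choose s * n₂.choose s :=
      Nat.mul_le_mul_right _ (Nat.mul_le_mul_left _ b1)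
    have e3 : n₁ * n₁.choose s * n₂.choose s + (n₂ - s) * n₂.choose s * n₁.choose s
        = (n₁ + n₂ - s) * (n₁.choose s * n₂.choose s) := by
      have : n₁ + n₂ - s = n₁ + (n₂ - s) := by omega
      rw [this]; ring
    refine ⟨by omega, fun heq => Or.inl ?_⟩
    have e4 : n₁ * a * n₂.choose s = n₁ * n₁.choose s * n₂.choose s := by omega
    have e5 : n₁ * a = n₁ * n₁.choose s := Nat.eq_of_mul_eq_mul_right p2 e4
    exact Nat.eq_of_mul_eq_mul_left (by omega) e5

lemma choose_id₁ {n₁ n₂ s : ℕ} (h1 : s ≤ n₁) :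
    (n₁ + n₂ - s).choose (n₁ - s) * (n₁ + n₂).choose s
      = (n₁ + n₂).choose n₁ * n₁.choose s := by
  have := Nat.choose_mul (n := n₁ + n₂) (k := n₁) (s := s) (by omega)
  rw [this]; ring

lemma choose_id₂ {n₁ n₂ s : ℕ} (h2 : s ≤ n₂) :
    (n₁ + n₂ - s).choose n₁ * (n₁ + n₂).choose s
      = (n₁ + n₂).choose n₁ * n₂.choose s := by
  have := Nat.choose_mul (n := n₁ + n₂) (k := n₂) (s := s) (by omega)
  have e1 : (n₁ + n₂).choose n₂ = (n₁ + n₂).choose n₁ := by
    rw [← Nat.choose_symm_add]
  have e2 : (n₁ + n₂ - s).choose (n₂ - s) = (n₁ + n₂ - s).choose n₁ := by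
    have : n₁ + n₂ - s = n₁ + (n₂ - s) := by omega
    rw [this, ← Nat.choose_symm_add]
  rw [e1, e2] at this
  rw [this]; ring

/-- **Product lemma** (bound and the structure of the equality case). -/
theorem product {n₁ n₂ s D₁ D₂ : ℕ} (hs : 1 ≤ s) (h1 : s ≤ n₁) (h2 : s ≤ n₂)
    (T1 : TB n₁ s D₁) (T2 : TB n₂ s D₂) {H : Finset (Finset α)} {V : Finset α}
    (hV : V.card = n₁ + n₂) (hH : ∀ C ∈ H, C ⊆ V ∧ C.card = s)
    (hno : NoCover H V (D₁ + D₂)) :
    (n₁ + n₂) * H.card ≤ (n₁ + n₂ - s) * (n₁ + n₂).choose s ∧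
    ((n₁ + n₂) * H.card = (n₁ + n₂ - s) * (n₁ + n₂).choose s →
      ∀ C C' : Finset α, C ⊆ V → C' ⊆ V → C.card = s → C'.card = s → Disjoint C C' →
        C ∈ H ∨ C' ∈ H) := by
  classical
  have p1 : 0 < n₁.choose s := Nat.choose_pos h1
  have p2 : 0 < n₂.choose s := Nat.choose_pos h2
  have p3 : 0 < (n₁ + n₂).choose n₁ := Nat.choose_pos (by omega)
  have p4 : 0 < (n₁ + n₂).choose s := Nat.choose_pos (by omega)
  set f : Finset α → ℕ := fun W =>
    n₁ * (inside H W).card * n₂.choose s + n₂ * (inside H (V \ W)).card * n₁.choose s with hf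
  set M : ℕ := (n₁ + n₂ - s) * (n₁.choose s * n₂.choose s) with hM
  have hle : ∀ W ∈ V.powersetCard n₁, f W ≤ M := fun W hW =>
    (split_ineq hs h1 h2 T1 T2 hV hH hno hW).1
  have hsum : ∑ W ∈ V.powersetCard n₁, f W
      = n₁ * (H.card * (n₁ + n₂ - s).choose (n₁ - s)) * n₂.choose s
        + n₂ * (H.card * (n₁ + n₂ - s).choose n₁) * n₁.choose s := by
    rw [hf, sum_add_distrib, ← sum_mul, ← sum_mul, ← mul_sum, ← mul_sum,
      sum_inside V H (n₁ + n₂) s n₁ hV hH h1, sum_inside_compl V H (n₁ + n₂) s n₁ hV hH]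
  have hsumM : ∑ _W ∈ V.powersetCard n₁, M = (n₁ + n₂).choose n₁ * M := by
    rw [sum_const, card_powersetCard, hV, smul_eq_mul]
  -- the key identity
  have key : (∑ W ∈ V.powersetCard n₁, f W) * (n₁ + n₂).choose s
      = ((n₁ + n₂) * H.card) * ((n₁ + n₂).choose n₁ * (n₁.choose s * n₂.choose s)) := by
    rw [hsum]
    have i1 := choose_id₁ (n₁ := n₁) (n₂ := n₂) (s := s) h1
    have i2 := choose_id₂ (n₁ := n₁) (n₂ := n₂) (s := s) h2
    calc (n₁ * (H.card * (n₁ + n₂ - s).choose (n₁ - s)) * n₂.choose s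
          + n₂ * (H.card * (n₁ + n₂ - s).choose n₁) * n₁.choose s) * (n₁ + n₂).choose s
        = n₁ * H.card * n₂.choose s * ((n₁ + n₂ - s).choose (n₁ - s) * (n₁ + n₂).choose s)
          + n₂ * H.card * n₁.choose s * ((n₁ + n₂ - s).choose n₁ * (n₁ + n₂).choose s) := by
            ring
      _ = _ := by rw [i1, i2]; ring
  have keyM : (∑ _W ∈ V.powersetCard n₁, M) * (n₁ + n₂).choose s
      = ((n₁ + n₂ - s) * (n₁ + n₂).choose s)
        * ((n₁ + n₂).choose n₁ * (n₁.choose s * n₂.choose s)) := by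
    rw [hsumM, hM]; ring
  have pos : 0 < (n₁ + n₂).choose n₁ * (n₁.choose s * n₂.choose s) := by positivity
  constructor
  · have : (∑ W ∈ V.powersetCard n₁, f W) * (n₁ + n₂).choose s
        ≤ (∑ _W ∈ V.powersetCard n₁, M) * (n₁ + n₂).choose s :=
      Nat.mul_le_mul_right _ (sum_le_sum hle)
    rw [key, keyM] at this
    exact Nat.le_of_mul_le_mul_right this pos
  · intro heq C C' hC hC' hcC hcC' hd
    have hsumeq : ∑ W ∈ V.powersetCard n₁, f W = ∑ _W ∈ V.powersetCard n₁, M := by
      apply Nat.eq_of_mul_eq_mul_right p4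
      rw [key, keyM, heq]
    have hall := (sum_eq_sum_iff_of_le hle).1 hsumeq
    -- choose W containing C and missing C'
    obtain ⟨W, hCW, hWV, hWc⟩ := exists_subsuperset_card_eq
      (s := C) (t := V \ C') (n := n₁) (by
        intro x hx
        rw [mem_sdiff]
        exact ⟨hC hx, fun h => disjoint_left.1 hd hx h⟩) (by omega) (by
        rw [card_sdiff_of_subset hC', hV, hcC']; omega)
    have hWV' : W ⊆ V := hWV.trans sdiff_subset
    have hWm : W ∈ V.powersetCard n₁ := by rw [mem_powersetCard]; exact ⟨hWV', hWc⟩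
    have hC'W : C' ⊆ V \ W := by
      intro x hx
      rw [mem_sdiff]
      refine ⟨hC' hx, fun h => ?_⟩
      exact (mem_sdiff.1 (hWV h)).2 hx
    have hc2 : (V \ W).card = n₂ := by
      rw [card_sdiff_of_subset hWV', hV, hWc]; omega
    have full : ∀ (U E : Finset α), E ⊆ U → E.card = s → (inside H U).card = U.card.choose s →
        E ∈ H := by
      intro U E hE hEc hcard
      have hsub : inside H U ⊆ U.powersetCard s := by
        intro X hX
        rw [mem_inside] at hX
        rw [mem_powersetCard]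
        exact ⟨hX.2, (hH X hX.1).2⟩
      have : inside H U = U.powersetCard s := by
        apply eq_of_subset_of_card_le hsub
        rw [card_powersetCard, hcard]
      have hmem : E ∈ inside H U := by
        rw [this, mem_powersetCard]; exact ⟨hE, hEc⟩
      exact (mem_inside.1 hmem).1
    rcases (split_ineq hs h1 h2 T1 T2 hV hH hno hWm).2 (hall W hWm) with h | h
    · left
      exact full W C hCW hcC (by rw [hWc]; exact h)
    · right
      exact full (V \ W) C' hC'W hcC' (by rw [hc2]; exact h)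

theorem TB_product {n₁ n₂ s D₁ D₂ : ℕ} (hs : 1 ≤ s) (h1 : s ≤ n₁) (h2 : s ≤ n₂)
    (T1 : TB n₁ s D₁) (T2 : TB n₂ s D₂) : TB (n₁ + n₂) s (D₁ + D₂) := by
  intro α _ V H hV hH hno
  exact (product hs h1 h2 T1 T2 hV hH hno).1

/-- one set: `TB s s 1` -/
theorem TB_one {s : ℕ} (hs : 1 ≤ s) : TB s s 1 := by
  intro α _ V H hV hH hno
  have : H = ∅ := by
    rw [eq_empty_iff_forall_notMem]
    intro C hC
    have hCV : C = V := eq_of_subset_of_card_le (hH C hC).1 (by rw [hV, (hH C hC).2])
    refine hno {C} (singleton_subset_iff.2 hC) (card_singleton C) ⟨by simp [hCV], ?_⟩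
    intro D hD h
    rw [mem_singleton] at hD
    subst hD
    rw [erase_singleton, sup_empty] at h
    have : V.card = 0 := by rw [← h]; rfl
    omega
  rw [this]; simp

/-- two sets: the Erdős–Ko–Rado theorem -/
theorem TB_two {n s : ℕ} (h1 : s + 1 ≤ n) (h2 : n ≤ 2 * s) : TB n s 2 := by
  classical
  intro α _ V H hV hH hno
  let e : {x // x ∈ V} ≃ Fin n := Finset.equivFinOfCardEq hV
  let g : Finset α → Finset (Fin n) := fun C =>
    ((V \ C).subtype (fun x => x ∈ V)).map e.toEmbedding
  have hmem : ∀ (C : Finset α) (y : Fin n), y ∈ g C ↔ ((e.symm y : α) ∉ C) := by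
    intro C y
    simp only [g, mem_map, mem_subtype, mem_sdiff, Equiv.coe_toEmbedding, Subtype.exists]
    constructor
    · rintro ⟨a, ha, ⟨-, h2⟩, h3⟩
      rw [← h3]
      simpa using h2
    · intro h
      refine ⟨(e.symm y : α), (e.symm y).2, ⟨(e.symm y).2, h⟩, ?_⟩
      simp
  have hcard : ∀ C ∈ H, (g C).card = n - s := by
    intro C hC
    simp only [g, card_map, card_subtype]
    have : (V \ C).filter (fun x => x ∈ V) = V \ C := by
      rw [filter_eq_self]
      intro x hx
      exact (mem_sdiff.1 hx).1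
    rw [this, card_sdiff_of_subset (hH C hC).1, hV, (hH C hC).2]
  have hinj : Set.InjOn g (H : Set (Finset α)) := by
    intro C hC C' hC' h
    ext x
    by_cases hx : x ∈ V
    · have h3 := hmem C (e ⟨x, hx⟩)
      have h4 := hmem C' (e ⟨x, hx⟩)
      rw [h] at h3
      have h5 := h3.symm.trans h4
      simp only [Equiv.symm_apply_apply] at h5
      exact not_iff_not.1 h5
    · constructor
      · intro h; exact absurd ((hH C hC).1 h) hx
      · intro h; exact absurd ((hH C' hC').1 h) hx
  have hint : ((H.image g : Finset (Finset (Fin n))) : Set (Finset (Fin n))).Intersecting := by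
    intro A hA B hB hd
    simp only [coe_image, Set.mem_image, mem_coe] at hA hB
    obtain ⟨C, hC, rfl⟩ := hA
    obtain ⟨C', hC', rfl⟩ := hB
    have hcov : V ⊆ C ∪ C' := by
      intro x hx
      by_contra hcon
      rw [mem_union, not_or] at hcon
      have m1 : e ⟨x, hx⟩ ∈ g C := by rw [hmem]; simpa using hcon.1
      have m2 : e ⟨x, hx⟩ ∈ g C' := by rw [hmem]; simpa using hcon.2
      exact disjoint_left.1 hd m1 m2
    have hne : C ≠ C' := by
      rintro rfl
      have := card_le_card hcov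
      rw [union_idempotent, hV, (hH C hC).2] at this
      omega
    refine hno {C, C'} ?_ (card_pair hne) ⟨?_, ?_⟩
    · intro X hX
      rw [mem_insert, mem_singleton] at hX
      rcases hX with rfl | rfl <;> assumption
    · rw [sup_insert, sup_singleton]
      exact Subset.antisymm (union_subset (hH C hC).1 (hH C' hC').1) hcov
    · intro X hX h
      rw [mem_insert, mem_singleton] at hX
      have hXle : ∀ Y : Finset α, Y.card = s → Y ≠ V := by
        intro Y hY h
        rw [h, hV] at hY
        omega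
      rcases hX with rfl | rfl
      · rw [erase_insert (by simpa using hne)] at h
        rw [sup_singleton] at h
        exact hXle C' (hH C' hC').2 h
      · have : ({C, X} : Finset (Finset α)).erase X = {C} := by
          ext Y
          simp only [mem_erase, mem_insert, mem_singleton]
          constructor
          · rintro ⟨h1, h2 | h2⟩
            · exact h2
            · exact absurd h2 h1
          · rintro rfl
            exact ⟨hne, Or.inl rfl⟩
        rw [this, sup_singleton] at h
        exact hXle C (hH C hC).2 h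
  have hsz : ((H.image g : Finset (Finset (Fin n))) : Set (Finset (Fin n))).Sized (n - s) := by
    intro A hA
    simp only [coe_image, Set.mem_image, mem_coe] at hA
    obtain ⟨C, hC, rfl⟩ := hA
    exact hcard C hC
  have hekr := erdos_ko_rado hint hsz (by omega)
  rw [card_image_of_injOn hinj] at hekr
  have e1 : n * (n - 1).choose (n - s - 1) = (n - s) * n.choose s := by
    obtain ⟨m, rfl⟩ : ∃ m, n = m + 1 := ⟨n - 1, by omega⟩
    obtain ⟨r, hr⟩ : ∃ r, m + 1 - s = r + 1 := ⟨m - s, by omega⟩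
    have := Nat.add_one_mul_choose_eq m r
    have e2 : (m + 1).choose s = (m + 1).choose (r + 1) := by
      rw [← hr, Nat.choose_symm (by omega)]
    rw [hr, e2]
    simp only [Nat.add_sub_cancel]
    rw [this]; ring
  calc n * H.card ≤ n * (n - 1).choose (n - s - 1) := Nat.mul_le_mul_left _ hekr
    _ = _ := e1

/-- even number of sets -/
theorem TB_even (s : ℕ) (hs : 1 ≤ s) : ∀ (m : ℕ), 1 ≤ m → ∀ n : ℕ, m * (s + 1) ≤ n →
    n ≤ 2 * m * s → TB n s (2 * m) := by
  intro m
  induction m with
  | zero => intro h; omega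
  | succ m ih =>
    intro _ n h1 h2
    rcases Nat.eq_zero_or_pos m with rfl | hm
    · exact TB_two (by omega) (by omega)
    · -- split off a part of size n₁
      have hms : m * (s + 1) ≤ 2 * m * s := by nlinarith
      obtain ⟨n₁, a1, a2, a3, a4⟩ : ∃ n₁, s + 1 ≤ n₁ ∧ n₁ ≤ 2 * s ∧ n₁ + m * (s + 1) ≤ n ∧
          n ≤ n₁ + 2 * m * s := by
        have e1 : (m + 1) * (s + 1) = m * (s + 1) + (s + 1) := by ring
        have e2 : 2 * (m + 1) * s = 2 * m * s + 2 * s := by ring
        rw [e1] at h1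
        rw [e2] at h2
        by_cases hc : n ≤ s + 1 + 2 * m * s
        · exact ⟨s + 1, le_rfl, by omega, by omega, hc⟩
        · exact ⟨n - 2 * m * s, by omega, by omega, by omega, by omega⟩
      have t1 : TB n₁ s 2 := TB_two a1 a2
      have t2 : TB (n - n₁) s (2 * m) := ih hm (n - n₁) (by omega) (by omega)
      have hge : s ≤ n - n₁ := by
        have : s + 1 ≤ m * (s + 1) := by nlinarith
        omega
      have := TB_product hs (by omega : s ≤ n₁) hge t1 t2
      have e3 : n₁ + (n - n₁) = n := by omega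
      have e4 : 2 + 2 * m = 2 * (m + 1) := by ring
      rw [e3, e4] at this
      exact this

/-- decomposition used for the final theorem -/
theorem exists_split {s D n : ℕ} (hs : 1 ≤ s) (hD : 3 ≤ D)
    (h1 : (D - D / 2) * s + D / 2 ≤ n) (h2 : n ≤ D * s) :
    ∃ n₁ n₂ D₁ D₂, s ≤ n₁ ∧ s ≤ n₂ ∧ n₁ + n₂ = n ∧ D₁ + D₂ = D ∧ TB n₁ s D₁ ∧ TB n₂ s D₂ := by
  rcases Nat.even_or_odd D with ⟨m, hm⟩ | ⟨m, hm⟩
  · -- D = m + m
    have hm2 : 2 ≤ m := by omega
    have e1 : D / 2 = m := by omega
    have e2 : D - D / 2 = m := by omega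
    rw [e1] at h1 e2
    rw [e2] at h1
    obtain ⟨k, rfl⟩ : ∃ k, m = k + 1 := ⟨m - 1, by omega⟩
    have hk : 1 ≤ k := by omega
    have hks : k * (s + 1) ≤ 2 * k * s := by nlinarith
    have hks2 : s + 1 ≤ k * (s + 1) := by nlinarith
    have h1' : k * (s + 1) + (s + 1) ≤ n := by
      have : (k + 1) * s + (k + 1) = k * (s + 1) + (s + 1) := by ring
      omega
    have h2' : n ≤ 2 * k * s + 2 * s := by
      have : D * s = 2 * k * s + 2 * s := by rw [hm]; ring
      omega
    by_cases hc : n ≤ s + 1 + 2 * k * s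
    · refine ⟨s + 1, n - (s + 1), 2, 2 * k, by omega, by omega, by omega, by omega,
        TB_two le_rfl (by omega), TB_even s hs k hk _ (by omega) (by omega)⟩
    · refine ⟨n - 2 * k * s, 2 * k * s, 2, 2 * k, by omega, by omega, by omega, by omega,
        TB_two (by omega) (by omega), TB_even s hs k hk _ (by omega) (by omega)⟩
  · -- D = 2 * m + 1
    have hm2 : 1 ≤ m := by omega
    have e1 : D / 2 = m := by omega
    have e2 : D - D / 2 = m + 1 := by omega
    rw [e1] at h1 e2
    rw [e2] at h1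
    have h1' : s + m * (s + 1) ≤ n := by
      have : (m + 1) * s + m = s + m * (s + 1) := by ring
      omega
    have h2' : n ≤ s + 2 * m * s := by
      have : D * s = s + 2 * m * s := by rw [hm]; ring
      omega
    have hms : s + 1 ≤ m * (s + 1) := by nlinarith
    refine ⟨s, n - s, 1, 2 * m, le_rfl, by omega, by omega, by omega, TB_one hs,
      TB_even s hs m hm2 _ (by omega) (by omega)⟩

end SimplexPool
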