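import Mathlib
import Pool.Agent.Lib.MP_32eaa8_co.Cover

set_option autoImplicit false

open Finset

namespace SimplexPool

variable {α : Type} [DecidableEq α]

/-- elements of `R` whose deletion gives a member -/
def dl (H : Finset (Finset α)) (R : Finset α) : Finset α := R.filter (fun x => R.erase x ∈ H)

lemma mem_dl {H : Finset (Finset α)} {R : Finset α} {x : α} :
    x ∈ dl H R ↔ x ∈ R ∧ R.erase x ∈ H := by simp [dl]

/-- double counting of pairs (member, set with one more element) -/
lemma sum_insert_eq {H : Finset (Finset α)} {V : Finset α} {s : ℕ}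
    (hH : ∀ C ∈ H, C ⊆ V ∧ C.card = s) (f : Finset α → ℚ) :
    ∑ C ∈ H, ∑ x ∈ V \ C, f (insert x C)
      = ∑ R ∈ V.powersetCard (s + 1), ((dl H R).card : ℚ) * f R := by
  have h1 : ∀ R ∈ V.powersetCard (s + 1), ((dl H R).card : ℚ) * f R = ∑ _x ∈ dl H R, f R := by
    intro R _
    rw [sum_const, nsmul_eq_mul]
  rw [sum_congr rfl h1, sum_sigma', sum_sigma']
  apply sum_bij' (fun (p : Σ _ : Finset α, α) _ => (⟨insert p.2 p.1, p.2⟩ : Σ _ : Finset α, α))
    (fun (p : Σ _ : Finset α, α) _ => (⟨p.1.erase p.2, p.2⟩ : Σ _ : Finset α, α))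
  · rintro ⟨C, x⟩ hp
    simp only [mem_sigma, mem_sdiff] at hp
    simp only [mem_sigma, mem_powersetCard, mem_dl]
    refine ⟨⟨?_, ?_⟩, mem_insert_self _ _, ?_⟩
    · exact insert_subset hp.2.1 (hH C hp.1).1
    · rw [card_insert_of_notMem hp.2.2, (hH C hp.1).2]
    · rw [erase_insert hp.2.2]; exact hp.1
  · rintro ⟨R, x⟩ hp
    simp only [mem_sigma, mem_powersetCard, mem_dl] at hp
    simp only [mem_sigma, mem_sdiff]
    exact ⟨hp.2.2, hp.1.1 hp.2.1, fun h => (mem_erase.1 h).1 rfl⟩
  · rintro ⟨C, x⟩ hp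
    simp only [mem_sigma, mem_sdiff] at hp
    simp only [erase_insert hp.2.2]
  · rintro ⟨R, x⟩ hp
    simp only [mem_sigma, mem_powersetCard, mem_dl] at hp
    simp only [insert_erase hp.2.1]
  · rintro ⟨C, x⟩ hp
    rfl

/-- the LYM type inequality -/
lemma lym {H : Finset (Finset α)} {V : Finset α} {s : ℕ}
    (hH : ∀ C ∈ H, C ⊆ V ∧ C.card = s) :
    ∑ C ∈ H, ∑ x ∈ V \ C, (1 / ((dl H (insert x C)).card : ℚ)) ≤ (V.card.choose (s + 1) : ℚ) := by
  rw [sum_insert_eq hH (fun R => 1 / ((dl H R).card : ℚ))]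
  calc ∑ R ∈ V.powersetCard (s + 1), ((dl H R).card : ℚ) * (1 / ((dl H R).card : ℚ))
      ≤ ∑ _R ∈ V.powersetCard (s + 1), (1 : ℚ) := by
        apply sum_le_sum
        intro R _
        rcases Nat.eq_zero_or_pos (dl H R).card with h | h
        · rw [h]; simp
        · have : ((dl H R).card : ℚ) ≠ 0 := by positivity
          rw [mul_one_div_cancel this]
    _ = _ := by rw [sum_const, card_powersetCard, nsmul_eq_mul, mul_one]

/-- a star-shaped cover around `C` -/
lemma star_cover {H : Finset (Finset α)} {V C : Finset α} (_hC : C ⊆ V)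
    (w : α → α) (hw : ∀ x ∈ V \ C, (insert x C).erase (w x) ∈ H) (hwC : ∀ x ∈ V \ C, w x ∈ C)
    (hHV : ∀ A ∈ H, A ⊆ V)
    {x₁ x₂ : α} (h1 : x₁ ∈ V \ C) (h2 : x₂ ∈ V \ C) (hne : w x₁ ≠ w x₂) :
    ¬ NoCover H V (V \ C).card := by
  intro hno
  set f : α → Finset α := fun x => (insert x C).erase (w x) with hf
  have hpriv : ∀ x ∈ V \ C, ∀ y ∈ V \ C, x ∈ f y → x = y := by
    intro x hx y _ hxy
    rw [hf] at hxy
    rcases mem_insert.1 (mem_erase.1 hxy).2 with h | h
    · exact h
    · exact absurd h (mem_sdiff.1 hx).2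
  have hself : ∀ x ∈ V \ C, x ∈ f x := by
    intro x hx
    rw [hf]
    refine mem_erase.2 ⟨?_, mem_insert_self _ _⟩
    intro h
    exact (mem_sdiff.1 hx).2 (h ▸ hwC x hx)
  have hinj : Set.InjOn f (V \ C : Finset α) := by
    intro x hx y hy h
    exact hpriv x hx y hy (by rw [← h]; exact hself x hx)
  refine hno ((V \ C).image f) ?_ (card_image_of_injOn hinj) ⟨?_, ?_⟩
  · intro A hA
    obtain ⟨x, hx, rfl⟩ := mem_image.1 hA
    exact hw x hx
  · apply Subset.antisymm
    · apply sup_id_subset
      intro A hA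
      obtain ⟨x, hx, rfl⟩ := mem_image.1 hA
      exact hHV _ (hw x hx)
    · intro y hy
      rw [mem_sup]
      by_cases hyC : y ∈ C
      · by_cases hy1 : y = w x₁
        · refine ⟨f x₂, mem_image_of_mem f h2, ?_⟩
          exact mem_erase.2 ⟨fun h => hne (hy1.symm.trans h), mem_insert_of_mem hyC⟩
        · refine ⟨f x₁, mem_image_of_mem f h1, ?_⟩
          exact mem_erase.2 ⟨hy1, mem_insert_of_mem hyC⟩
      · have : y ∈ V \ C := mem_sdiff.2 ⟨hy, hyC⟩
        exact ⟨f y, mem_image_of_mem f this, hself y this⟩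
  · intro A hA hsup
    obtain ⟨x, hx, rfl⟩ := mem_image.1 hA
    have : x ∈ (((V \ C).image f).erase (f x)).sup id := by
      rw [hsup]; exact (mem_sdiff.1 hx).1
    rw [mem_sup] at this
    obtain ⟨B, hB, hxB⟩ := this
    obtain ⟨hBne, hB'⟩ := mem_erase.1 hB
    obtain ⟨y, hy, rfl⟩ := mem_image.1 hB'
    have := hpriv x hx y hy hxB
    exact hBne (by rw [this])

/-- Chvátal's theorem for `k = d + 1` in covering form. -/
theorem TB_base {s D : ℕ} (hs : 1 ≤ s) (hD : 3 ≤ D) (h : D ≤ s * (D - 2)) : TB (s + D) s D := by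
  classical
  intro α _ V H hV hH hno
  have hk : ∀ C ∈ H, (V \ C).card = D := by
    intro C hC
    rw [card_sdiff_of_subset (hH C hC).1, hV, (hH C hC).2]; omega
  have hdeg : ∀ C ∈ H, ∀ x ∈ V \ C, x ∈ dl H (insert x C) := by
    intro C hC x hx
    rw [mem_dl]
    refine ⟨mem_insert_self _ _, ?_⟩
    rw [erase_insert (mem_sdiff.1 hx).2]; exact hC
  have hdle : ∀ C ∈ H, ∀ x ∈ V \ C, (dl H (insert x C)).card ≤ s + 1 := by
    intro C hC x hx
    calc _ ≤ (insert x C).card := card_filter_le _ _
      _ = s + 1 := by rw [card_insert_of_notMem (mem_sdiff.1 hx).2, (hH C hC).2]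
  have hs1 : (0 : ℚ) < (s : ℚ) + 1 := by positivity
  have hD' : (D : ℚ) * 2 + (s : ℚ) * 2 ≤ D * (s + 1) := by
    obtain ⟨e, rfl⟩ : ∃ e, D = e + 2 := ⟨D - 2, by omega⟩
    have e1 : e + 2 - 2 = e := rfl
    rw [e1] at h
    have : ((e + 2 : ℕ) : ℚ) ≤ (s * e : ℕ) := by exact_mod_cast h
    push_cast at this ⊢
    nlinarith
  have hw : ∀ C ∈ H, ((s : ℚ) + D) / (s + 1)
      ≤ ∑ x ∈ V \ C, (1 / ((dl H (insert x C)).card : ℚ)) := by
    intro C hC
    have hpos : ∀ x ∈ V \ C, (1 : ℚ) / (s + 1) ≤ 1 / ((dl H (insert x C)).card : ℚ) := by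
      intro x hx
      apply one_div_le_one_div_of_le
      · have := card_pos.2 ⟨x, hdeg C hC x hx⟩
        positivity
      · exact_mod_cast hdle C hC x hx
    by_cases hown : ∃ x ∈ V \ C, (dl H (insert x C)).card = 1
    · obtain ⟨x, hx, hx1⟩ := hown
      rw [← add_sum_erase _ _ hx, hx1]
      have h1 : ∑ y ∈ (V \ C).erase x, (1 : ℚ) / (s + 1)
          ≤ ∑ y ∈ (V \ C).erase x, (1 / ((dl H (insert y C)).card : ℚ)) :=
        sum_le_sum (fun y hy => hpos y (mem_erase.1 hy).2)
      rw [sum_const, card_erase_of_mem hx, hk C hC, nsmul_eq_mul] at h1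
      have h2 : ((D - 1 : ℕ) : ℚ) = D - 1 := by
        rw [Nat.cast_sub (by omega)]; simp
      rw [h2] at h1
      have h3 : ((s : ℚ) + D) / (s + 1) = 1 / ((1 : ℕ) : ℚ) + (D - 1) * (1 / (s + 1)) := by
        field_simp
        push_cast
        ring
      rw [h3]
      exact add_le_add le_rfl h1
    · push Not at hown
      have hex : ∀ x ∈ V \ C, ∃ w ∈ C, (insert x C).erase w ∈ H := by
        intro x hx
        have h2 : 1 < (dl H (insert x C)).card := by
          have := card_pos.2 ⟨x, hdeg C hC x hx⟩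
          have := hown x hx
          omega
        obtain ⟨w, hw, hne⟩ := exists_mem_ne h2 x
        rw [mem_dl] at hw
        refine ⟨w, ?_, hw.2⟩
        rcases mem_insert.1 hw.1 with h | h
        · exact absurd h hne
        · exact h
      have huniq : ∀ x ∈ V \ C, ∀ y ∈ V \ C, ∀ w ∈ C, ∀ z ∈ C, (insert x C).erase w ∈ H →
          (insert y C).erase z ∈ H → x ≠ y → w = z := by
        intro x hx y hy w hw z hz h1 h2 hxy
        by_contra hne
        choose! g hg1 hg2 using hex
        let g' : α → α := fun v => if v = x then w else if v = y then z else g v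
        have e1 : g' x = w := by simp [g']
        have e2 : g' y = z := by simp [g', hxy.symm]
        have := star_cover (hH C hC).1 g' (H := H) (V := V) (C := C)
          (by
            intro v hv
            by_cases hvx : v = x
            · rw [hvx, e1]; exact h1
            · by_cases hvy : v = y
              · rw [hvy, e2]; exact h2
              · have : g' v = g v := by simp [g', hvx, hvy]
                rw [this]; exact hg2 v hv)
          (by
            intro v hv
            by_cases hvx : v = x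
            · rw [hvx, e1]; exact hw
            · by_cases hvy : v = y
              · rw [hvy, e2]; exact hz
              · have : g' v = g v := by simp [g', hvx, hvy]
                rw [this]; exact hg1 v hv)
          (fun A hA => (hH A hA).1) hx hy (by rw [e1, e2]; exact hne)
        rw [hk C hC] at this
        exact this hno
      have hdeg2 : ∀ x ∈ V \ C, (dl H (insert x C)).card ≤ 2 := by
        intro x hx
        obtain ⟨y, hy, hyx⟩ : ∃ y ∈ V \ C, y ≠ x := by
          apply exists_mem_ne
          rw [hk C hC]; omega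
        obtain ⟨z, hz, hzH⟩ := hex y hy
        calc (dl H (insert x C)).card ≤ ({x, z} : Finset α).card := by
              apply card_le_card
              intro w hw
              rw [mem_dl] at hw
              rw [mem_insert, mem_singleton]
              by_cases hwx : w = x
              · exact Or.inl hwx
              · right
                have hwC : w ∈ C := by
                  rcases mem_insert.1 hw.1 with h | h
                  · exact absurd h hwx
                  · exact h
                exact huniq x hx y hy w hwC z hz hw.2 hzH hyx.symm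
          _ ≤ 2 := card_le_two
      have h1 : ∑ _x ∈ V \ C, (1 : ℚ) / 2
          ≤ ∑ x ∈ V \ C, (1 / ((dl H (insert x C)).card : ℚ)) := by
        apply sum_le_sum
        intro x hx
        apply one_div_le_one_div_of_le
        · have := card_pos.2 ⟨x, hdeg C hC x hx⟩
          positivity
        · exact_mod_cast hdeg2 x hx
      rw [sum_const, hk C hC, nsmul_eq_mul] at h1
      refine le_trans ?_ h1
      rw [div_le_iff₀ hs1]
      nlinarith
  have h1 := lym hH
  have h2 : (H.card : ℚ) * (((s : ℚ) + D) / (s + 1)) ≤ (V.card.choose (s + 1) : ℚ) := by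
    calc (H.card : ℚ) * (((s : ℚ) + D) / (s + 1)) = ∑ _C ∈ H, ((s : ℚ) + D) / (s + 1) := by
          rw [sum_const, nsmul_eq_mul]
      _ ≤ _ := sum_le_sum hw
      _ ≤ _ := h1
  rw [hV] at h2
  have h3 : (s + 1) * (s + D).choose (s + 1) = D * (s + D).choose s := by
    have := Nat.choose_succ_right_eq (s + D) s
    have e : s + D - s = D := by omega
    rw [e] at this
    rw [mul_comm, this, mul_comm]
  have e : s + D - s = D := by omega
  rw [e, ← h3]
  have h4 : (H.card : ℚ) * ((s : ℚ) + D) ≤ ((s + D).choose (s + 1) : ℚ) * (s + 1) := by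
    rw [← mul_div_assoc, div_le_iff₀ hs1] at h2
    exact h2
  have h5 : ((s + D) * H.card : ℚ) ≤ (s + 1) * (s + D).choose (s + 1) := by linarith
  exact_mod_cast h5

end SimplexPool
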