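import Mathlib

set_option autoImplicit false

open Finset

namespace SimplexPool

/-- cyclic interval of length `s` starting at `i` -/
def arc {n : ℕ} (s : ℕ) (i : ZMod n) : Finset (ZMod n) :=
  (range s).image (fun j : ℕ => i + (j : ZMod n))

lemma mem_arc {n s : ℕ} {i x : ZMod n} : x ∈ arc s i ↔ ∃ j < s, i + (j : ZMod n) = x := by
  simp [arc]

lemma cast_inj_of_lt {n a b : ℕ} (ha : a < n) (hb : b < n) (h : (a : ZMod n) = (b : ZMod n)) :
    a = b := by
  rw [ZMod.natCast_eq_natCast_iff'] at h
  rwa [Nat.mod_eq_of_lt ha, Nat.mod_eq_of_lt hb] at h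

lemma card_arc {n s : ℕ} (hs : s ≤ n) (i : ZMod n) : (arc s i).card = s := by
  rw [arc, card_image_of_injOn, card_range]
  intro a ha b hb h
  simp only [coe_range, Set.mem_Iio] at ha hb
  exact cast_inj_of_lt (by omega) (by omega) (add_left_cancel h)

lemma arc_disjoint {n s t : ℕ} (h1 : s ≤ t) (h2 : t + s ≤ n) (i : ZMod n) :
    Disjoint (arc s i) (arc s (i + (t : ZMod n))) := by
  rw [disjoint_left]
  intro x hx hx'
  rw [mem_arc] at hx hx'
  obtain ⟨a, ha, rfl⟩ := hx
  obtain ⟨b, hb, h⟩ := hx'
  rw [add_assoc] at h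
  have h' := add_left_cancel h
  have : ((t + b : ℕ) : ZMod n) = (a : ZMod n) := by push_cast; exact h'
  have := cast_inj_of_lt (by omega) (by omega) this
  omega

section katona

variable {n : ℕ} [NeZero n]

/-- the function used in Katona's argument -/
def kf (n s : ℕ) (i j : ZMod n) : ℕ :=
  if (j - i).val < s then (j - i).val else (j - i).val - (n - s)

lemma eq_add_val (i j : ZMod n) : j = i + (((j - i).val : ℕ) : ZMod n) := by
  rw [ZMod.natCast_zmod_val]; ring

lemma kf_props {s : ℕ} (hs : 1 ≤ s) (hn : 2 * s ≤ n) {X : Finset (ZMod n)}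
    (h : ∀ i ∈ X, ∀ t : ℕ, s ≤ t → t + s ≤ n → i + (t : ZMod n) ∉ X) {i : ZMod n}
    (hi : i ∈ X) :
    (∀ j ∈ X, kf n s i j ∈ range s) ∧ Set.InjOn (kf n s i) (X : Set (ZMod n)) := by
  have val : ∀ j ∈ X, (j - i).val < s ∨ (n - s < (j - i).val ∧ (j - i).val < n) := by
    intro j hj
    by_contra hcon
    rw [not_or] at hcon
    have hlt := ZMod.val_lt (j - i)
    refine h i hi (j - i).val (by omega) (by omega) ?_
    rw [← eq_add_val]; exact hj
  constructor
  · intro j hj
    rw [mem_range, kf]
    rcases val j hj with h1 | h1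
    · rw [if_pos h1]; exact h1
    · rw [if_neg (by omega)]; omega
  · intro j hj j' hj' he
    have main : ∀ a ∈ X, ∀ b ∈ X, (a - i).val < s → ¬ (b - i).val < s →
        (a - i).val = (b - i).val - (n - s) → False := by
      intro a ha b hb h1 h2 h3
      have hb' := val b hb
      have e : (b - i).val = (a - i).val + (n - s) := by omega
      refine h a ha (n - s) (by omega) (by omega) ?_
      have : a + ((n - s : ℕ) : ZMod n) = b := by
        rw [eq_add_val i a, eq_add_val i b, e]
        push_cast; ring
      rw [this]; exact hb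
    simp only [kf] at he
    have fin : (j - i).val = (j' - i).val → j = j' := by
      intro e
      rw [eq_add_val i j, eq_add_val i j', e]
    by_cases h1 : (j - i).val < s <;> by_cases h2 : (j' - i).val < s
    · rw [if_pos h1, if_pos h2] at he; exact fin he
    · rw [if_pos h1, if_neg h2] at he
      exact (main j hj j' hj' h1 h2 he).elim
    · rw [if_neg h1, if_pos h2] at he
      exact (main j' hj' j hj h2 h1 he.symm).elim
    · rw [if_neg h1, if_neg h2] at he
      have := val j hj
      have := val j' hj'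
      exact fin (by omega)

lemma katona_le {s : ℕ} (hs : 1 ≤ s) (hn : 2 * s ≤ n) {X : Finset (ZMod n)}
    (h : ∀ i ∈ X, ∀ t : ℕ, s ≤ t → t + s ≤ n → i + (t : ZMod n) ∉ X) : X.card ≤ s := by
  rcases X.eq_empty_or_nonempty with rfl | ⟨i, hi⟩
  · simp
  · obtain ⟨h1, h2⟩ := kf_props hs hn h hi
    calc X.card ≤ (range s).card := card_le_card_of_injOn _ h1 h2
      _ = s := card_range s

lemma katona_eq {s : ℕ} (hs : 1 ≤ s) (hn : 2 * s + 1 ≤ n) {X : Finset (ZMod n)}
    (h : ∀ i ∈ X, ∀ t : ℕ, s ≤ t → t + s ≤ n → i + (t : ZMod n) ∉ X) (hc : X.card = s)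
    {i : ZMod n} (hi : i ∈ X) (hi' : i - 1 ∉ X) : ∀ t < s, i + (t : ZMod n) ∈ X := by
  classical
  obtain ⟨h1, h2⟩ := kf_props hs (by omega) h hi
  have him : X.image (kf n s i) = range s := by
    apply eq_of_subset_of_card_le
    · intro a ha
      rw [mem_image] at ha
      obtain ⟨j, hj, rfl⟩ := ha
      exact h1 j hj
    · rw [card_image_of_injOn h2, card_range, hc]
  have alt : ∀ t < s, i + (t : ZMod n) ∈ X ∨ i + ((t + (n - s) : ℕ) : ZMod n) ∈ X := by
    intro t ht
    have : t ∈ X.image (kf n s i) := by rw [him, mem_range]; exact ht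
    rw [mem_image] at this
    obtain ⟨j, hj, hjt⟩ := this
    rw [kf] at hjt
    by_cases hlt : (j - i).val < s
    · rw [if_pos hlt] at hjt
      left
      rw [← hjt, ← eq_add_val]; exact hj
    · rw [if_neg hlt] at hjt
      right
      by_cases hge : n - s ≤ (j - i).val
      · have : t + (n - s) = (j - i).val := by omega
        rw [this, ← eq_add_val]; exact hj
      · exfalso
        refine h i hi (j - i).val (by omega) (by omega) ?_
        rw [← eq_add_val]; exact hj
  -- downward induction from s - 1
  have top : i + ((s - 1 : ℕ) : ZMod n) ∈ X := by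
    rcases alt (s - 1) (by omega) with h3 | h3
    · exact h3
    · exfalso
      apply hi'
      have e : s - 1 + (n - s) = n - 1 := by omega
      rw [e] at h3
      have : ((n - 1 : ℕ) : ZMod n) = -1 := by
        have hn1 : 1 ≤ n := by omega
        rw [Nat.cast_sub hn1]; simp
      rw [this] at h3
      rw [sub_eq_add_neg]; exact h3
  have down : ∀ k, k ≤ s - 1 → i + ((s - 1 - k : ℕ) : ZMod n) ∈ X := by
    intro k
    induction k with
    | zero => intro _; simpa using top
    | succ k ih =>
      intro hk
      have hprev := ih (by omega)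
      rcases alt (s - 1 - (k + 1)) (by omega) with h3 | h3
      · exact h3
      · exfalso
        refine h _ h3 (s + 1) (by omega) (by omega) ?_
        have e : s - 1 - k = s - 1 - (k + 1) + 1 := by omega
        rw [e] at hprev
        have : i + ((s - 1 - (k + 1) + (n - s) : ℕ) : ZMod n) + ((s + 1 : ℕ) : ZMod n)
            = i + ((s - 1 - (k + 1) + 1 : ℕ) : ZMod n) := by
          have e2 : ((s - 1 - (k + 1) + (n - s) : ℕ) : ZMod n) + ((s + 1 : ℕ) : ZMod n)
              = ((s - 1 - (k + 1) + 1 : ℕ) : ZMod n) := by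
            rw [← Nat.cast_add]
            have e3 : s - 1 - (k + 1) + (n - s) + (s + 1) = (s - 1 - (k + 1) + 1) + n := by
              omega
            rw [e3, Nat.cast_add, ZMod.natCast_self, add_zero]
          rw [add_assoc, e2]
        rw [this]; exact hprev
  intro t ht
  have := down (s - 1 - t) (by omega)
  have e : s - 1 - (s - 1 - t) = t := by omega
  rwa [e] at this

end katona

/-- a permutation moving one set to another of the same size -/
lemma exists_perm_map {n : ℕ} (C C' : Finset (Fin n)) (h : C.card = C'.card) :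
    ∃ τ : Equiv.Perm (Fin n), C.map τ.toEmbedding = C' := by
  classical
  have e1 : {x // x ∈ C} ≃ {x // x ∈ C'} := Fintype.equivOfCardEq (by simpa using h)
  have e2 : {x // ¬ x ∈ C} ≃ {x // ¬ x ∈ C'} := Fintype.equivOfCardEq (by
    rw [Fintype.card_subtype_compl, Fintype.card_subtype_compl]
    simp [h])
  refine ⟨Equiv.subtypeCongr e1 e2, ?_⟩
  apply eq_of_subset_of_card_le
  · intro y hy
    rw [mem_map] at hy
    obtain ⟨x, hx, rfl⟩ := hy
    have : (Equiv.subtypeCongr e1 e2) x = (e1 ⟨x, hx⟩ : Fin n) := by
      simp [Equiv.subtypeCongr, Equiv.sumCompl_symm_apply_of_pos, hx]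
    rw [Equiv.coe_toEmbedding, this]
    exact (e1 ⟨x, hx⟩).2
  · rw [card_map, h]

/-- number of bijections taking a fixed position set to a fixed set -/
lemma count_maps {ι : Type} [Fintype ι] [DecidableEq ι] {n s : ℕ} (I : Finset ι) (hI : I.card = s)
    (C : Finset (Fin n)) (hC : C.card = s) :
    n.choose s * (univ.filter (fun σ : ι ≃ Fin n => I.map σ.toEmbedding = C)).card
      = Fintype.card (ι ≃ Fin n) := by
  classical
  have mt : ∀ (σ : ι ≃ Fin n) (τ : Equiv.Perm (Fin n)),
      I.map (σ.trans τ).toEmbedding = (I.map σ.toEmbedding).map τ.toEmbedding := by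
    intro σ τ
    rw [Finset.map_map]; rfl
  have hall : ∀ C' ∈ (univ : Finset (Fin n)).powersetCard s,
      (univ.filter (fun σ : ι ≃ Fin n => I.map σ.toEmbedding = C')).card
        = (univ.filter (fun σ : ι ≃ Fin n => I.map σ.toEmbedding = C)).card := by
    intro C' hC'
    rw [mem_powersetCard] at hC'
    obtain ⟨τ, hτ⟩ := exists_perm_map C' C (by rw [hC'.2, hC])
    apply card_bij (fun (σ : ι ≃ Fin n) _ => σ.trans τ)
    · intro σ hσ
      simp only [mem_filter, mem_univ, true_and] at hσ ⊢
      rw [mt, hσ, hτ]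
    · intro σ₁ _ σ₂ _ h
      ext x
      have := congrArg (fun e : ι ≃ Fin n => e x) h
      simp only [Equiv.trans_apply] at this
      exact congrArg Fin.val (τ.injective this)
    · intro σ hσ
      simp only [mem_filter, mem_univ, true_and] at hσ
      refine ⟨σ.trans τ.symm, ?_, ?_⟩
      · simp only [mem_filter, mem_univ, true_and]
        have : C' = C.map τ.symm.toEmbedding := by
          rw [← hτ]
          ext x
          simp
        rw [mt, hσ, ← this]
      · ext x; simp
  have hsum := card_eq_sum_card_fiberwise (s := (univ : Finset (ι ≃ Fin n)))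
    (t := (univ : Finset (Fin n)).powersetCard s)
    (f := fun σ : ι ≃ Fin n => I.map σ.toEmbedding) (by
      intro σ _
      rw [mem_coe, mem_powersetCard]
      exact ⟨subset_univ _, by rw [card_map, hI]⟩)
  rw [sum_congr rfl hall, sum_const, card_powersetCard, card_univ, card_univ, Fintype.card_fin,
    smul_eq_mul] at hsum
  exact hsum.symm

/-- a listing of `Fin n` gives a bijection from the cyclic positions -/
lemma exists_equiv_of_list {n : ℕ} [NeZero n] (L : List (Fin n)) (hnd : L.Nodup)
    (hall : ∀ x, x ∈ L) :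
    ∃ σ : ZMod n ≃ Fin n, ∀ (a l : ℕ), a + l ≤ n →
      (arc l (a : ZMod n)).map σ.toEmbedding = ((L.drop a).take l).toFinset := by
  classical
  have hlen : L.length = n := by
    have h1 : L.toFinset = univ := by
      ext x; simp [hall x]
    have h2 := List.toFinset_card_of_nodup hnd
    rw [h1, card_univ, Fintype.card_fin] at h2
    exact h2.symm
  let f : ZMod n → Fin n := fun z => L[z.val]'(by rw [hlen]; exact ZMod.val_lt z)
  have hf : Function.Injective f := by
    intro a b h
    have := (List.Nodup.getElem_inj_iff hnd).1 h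
    exact ZMod.val_injective n this
  have hb : Function.Bijective f := by
    rw [Fintype.bijective_iff_injective_and_card]
    exact ⟨hf, by rw [ZMod.card, Fintype.card_fin]⟩
  refine ⟨Equiv.ofBijective f hb, ?_⟩
  intro a l hal
  have hval : ∀ j : ℕ, j < n → ((j : ℕ) : ZMod n).val = j := fun j hj =>
    ZMod.val_cast_of_lt hj
  ext y
  simp only [mem_map, Equiv.coe_toEmbedding, Equiv.ofBijective_apply, List.mem_toFinset]
  rw [List.mem_iff_getElem]
  constructor
  · rintro ⟨x, hx, rfl⟩
    rw [mem_arc] at hx
    obtain ⟨j, hj, rfl⟩ := hx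
    refine ⟨j, ?_, ?_⟩
    · rw [List.length_take, List.length_drop, hlen]; omega
    · rw [List.getElem_take, List.getElem_drop]
      have e : ((a : ZMod n) + (j : ZMod n)).val = a + j := by
        rw [← Nat.cast_add]; exact hval _ (by omega)
      simp only [f, e]
  · rintro ⟨j, hj, rfl⟩
    rw [List.length_take, List.length_drop, hlen] at hj
    refine ⟨(a : ZMod n) + (j : ZMod n), ?_, ?_⟩
    · rw [mem_arc]; exact ⟨j, by omega, rfl⟩
    · rw [List.getElem_take, List.getElem_drop]
      have e : ((a : ZMod n) + (j : ZMod n)).val = a + j := by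
        rw [← Nat.cast_add]; exact hval _ (by omega)
      simp only [f, e]

/-- Johnson-adjacent pair (non-member, member) -/
lemma exists_adjacent {n s : ℕ} (Y : Finset (Finset (Fin n))) :
    ∀ (k : ℕ) (C D : Finset (Fin n)), (C \ D).card = k → C.card = s → D.card = s →
      C ∈ Y → D ∉ Y →
      ∃ (W : Finset (Fin n)) (x w : Fin n), x ∉ W ∧ w ∉ W ∧ x ≠ w ∧ W.card + 1 = s ∧
        insert x W ∈ Y ∧ insert w W ∉ Y := by
  classical
  intro k
  induction k with
  | zero =>
    intro C D h hC hD hCY hDY
    exfalso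
    rw [card_eq_zero, sdiff_eq_empty_iff_subset] at h
    have := eq_of_subset_of_card_le h (by omega)
    rw [this] at hCY
    exact hDY hCY
  | succ k ih =>
    intro C D h hC hD hCY hDY
    have h1 : (C \ D).Nonempty := by rw [← card_pos]; omega
    have h2 : (D \ C).Nonempty := by
      rw [← card_pos]
      have e1 := card_sdiff_add_card_inter C D
      have e2 := card_sdiff_add_card_inter D C
      rw [inter_comm] at e2
      omega
    obtain ⟨a, ha⟩ := h1
    obtain ⟨b, hb⟩ := h2
    rw [mem_sdiff] at ha hb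
    have hbe : b ∉ C.erase a := fun h => hb.2 (mem_of_mem_erase h)
    by_cases hE : insert b (C.erase a) ∈ Y
    · apply ih (insert b (C.erase a)) D _ _ hD hE hDY
      · have : insert b (C.erase a) \ D = (C \ D).erase a := by
          ext y
          simp only [mem_sdiff, mem_insert, mem_erase]
          constructor
          · rintro ⟨rfl | ⟨h1, h2⟩, h3⟩
            · exact absurd hb.1 h3
            · exact ⟨h1, h2, h3⟩
          · rintro ⟨h1, h2, h3⟩
            exact ⟨Or.inr ⟨h1, h2⟩, h3⟩
        rw [this, card_erase_of_mem (by rw [mem_sdiff]; exact ha), h]; rfl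
      · rw [card_insert_of_notMem hbe, card_erase_of_mem ha.1, hC]
        have : 0 < C.card := card_pos.2 ⟨a, ha.1⟩
        omega
    · refine ⟨C.erase a, a, b, notMem_erase a C, hbe, ?_, ?_, ?_, hE⟩
      · rintro rfl; exact hb.2 ha.1
      · rw [card_erase_of_mem ha.1, hC]
        have : 0 < C.card := card_pos.2 ⟨a, ha.1⟩
        omega
      · rw [insert_erase ha.1]; exact hCY

/-- **Uniqueness in the Erdős–Ko–Rado theorem** for `n > 2s`. -/
theorem ekr_unique {n s : ℕ} (hs : 1 ≤ s) (hn : 2 * s + 1 ≤ n) (Y : Finset (Finset (Fin n)))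
    (hY : ∀ C ∈ Y, C.card = s) (hint : ∀ C ∈ Y, ∀ C' ∈ Y, ¬ Disjoint C C')
    (hcard : Y.card = (n - 1).choose (s - 1)) : ∃ x, ∀ C ∈ Y, x ∈ C := by
  classical
  have : NeZero n := ⟨by omega⟩
  -- arcs of a cyclic order lying in `Y`
  let X : (ZMod n ≃ Fin n) → Finset (ZMod n) := fun σ =>
    univ.filter (fun i => (arc s i).map σ.toEmbedding ∈ Y)
  have memX : ∀ σ i, i ∈ X σ ↔ (arc s i).map σ.toEmbedding ∈ Y := by
    intro σ i; simp [X]
  have hX : ∀ σ, ∀ i ∈ X σ, ∀ t : ℕ, s ≤ t → t + s ≤ n → i + (t : ZMod n) ∉ X σ := by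
    intro σ i hi t h1 h2 h3
    rw [memX] at hi h3
    refine hint _ hi _ h3 ?_
    rw [disjoint_map]
    exact arc_disjoint h1 h2 i
  have hXle : ∀ σ, (X σ).card ≤ s := fun σ => katona_le hs (by omega) (hX σ)
  -- double counting
  have hcount : ∀ i : ZMod n, n.choose s *
      (univ.filter (fun σ : ZMod n ≃ Fin n => (arc s i).map σ.toEmbedding ∈ Y)).card
        = Y.card * Fintype.card (ZMod n ≃ Fin n) := by
    intro i
    have h1 : (univ.filter (fun σ : ZMod n ≃ Fin n => (arc s i).map σ.toEmbedding ∈ Y)).card
        = ∑ C ∈ Y, (univ.filter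
            (fun σ : ZMod n ≃ Fin n => (arc s i).map σ.toEmbedding = C)).card := by
      rw [card_eq_sum_card_fiberwise (t := Y)
        (f := fun σ : ZMod n ≃ Fin n => (arc s i).map σ.toEmbedding)]
      · apply sum_congr rfl
        intro C hC
        congr 1
        ext σ
        simp only [mem_filter, mem_univ, true_and]
        constructor
        · rintro ⟨-, h⟩; exact h
        · intro h; exact ⟨by rw [h]; exact hC, h⟩
      · intro σ hσ
        simp only [coe_filter, mem_univ, true_and] at hσ
        exact hσ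
    rw [h1, mul_sum, sum_congr rfl (fun C hC =>
      count_maps (arc s i) (card_arc (by omega) i) C (hY C hC)), sum_const, smul_eq_mul]
  have htot : n.choose s * ∑ σ : ZMod n ≃ Fin n, (X σ).card
      = n * (Y.card * Fintype.card (ZMod n ≃ Fin n)) := by
    have h1 : ∑ σ : ZMod n ≃ Fin n, (X σ).card
        = ∑ i : ZMod n, (univ.filter
            (fun σ : ZMod n ≃ Fin n => (arc s i).map σ.toEmbedding ∈ Y)).card := by
      simp only [X, card_filter]
      rw [sum_comm]
    rw [h1, mul_sum, sum_congr rfl (fun i _ => hcount i), sum_const, card_univ, ZMod.card,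
      smul_eq_mul]
  have hid : n * (n - 1).choose (s - 1) = s * n.choose s := by
    obtain ⟨m, rfl⟩ : ∃ m, n = m + 1 := ⟨n - 1, by omega⟩
    obtain ⟨r, rfl⟩ : ∃ r, s = r + 1 := ⟨s - 1, by omega⟩
    have := Nat.add_one_mul_choose_eq m r
    simp only [Nat.add_sub_cancel]
    rw [this]; ring
  have hpos : 0 < n.choose s := Nat.choose_pos (by omega)
  have hsum : ∑ σ : ZMod n ≃ Fin n, (X σ).card = ∑ _σ : ZMod n ≃ Fin n, s := by
    rw [sum_const, card_univ, smul_eq_mul]
    apply Nat.eq_of_mul_eq_mul_left hpos
    rw [htot, hcard]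
    calc n * ((n - 1).choose (s - 1) * Fintype.card (ZMod n ≃ Fin n))
        = (n * (n - 1).choose (s - 1)) * Fintype.card (ZMod n ≃ Fin n) := by ring
      _ = _ := by rw [hid]; ring
  have hXeq : ∀ σ, (X σ).card = s := by
    intro σ
    exact (sum_eq_sum_iff_of_le (fun σ _ => hXle σ)).1 hsum σ (mem_univ σ)
  -- `Y` is nonempty and not everything
  have hYne : Y.Nonempty := by
    rw [← card_pos, hcard]; exact Nat.choose_pos (by omega)
  obtain ⟨C₀, hC₀⟩ := hYne
  obtain ⟨D₀, hD₀, hD₀c⟩ := exists_subset_card_eq (s := univ \ C₀) (n := s) (by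
    rw [card_sdiff_of_subset (subset_univ _), card_univ, Fintype.card_fin, hY C₀ hC₀]; omega)
  have hD₀Y : D₀ ∉ Y := by
    intro h
    refine hint C₀ hC₀ D₀ h ?_
    rw [disjoint_left]
    intro a ha ha'
    exact (mem_sdiff.1 (hD₀ ha')).2 ha
  obtain ⟨W, x, w, hxW, hwW, hxw, hWc, hxY, hwY⟩ :=
    exists_adjacent Y _ C₀ D₀ rfl (hY C₀ hC₀) hD₀c hC₀ hD₀Y
  -- all sets containing `x` and missing `w` are in `Y`
  have hfull : ∀ C : Finset (Fin n), C.card = s → x ∈ C → w ∉ C → C ∈ Y := by
    intro C hC hxC hwC
    set A1 := (W \ C).toList with hA1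
    set A2 := (W ∩ C).toList with hA2
    set A4 := (C \ insert x W).toList with hA4
    set A5 := (univ \ insert w (W ∪ C)).toList with hA5
    let L : List (Fin n) := A1 ++ (A2 ++ (x :: A4)) ++ (A5 ++ [w])
    have hnd : L.Nodup := by
      have n1 : A1.Nodup := nodup_toList _
      have n2 : A2.Nodup := nodup_toList _
      have n4 : A4.Nodup := nodup_toList _
      have n5 : A5.Nodup := nodup_toList _
      simp only [L, List.nodup_append, List.nodup_cons, List.mem_append, List.mem_cons,
        List.nodup_nil, List.not_mem_nil]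
      have m1 : ∀ a, a ∈ A1 ↔ a ∈ W ∧ a ∉ C := fun a => by simp [hA1]
      have m2 : ∀ a, a ∈ A2 ↔ a ∈ W ∧ a ∈ C := fun a => by simp [hA2]
      have m4 : ∀ a, a ∈ A4 ↔ a ∈ C ∧ a ≠ x ∧ a ∉ W := fun a => by simp [hA4]
      have m5 : ∀ a, a ∈ A5 ↔ a ≠ w ∧ a ∉ W ∧ a ∉ C := fun a => by simp [hA5]
      simp only [m1, m2, m4, m5]
      refine ⟨⟨n1, ⟨n2, ⟨?_, n4⟩, ?_⟩, ?_⟩, ⟨n5, ⟨?_, ?_⟩, ?_⟩, ?_⟩
      · tauto
      · rintro a ⟨ha1, ha2⟩ b (rfl | ⟨hb1, hb2, hb3⟩) rfl
        · exact hxW ha1
        · exact hb3 ha1
      · rintro a ⟨ha1, ha2⟩ b (⟨hb1, hb2⟩ | rfl | ⟨hb1, hb2, hb3⟩) rfl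
        · exact ha2 hb2
        · exact ha2 hxC
        · exact ha2 hb1
      · tauto
      · trivial
      · rintro a ⟨ha1, ha2, ha3⟩ b (rfl | hb) rfl
        · exact ha1 rfl
        · exact hb
      · rintro a (⟨ha1, ha2⟩ | ⟨ha1, ha2⟩ | rfl | ⟨ha1, ha2, ha3⟩) b
          (⟨hb1, hb2, hb3⟩ | rfl | hb) rfl
        all_goals first | exact hb2 ha1 | exact hb3 ha1 | exact hb3 hxC | exact hb |
          exact hwW ha1 | exact hwC ha1 | exact hxw rfl
    have hall : ∀ y, y ∈ L := by
      intro y
      simp only [L, List.mem_append, List.mem_cons, hA1, hA2, hA4, hA5, mem_toList, mem_sdiff,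
        mem_inter, mem_insert, mem_union, mem_univ, true_and, List.not_mem_nil]
      tauto
    obtain ⟨σ, hσ⟩ := exists_equiv_of_list L hnd hall
    have hlen : L.length = n := by
      have h1 : L.toFinset = univ := by
        ext y; simp [hall y]
      have h2 := List.toFinset_card_of_nodup hnd
      rw [h1, card_univ, Fintype.card_fin] at h2
      exact h2.symm
    have l1 : A1.length + A2.length + 1 = s := by
      rw [hA1, hA2, length_toList, length_toList, card_sdiff_add_card_inter]; exact hWc
    have l2 : A2.length + 1 + A4.length = s := by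
      rw [hA2, hA4, length_toList, length_toList]
      have e1 := card_sdiff_add_card_inter C (insert x W)
      have e2 : C ∩ insert x W = insert x (W ∩ C) := by
        ext y
        simp only [mem_inter, mem_insert]
        constructor
        · rintro ⟨h1, rfl | h2⟩
          · exact Or.inl rfl
          · exact Or.inr ⟨h2, h1⟩
        · rintro (rfl | ⟨h1, h2⟩)
          · exact ⟨hxC, Or.inl rfl⟩
          · exact ⟨h2, Or.inr h1⟩
      rw [e2, card_insert_of_notMem (fun h => hxW (mem_inter.1 h).1)] at e1
      omega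
    have hL : L.length = A1.length + (A2.length + (1 + A4.length)) + (A5.length + 1) := by
      simp only [L, List.length_append, List.length_cons, List.length_nil]; omega
    -- position 0
    have p0 : (0 : ZMod n) ∈ X σ := by
      rw [memX]
      have h0 := hσ 0 s (by omega)
      rw [Nat.cast_zero] at h0
      rw [h0, List.drop_zero]
      have e1 : L = (A1 ++ (A2 ++ [x])) ++ (A4 ++ (A5 ++ [w])) := by simp [L]
      rw [e1, List.take_left' (by
        rw [List.length_append, List.length_append, List.length_singleton]; omega)]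
      have e2 : (A1 ++ (A2 ++ [x])).toFinset = insert x W := by
        ext y
        simp only [List.mem_toFinset, List.mem_append, List.mem_singleton, hA1, hA2, mem_toList,
          mem_sdiff, mem_inter, mem_insert]
        tauto
      rw [e2]; exact hxY
    have pm1 : (0 : ZMod n) - 1 ∉ X σ := by
      rw [memX]
      have e0 : arc s ((0 : ZMod n) - 1) = arc 1 ((n - 1 : ℕ) : ZMod n) ∪ arc (s - 1) ((0 : ℕ) : ZMod n) := by
        have e3 : ((n - 1 : ℕ) : ZMod n) = -1 := by
          rw [Nat.cast_sub (by omega : 1 ≤ n)]; simp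
        ext y
        rw [mem_union, mem_arc, mem_arc, mem_arc, e3]
        constructor
        · rintro ⟨j, hj, rfl⟩
          rcases Nat.eq_zero_or_pos j with rfl | hj0
          · left; exact ⟨0, by omega, by simp⟩
          · right
            refine ⟨j - 1, by omega, ?_⟩
            rw [Nat.cast_sub (by omega : 1 ≤ j)]; push_cast; ring
        · rintro (⟨j, hj, rfl⟩ | ⟨j, hj, rfl⟩)
          · obtain rfl : j = 0 := by omega
            exact ⟨0, by omega, by simp⟩
          · exact ⟨j + 1, by omega, by push_cast; ring⟩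
      rw [e0, map_union, hσ (n - 1) 1 (by omega), hσ 0 (s - 1) (by omega), List.drop_zero]
      have e1 : L = (A1 ++ A2) ++ (x :: A4 ++ (A5 ++ [w])) := by simp [L]
      have e2 : L = (A1 ++ (A2 ++ (x :: A4)) ++ A5) ++ [w] := by simp [L]
      have e3 : L.take (s - 1) = A1 ++ A2 := by
        rw [e1, List.take_left' (by rw [List.length_append]; omega)]
      have e4 : (L.drop (n - 1)).take 1 = [w] := by
        rw [e2, List.drop_left' (by
          simp only [List.length_append, List.length_cons]; omega)]
        rfl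
      rw [e3, e4]
      have e5 : [w].toFinset ∪ (A1 ++ A2).toFinset = insert w W := by
        ext y
        simp only [mem_union, List.mem_toFinset, List.mem_append, List.mem_singleton, hA1, hA2,
          mem_toList, mem_sdiff, mem_inter, mem_insert]
        tauto
      rw [e5]; exact hwY
    have hres := katona_eq hs hn (hX σ) (hXeq σ) p0 pm1 A1.length (by omega)
    rw [memX, zero_add, hσ A1.length s (by omega)] at hres
    have e6 : (L.drop A1.length).take s = A2 ++ (x :: A4) := by
      have e1 : L = A1 ++ ((A2 ++ (x :: A4)) ++ (A5 ++ [w])) := by simp [L]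
      rw [e1, List.drop_left' rfl, List.take_left' (by
        rw [List.length_append, List.length_cons]; omega)]
    rw [e6] at hres
    have e7 : (A2 ++ (x :: A4)).toFinset = C := by
      ext y
      simp only [List.mem_toFinset, List.mem_append, List.mem_cons, hA2, hA4, mem_toList,
        mem_sdiff, mem_inter, mem_insert]
      constructor
      · rintro (⟨h1, h2⟩ | rfl | ⟨h1, h2⟩)
        · exact h2
        · exact hxC
        · exact h1
      · intro h
        by_cases h1 : y ∈ W
        · exact Or.inl ⟨h1, h⟩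
        · by_cases h2 : y = x
          · exact Or.inr (Or.inl h2)
          · right; right
            exact ⟨h, by tauto⟩
    rwa [e7] at hres
  refine ⟨x, fun D hD => ?_⟩
  by_contra hxD
  obtain ⟨T, hT, hTc⟩ := exists_subset_card_eq (s := univ \ (insert x (insert w D)))
    (n := s - 1) (by
      rw [card_sdiff_of_subset (subset_univ _), card_univ, Fintype.card_fin]
      have h1 := card_insert_le x (insert w D)
      have h2 := card_insert_le w D
      rw [hY D hD] at h2
      omega)
  have hTx : x ∉ T := fun h => by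
    have := (mem_sdiff.1 (hT h)).2
    simp at this
  have hTw : w ∉ insert x T := by
    rw [mem_insert, not_or]
    refine ⟨fun h => hxw h.symm, fun h => ?_⟩
    have := (mem_sdiff.1 (hT h)).2
    simp at this
  have hCY : insert x T ∈ Y := hfull _ (by rw [card_insert_of_notMem hTx, hTc]; omega)
    (mem_insert_self _ _) hTw
  refine hint _ hCY D hD ?_
  rw [disjoint_left]
  intro a ha ha'
  rw [mem_insert] at ha
  rcases ha with rfl | ha
  · exact hxD ha'
  · have := (mem_sdiff.1 (hT ha)).2
    simp only [mem_insert, not_or] at this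
    exact this.2.2 ha'

end SimplexPool
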