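import Mathlib
import Pool.Agent.Lib.MP_32eaa8_co.EKRUnique

set_option autoImplicit false

open Finset

namespace Pool.Agent.Chv

open SimplexPool

section cyc

variable {N : ℕ} [NeZero N]

lemma eq_univ_of_closed {U : Finset (ZMod N)} (hne : U.Nonempty) (h : ∀ i ∈ U, i + 1 ∈ U) :
    U = univ := by
  obtain ⟨i0, hi0⟩ := hne
  have h1 : ∀ t : ℕ, i0 + (t : ZMod N) ∈ U := by
    intro t
    induction t with
    | zero => simpa using hi0
    | succ t ih =>
      have := h _ ih
      rw [add_assoc] at this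
      push_cast
      exact this
  ext j
  simp only [Finset.mem_univ, iff_true]
  rw [SimplexPool.eq_add_val i0 j]
  exact h1 _

lemma grow {U V : Finset (ZMod N)} (hne : U.Nonempty) (hUV : U ⊆ V) (h1 : ∀ i ∈ U, i + 1 ∈ V) :
    min N (U.card + 1) ≤ V.card := by
  by_cases h : U = V
  · subst h
    rw [eq_univ_of_closed hne h1, Finset.card_univ, ZMod.card]
    omega
  · have := Finset.card_lt_card (Finset.ssubset_iff_subset_ne.mpr ⟨hUV, h⟩)
    omega

lemma sumset {S : Finset (ZMod N)} (hS : S.Nonempty) (a : ℕ) : ∀ j : ℕ,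
    min N (S.card + j) ≤
      (univ.filter (fun i : ZMod N => ∃ t, t ≤ j ∧ i - ((a + t : ℕ) : ZMod N) ∈ S)).card := by
  intro j
  induction j with
  | zero =>
    have h1 : S.image (fun i => i + ((a : ℕ) : ZMod N)) ⊆
        univ.filter (fun i : ZMod N => ∃ t, t ≤ 0 ∧ i - ((a + t : ℕ) : ZMod N) ∈ S) := by
      intro i hi
      obtain ⟨j, hj, rfl⟩ := Finset.mem_image.mp hi
      rw [Finset.mem_filter]
      refine ⟨Finset.mem_univ _, 0, le_rfl, ?_⟩
      simpa using hj
    have h2 := Finset.card_le_card h1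
    rw [Finset.card_image_of_injective _ (add_left_injective _)] at h2
    omega
  | succ j ih =>
    set U := univ.filter (fun i : ZMod N => ∃ t, t ≤ j ∧ i - ((a + t : ℕ) : ZMod N) ∈ S) with hU
    set V := univ.filter (fun i : ZMod N => ∃ t, t ≤ j + 1 ∧ i - ((a + t : ℕ) : ZMod N) ∈ S) with hV
    have hne : U.Nonempty := by
      obtain ⟨i, hi⟩ := hS
      refine ⟨i + ((a : ℕ) : ZMod N), ?_⟩
      rw [hU, Finset.mem_filter]
      refine ⟨Finset.mem_univ _, 0, by omega, ?_⟩
      simpa using hi
    have h1 : U ⊆ V := by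
      intro i hi
      rw [hU, Finset.mem_filter] at hi
      rw [hV, Finset.mem_filter]
      obtain ⟨_, t, ht, hi⟩ := hi
      exact ⟨Finset.mem_univ _, t, by omega, hi⟩
    have h2 : ∀ i ∈ U, i + 1 ∈ V := by
      intro i hi
      rw [hU, Finset.mem_filter] at hi
      rw [hV, Finset.mem_filter]
      obtain ⟨_, t, ht, hi⟩ := hi
      refine ⟨Finset.mem_univ _, t + 1, by omega, ?_⟩
      have : i + 1 - ((a + (t + 1) : ℕ) : ZMod N) = i - ((a + t : ℕ) : ZMod N) := by
        push_cast; ring
      rw [this]; exact hi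
    have h3 := grow hne h1 h2
    omega

omit [NeZero N] in
lemma circle_arith {m a b : ℕ} (h2m : 2 * m ≤ N) (h : a + b ≤ 2 * m) (hb : b ≤ m) :
    m * a + (N - m) * b ≤ m * N := by
  obtain ⟨e, rfl⟩ : ∃ e, N = 2 * m + e := ⟨N - 2 * m, by omega⟩
  obtain ⟨f, rfl⟩ : ∃ f, m = b + f := ⟨m - b, by omega⟩
  have h9 : 2 * (b + f) + e - (b + f) = b + f + e := by omega
  rw [h9]
  have h11 : a ≤ 2 * f + b := by omega
  have h12 := Nat.mul_le_mul_left (b + f) h11
  nlinarith [Nat.zero_le (e * f)]

lemma circle_one {m : ℕ} (hm : 1 ≤ m) (h2m : 2 * m ≤ N) {S T : Finset (ZMod N)} (hST : S ⊆ T)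
    (h : ∀ i ∈ S, ∀ t : ℕ, m ≤ t → t + m ≤ N → i + (t : ZMod N) ∉ T) :
    m * T.card + (N - m) * S.card ≤ m * N := by
  rcases S.eq_empty_or_nonempty with rfl | hS
  · rw [Finset.card_empty, Nat.mul_zero, Nat.add_zero]
    apply Nat.mul_le_mul_left
    have := Finset.card_le_univ T
    rwa [ZMod.card] at this
  · have h1 := sumset hS m (N - 2 * m)
    have h2 : Disjoint T (univ.filter (fun i : ZMod N => ∃ t, t ≤ N - 2 * m ∧
        i - ((m + t : ℕ) : ZMod N) ∈ S)) := by
      rw [Finset.disjoint_left]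
      intro i hi hi'
      rw [Finset.mem_filter] at hi'
      obtain ⟨_, t, ht, hi'⟩ := hi'
      have := h _ hi' (m + t) (by omega) (by omega)
      rw [sub_add_cancel] at this
      exact this hi
    have h3 := Finset.card_union_of_disjoint h2
    have h4 := Finset.card_le_univ (T ∪ (univ.filter (fun i : ZMod N => ∃ t, t ≤ N - 2 * m ∧
        i - ((m + t : ℕ) : ZMod N) ∈ S)))
    rw [ZMod.card] at h4
    have h5 := Finset.card_le_card hST
    have h6 : 0 < S.card := Finset.card_pos.mpr hS
    have h7 : T.card + S.card ≤ 2 * m := by omega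
    have h8 : S.card ≤ m := by omega
    exact circle_arith h2m h7 h8

end cyc

theorem circle_fin {N m : ℕ} (hm : 1 ≤ m) (h2m : 2 * m ≤ N) (G : Finset (Finset (Fin N)))
    (hG : ∀ A ∈ G, A.card = m) :
    m * G.card + (N - m) * (G.filter (fun A => ∀ B ∈ G, (A ∩ B).Nonempty)).card
      ≤ m * N.choose m := by
  classical
  have : NeZero N := ⟨by omega⟩
  have hcount : ∀ (Y : Finset (Finset (Fin N))), (∀ A ∈ Y, A.card = m) → 
      N.choose m * ∑ σ : ZMod N ≃ Fin N,
        (univ.filter (fun i => (arc m i).map σ.toEmbedding ∈ Y)).card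
        = N * (Y.card * Fintype.card (ZMod N ≃ Fin N)) := by
    intro Y hY
    have hc : ∀ i : ZMod N, N.choose m *
        (univ.filter (fun σ : ZMod N ≃ Fin N => (arc m i).map σ.toEmbedding ∈ Y)).card
          = Y.card * Fintype.card (ZMod N ≃ Fin N) := by
      intro i
      have h1 : (univ.filter (fun σ : ZMod N ≃ Fin N => (arc m i).map σ.toEmbedding ∈ Y)).card
          = ∑ C ∈ Y, (univ.filter
              (fun σ : ZMod N ≃ Fin N => (arc m i).map σ.toEmbedding = C)).card := by
        rw [card_eq_sum_card_fiberwise (t := Y)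
          (f := fun σ : ZMod N ≃ Fin N => (arc m i).map σ.toEmbedding)]
        · apply sum_congr rfl
          intro C hC
          congr 1
          ext σ
          simp only [mem_filter, mem_univ, true_and]
          constructor
          · rintro ⟨-, h⟩; exact h
          · intro h; exact ⟨by rw [h]; exact hC, h⟩
        · intro σ hσ
          simp only [coe_filter, mem_univ, true_and] at hσ
          exact hσ
      rw [h1, mul_sum, sum_congr rfl (fun C hC =>
        count_maps (arc m i) (card_arc (by omega) i) C (hY C hC)), sum_const, smul_eq_mul]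
    have h1 : ∑ σ : ZMod N ≃ Fin N, (univ.filter (fun i => (arc m i).map σ.toEmbedding ∈ Y)).card
        = ∑ i : ZMod N, (univ.filter
            (fun σ : ZMod N ≃ Fin N => (arc m i).map σ.toEmbedding ∈ Y)).card := by
      simp only [card_filter]
      rw [sum_comm]
    rw [h1, mul_sum, sum_congr rfl (fun i _ => hc i), sum_const, card_univ, ZMod.card,
      smul_eq_mul]
  set Gs := G.filter (fun A => ∀ B ∈ G, (A ∩ B).Nonempty) with hGs
  have h1 := hcount G hG
  have h2 := hcount Gs (fun A hA => hG A (Finset.mem_filter.mp hA).1)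
  have h3 : ∀ σ : ZMod N ≃ Fin N,
      m * (univ.filter (fun i => (arc m i).map σ.toEmbedding ∈ G)).card
        + (N - m) * (univ.filter (fun i => (arc m i).map σ.toEmbedding ∈ Gs)).card ≤ m * N := by
    intro σ
    apply circle_one hm h2m
    · intro i hi
      rw [Finset.mem_filter] at hi ⊢
      exact ⟨hi.1, (Finset.mem_filter.mp hi.2).1⟩
    · intro i hi t ht1 ht2 hT
      rw [Finset.mem_filter] at hi hT
      have h4 := (Finset.mem_filter.mp hi.2).2 _ hT.2
      rw [← Finset.not_disjoint_iff_nonempty_inter] at h4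
      apply h4
      rw [disjoint_map]
      exact arc_disjoint ht1 ht2 i
  have h4 := Finset.sum_le_sum (fun σ (_ : σ ∈ (univ : Finset (ZMod N ≃ Fin N))) => h3 σ)
  rw [Finset.sum_add_distrib, ← Finset.mul_sum, ← Finset.mul_sum, Finset.sum_const, Finset.card_univ,
    smul_eq_mul] at h4
  have h5 := Nat.mul_le_mul_left (N.choose m) h4
  have hpos : 0 < N * Fintype.card (ZMod N ≃ Fin N) := by
    apply Nat.mul_pos (by omega)
    have : Nonempty (ZMod N ≃ Fin N) := ⟨Fintype.equivOfCardEq (by rw [ZMod.card, Fintype.card_fin])⟩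
    exact Fintype.card_pos
  apply Nat.le_of_mul_le_mul_left _ hpos
  calc N * Fintype.card (ZMod N ≃ Fin N) * (m * G.card + (N - m) * Gs.card)
      = m * (N * (G.card * Fintype.card (ZMod N ≃ Fin N)))
        + (N - m) * (N * (Gs.card * Fintype.card (ZMod N ≃ Fin N))) := by ring
    _ = N.choose m * (m * ∑ σ : ZMod N ≃ Fin N,
        (univ.filter (fun i => (arc m i).map σ.toEmbedding ∈ G)).card
        + (N - m) * ∑ σ : ZMod N ≃ Fin N,
        (univ.filter (fun i => (arc m i).map σ.toEmbedding ∈ Gs)).card) := by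
        rw [← h1, ← h2]; ring
    _ ≤ N.choose m * (Fintype.card (ZMod N ≃ Fin N) * (m * N)) := h5
    _ = N * Fintype.card (ZMod N ≃ Fin N) * (m * N.choose m) := by ring

theorem circle {β : Type*} [Fintype β] [DecidableEq β] {m : ℕ} (hm : 1 ≤ m)
    (h2m : 2 * m ≤ Fintype.card β) (G : Finset (Finset β)) (hG : ∀ A ∈ G, A.card = m) :
    m * G.card + (Fintype.card β - m) * (G.filter (fun A => ∀ B ∈ G, (A ∩ B).Nonempty)).card
      ≤ m * (Fintype.card β).choose m := by
  classical
  set e := Fintype.equivFin β with he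
  set φ : Finset β → Finset (Fin (Fintype.card β)) := fun A => A.map e.toEmbedding with hφ
  have hinj : Function.Injective φ := Finset.map_injective _
  have h := circle_fin hm h2m (G.image φ) (by
    intro A' hA'
    obtain ⟨A, hA, rfl⟩ := Finset.mem_image.mp hA'
    rw [hφ]
    simp only [Finset.card_map]
    exact hG A hA)
  rw [Finset.card_image_of_injective _ hinj] at h
  have hint : ∀ A B : Finset β, ((φ A ∩ φ B).Nonempty ↔ (A ∩ B).Nonempty) := by
    intro A B
    rw [hφ]
    simp only [← Finset.map_inter, Finset.map_nonempty]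
  have h3 : ((G.image φ).filter (fun A => ∀ B ∈ G.image φ, (A ∩ B).Nonempty))
      = (G.filter (fun A => ∀ B ∈ G, (A ∩ B).Nonempty)).image φ := by
    ext A'
    simp only [Finset.mem_filter, Finset.mem_image]
    constructor
    · rintro ⟨⟨A, hA, rfl⟩, hB⟩
      refine ⟨A, ⟨hA, fun B hBG => ?_⟩, rfl⟩
      exact (hint A B).mp (hB (φ B) ⟨B, hBG, rfl⟩)
    · rintro ⟨A, ⟨hA, hB⟩, rfl⟩
      refine ⟨⟨A, hA, rfl⟩, ?_⟩
      rintro _ ⟨B, hBG, rfl⟩
      exact (hint A B).mpr (hB B hBG)
  rw [h3, Finset.card_image_of_injective _ hinj] at h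
  exact h

end Pool.Agent.Chv
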