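import Mathlib
import Pool.Agent.Lib.MP_32eaa8_co.Circle

set_option autoImplicit false

open Finset
open scoped FinsetFamily

namespace Pool.Agent.Chv

variable {α : Type*} [Fintype α] [DecidableEq α]

/-- `F` contains a `d`-simplex. -/
def HasSimplex (d : ℕ) (F : Finset (Finset α)) : Prop :=
  ∃ S : Finset (Finset α), S ⊆ F ∧ S.card = d + 1 ∧ S.inf id = (∅ : Finset α) ∧
    ∀ T : Finset (Finset α), T ⊆ S → T.card = d → (T.inf id).Nonempty

lemma hasSimplex_of {d : ℕ} {F S : Finset (Finset α)} (hS : S ⊆ F) (hc : S.card = d + 1)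
    (h1 : ∀ z : α, ∃ B ∈ S, z ∉ B) (h2 : ∀ B ∈ S, ∃ z : α, ∀ B' ∈ S, B' ≠ B → z ∈ B') :
    HasSimplex d F := by
  refine ⟨S, hS, hc, ?_, ?_⟩
  · ext z
    simp only [Finset.mem_inf, id, Finset.notMem_empty, iff_false, not_forall]
    obtain ⟨B, hB, hz⟩ := h1 z
    exact ⟨B, hB, hz⟩
  · intro T hT hTc
    have h3 : (S \ T).card = 1 := by
      rw [Finset.card_sdiff_of_subset hT, hc, hTc]; omega
    obtain ⟨B, hB⟩ := Finset.card_eq_one.mp h3
    have hBS : B ∈ S ∧ B ∉ T := by
      rw [← Finset.mem_sdiff, hB]; exact Finset.mem_singleton_self B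
    obtain ⟨z, hz⟩ := h2 B hBS.1
    refine ⟨z, ?_⟩
    simp only [Finset.mem_inf, id]
    intro B' hB'
    exact hz B' (hT hB') (fun h => hBS.2 (h ▸ hB'))

/-- the key configuration -/
lemma key {d k : ℕ} {F : Finset (Finset α)} (hF : ∀ A ∈ F, A.card = k) (hd : 1 ≤ d) (hdk : d < k)
    {A X E : Finset α} (hA : A ∈ F) (hX : X ⊆ A) (hXd : X.card = d) (y : α → α)
    (hy : ∀ x ∈ X, y x ∉ A) (hyF : ∀ x ∈ X, insert (y x) (A.erase x) ∈ F)
    (hE : E ∈ F) (hEA : E ∩ A = X) (hns : ¬ HasSimplex d F) :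
    ∃ y0 ∈ E, ∀ x ∈ X, y x = y0 := by
  by_contra hcon
  apply hns
  have hmemB : ∀ x ∈ X, ∀ z ∈ A, z ≠ x → z ∈ insert (y x) (A.erase x) := by
    intro x _ z hz hzx
    exact Finset.mem_insert_of_mem (Finset.mem_erase.mpr ⟨hzx, hz⟩)
  have hnotB : ∀ x ∈ X, x ∉ insert (y x) (A.erase x) := by
    intro x hx hxm
    rcases Finset.mem_insert.mp hxm with h | h
    · exact hy x hx (h ▸ hX hx)
    · exact (Finset.mem_erase.mp h).1 rfl
  have hXE : X ⊆ E := hEA ▸ Finset.inter_subset_left
  have hEnotin : E ∉ X.image (fun x => insert (y x) (A.erase x)) := by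
    intro h
    obtain ⟨x, hx, hxE⟩ := Finset.mem_image.mp h
    exact hnotB x hx (by rw [hxE]; exact hXE hx)
  have hinj : Set.InjOn (fun x => insert (y x) (A.erase x)) (X : Set α) := by
    intro x hx x' hx' hxx
    by_contra hne
    have h1 : x ∈ insert (y x') (A.erase x') := hmemB x' hx' x (hX hx) hne
    have h2 : (insert (y x) (A.erase x)) = insert (y x') (A.erase x') := hxx
    rw [← h2] at h1
    exact hnotB x hx h1
  refine hasSimplex_of (S := insert E (X.image (fun x => insert (y x) (A.erase x)))) ?_ ?_ ?_ ?_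
  · intro B hB
    rcases Finset.mem_insert.mp hB with h | h
    · exact h ▸ hE
    · obtain ⟨x, hx, hxB⟩ := Finset.mem_image.mp h
      exact hxB ▸ hyF x hx
  · rw [Finset.card_insert_of_notMem hEnotin, Finset.card_image_of_injOn hinj, hXd]
  · intro z
    by_contra hz
    push Not at hz
    have hzE : z ∈ E := hz E (Finset.mem_insert_self _ _)
    have hzB : ∀ x ∈ X, z ∈ insert (y x) (A.erase x) := fun x hx =>
      hz _ (Finset.mem_insert_of_mem (Finset.mem_image_of_mem _ hx))
    by_cases hzA : z ∈ A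
    · have hzX : z ∈ X := by rw [← hEA]; exact Finset.mem_inter.mpr ⟨hzE, hzA⟩
      exact hnotB z hzX (hzB z hzX)
    · apply hcon
      refine ⟨z, hzE, fun x hx => ?_⟩
      rcases Finset.mem_insert.mp (hzB x hx) with h | h
      · exact h.symm
      · exact absurd (Finset.mem_erase.mp h).2 hzA
  · intro B hB
    rcases Finset.mem_insert.mp hB with h | h
    · -- omit E
      have : ∃ a ∈ A, a ∉ X := by
        by_contra hall
        push Not at hall
        have : A.card ≤ X.card := Finset.card_le_card hall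
        rw [hF A hA, hXd] at this
        omega
      obtain ⟨a, haA, haX⟩ := this
      refine ⟨a, fun B' hB' hne => ?_⟩
      rcases Finset.mem_insert.mp hB' with h' | h'
      · exact absurd (h'.trans h.symm) hne
      · obtain ⟨x, hx, hxB⟩ := Finset.mem_image.mp h'
        rw [← hxB]
        exact hmemB x hx a haA (fun h => haX (h ▸ hx))
    · obtain ⟨x, hx, hxB⟩ := Finset.mem_image.mp h
      refine ⟨x, fun B' hB' hne => ?_⟩
      rcases Finset.mem_insert.mp hB' with h' | h'
      · rw [h']; exact hXE hx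
      · obtain ⟨x', hx', hxB'⟩ := Finset.mem_image.mp h'
        rw [← hxB']
        apply hmemB x' hx' x (hX hx)
        intro hxx
        apply hne
        rw [← hxB, ← hxB', hxx]

/-- second configuration: two weird sets meeting in `d-2` elements -/
lemma key2 {d k : ℕ} {F : Finset (Finset α)} (hF : ∀ A ∈ F, A.card = k) (hdk : d < k)
    {A X X' E E' : Finset α} (hA : A ∈ F) (hX : X ⊆ A) (hXd : X.card = d)
    (hX' : X' ⊆ A) (hXd' : X'.card = d) (hXX : (X ∩ X').card + 2 = d) {y : α} (hy : y ∉ A)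
    (hyF : ∀ x ∈ X ∩ X', insert y (A.erase x) ∈ F)
    (hE : E ∈ F) (hEA : E ∩ A = X) (hE' : E' ∈ F) (hEA' : E' ∩ A = X') (hyE : y ∈ E) (hyE' : y ∈ E') :
    HasSimplex d F := by
  have hmemB : ∀ x ∈ X ∩ X', ∀ z ∈ A, z ≠ x → z ∈ insert y (A.erase x) := by
    intro x _ z hz hzx
    exact Finset.mem_insert_of_mem (Finset.mem_erase.mpr ⟨hzx, hz⟩)
  have hsub : ∀ x ∈ X ∩ X', x ∈ A := fun x hx => hX (Finset.mem_inter.mp hx).1
  have hnotB : ∀ x ∈ X ∩ X', x ∉ insert y (A.erase x) := by
    intro x hx hxm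
    rcases Finset.mem_insert.mp hxm with h | h
    · exact hy (h ▸ hsub x hx)
    · exact (Finset.mem_erase.mp h).1 rfl
  have hXE : X ⊆ E := hEA ▸ Finset.inter_subset_left
  have hXE' : X' ⊆ E' := hEA' ▸ Finset.inter_subset_left
  have hXne : X ≠ X' := by
    intro h
    rw [h, Finset.inter_self, hXd'] at hXX
    omega
  have hEE' : E ≠ E' := by
    intro h
    apply hXne
    rw [← hEA, ← hEA', h]
  have hEneA : E ≠ A := by
    intro h
    rw [h, Finset.inter_self] at hEA
    rw [← hEA, hF A hA] at hXd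
    omega
  have hE'neA : E' ≠ A := by
    intro h
    rw [h, Finset.inter_self] at hEA'
    rw [← hEA', hF A hA] at hXd'
    omega
  set I := (X ∩ X').image (fun x => insert y (A.erase x)) with hI
  have hinj : Set.InjOn (fun x => insert y (A.erase x)) ((X ∩ X' : Finset α) : Set α) := by
    intro x hx x' hx' hxx
    by_contra hne
    have h1 : x ∈ insert y (A.erase x') := hmemB x' hx' x (hsub x hx) hne
    have h2 : (insert y (A.erase x)) = insert y (A.erase x') := hxx
    rw [← h2] at h1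
    exact hnotB x hx h1
  have hEI : E ∉ I := by
    intro h
    obtain ⟨x, hx, hxE⟩ := Finset.mem_image.mp h
    exact hnotB x hx (by rw [hxE]; exact hXE (Finset.mem_inter.mp hx).1)
  have hEI' : E' ∉ I := by
    intro h
    obtain ⟨x, hx, hxE⟩ := Finset.mem_image.mp h
    exact hnotB x hx (by rw [hxE]; exact hXE' (Finset.mem_inter.mp hx).2)
  have hAI : A ∉ I := by
    intro h
    obtain ⟨x, hx, hxE⟩ := Finset.mem_image.mp h
    exact hnotB x hx (by rw [hxE]; exact hsub x hx)
  have ex1 : ∃ z ∈ X', z ∉ X := by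
    by_contra hall
    push Not at hall
    have h5 : X ∩ X' = X' := Finset.inter_eq_right.mpr hall
    rw [h5] at hXX; omega
  have ex2 : ∃ z ∈ X, z ∉ X' := by
    by_contra hall
    push Not at hall
    have h5 : X ∩ X' = X := Finset.inter_eq_left.mpr hall
    rw [h5] at hXX; omega
  refine hasSimplex_of (S := insert E (insert E' (insert A I))) ?_ ?_ ?_ ?_
  · intro B hB
    simp only [Finset.mem_insert] at hB
    rcases hB with h | h | h | h
    · exact h ▸ hE
    · exact h ▸ hE'
    · exact h ▸ hA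
    · obtain ⟨x, hx, hxB⟩ := Finset.mem_image.mp h
      exact hxB ▸ hyF x hx
  · rw [Finset.card_insert_of_notMem, Finset.card_insert_of_notMem, Finset.card_insert_of_notMem hAI,
      Finset.card_image_of_injOn hinj]
    · omega
    · simp only [Finset.mem_insert, not_or]; exact ⟨hE'neA, hEI'⟩
    · simp only [Finset.mem_insert, not_or]; exact ⟨hEE', hEneA, hEI⟩
  · intro z
    by_contra hz
    push Not at hz
    have hzE : z ∈ E := hz E (by simp)
    have hzE' : z ∈ E' := hz E' (by simp)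
    have hzA : z ∈ A := hz A (by simp)
    have hzX : z ∈ X := by rw [← hEA]; exact Finset.mem_inter.mpr ⟨hzE, hzA⟩
    have hzX' : z ∈ X' := by rw [← hEA']; exact Finset.mem_inter.mpr ⟨hzE', hzA⟩
    have hzI : z ∈ X ∩ X' := Finset.mem_inter.mpr ⟨hzX, hzX'⟩
    apply hnotB z hzI
    apply hz
    simp only [Finset.mem_insert]
    exact Or.inr (Or.inr (Or.inr (Finset.mem_image_of_mem _ hzI)))
  · intro B hB
    simp only [Finset.mem_insert] at hB
    rcases hB with h | h | h | h
    · -- omit E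
      obtain ⟨z, hz, hzX⟩ := ex1
      refine ⟨z, fun B' hB' hne => ?_⟩
      simp only [Finset.mem_insert] at hB'
      rcases hB' with h' | h' | h' | h'
      · exact absurd (h'.trans h.symm) hne
      · rw [h']; exact hXE' hz
      · rw [h']; exact hX' hz
      · obtain ⟨x, hx, hxB⟩ := Finset.mem_image.mp h'
        rw [← hxB]
        exact hmemB x hx z (hX' hz) (fun h => hzX (h ▸ (Finset.mem_inter.mp hx).1))
    · obtain ⟨z, hz, hzX⟩ := ex2
      refine ⟨z, fun B' hB' hne => ?_⟩
      simp only [Finset.mem_insert] at hB'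
      rcases hB' with h' | h' | h' | h'
      · rw [h']; exact hXE hz
      · exact absurd (h'.trans h.symm) hne
      · rw [h']; exact hX hz
      · obtain ⟨x, hx, hxB⟩ := Finset.mem_image.mp h'
        rw [← hxB]
        exact hmemB x hx z (hX hz) (fun h => hzX (h ▸ (Finset.mem_inter.mp hx).2))
    · refine ⟨y, fun B' hB' hne => ?_⟩
      simp only [Finset.mem_insert] at hB'
      rcases hB' with h' | h' | h' | h'
      · rw [h']; exact hyE
      · rw [h']; exact hyE'
      · exact absurd (h'.trans h.symm) hne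
      · obtain ⟨x, hx, hxB⟩ := Finset.mem_image.mp h'
        rw [← hxB]
        exact Finset.mem_insert_self _ _
    · obtain ⟨x, hx, hxB⟩ := Finset.mem_image.mp h
      refine ⟨x, fun B' hB' hne => ?_⟩
      simp only [Finset.mem_insert] at hB'
      rcases hB' with h' | h' | h' | h'
      · rw [h']; exact hXE (Finset.mem_inter.mp hx).1
      · rw [h']; exact hXE' (Finset.mem_inter.mp hx).2
      · rw [h']; exact hsub x hx
      · obtain ⟨x', hx', hxB'⟩ := Finset.mem_image.mp h'
        rw [← hxB']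
        apply hmemB x' hx' x (hsub x hx)
        intro hxx
        apply hne
        rw [← hxB, ← hxB', hxx]


/-- Johnson neighbours of `A` in `F` through `x` -/
def nb (F : Finset (Finset α)) (A : Finset α) (x : α) : Finset α :=
  univ.filter (fun y => y ∉ A ∧ insert y (A.erase x) ∈ F)

def Dn (F : Finset (Finset α)) (P : Finset α) : Finset α :=
  univ.filter (fun y => y ∉ P ∧ insert y P ∈ F)

def Nn (F : Finset (Finset α)) (P : Finset α) : Finset α :=
  univ.filter (fun y => y ∉ P ∧ insert y P ∉ F)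

lemma mem_nb {F : Finset (Finset α)} {A : Finset α} {x y : α} :
    y ∈ nb F A x ↔ y ∉ A ∧ insert y (A.erase x) ∈ F := by
  simp [nb]

lemma mem_Dn {F : Finset (Finset α)} {P : Finset α} {y : α} :
    y ∈ Dn F P ↔ y ∉ P ∧ insert y P ∈ F := by
  simp [Dn]

lemma mem_Nn {F : Finset (Finset α)} {P : Finset α} {y : α} :
    y ∈ Nn F P ↔ y ∉ P ∧ insert y P ∉ F := by
  simp [Nn]

lemma Dn_erase {F : Finset (Finset α)} {A : Finset α} {x : α} (hA : A ∈ F) (hx : x ∈ A) :
    Dn F (A.erase x) = insert x (nb F A x) := by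
  ext y
  rw [Finset.mem_insert, mem_Dn, mem_nb]
  constructor
  · rintro ⟨h1, h2⟩
    by_cases h : y = x
    · exact Or.inl h
    · refine Or.inr ⟨fun hy => h1 (Finset.mem_erase.mpr ⟨h, hy⟩), h2⟩
  · rintro (h | ⟨h1, h2⟩)
    · subst h
      refine ⟨Finset.notMem_erase _ _, ?_⟩
      rw [Finset.insert_erase hx]; exact hA
    · exact ⟨fun h => h1 (Finset.mem_of_mem_erase h), h2⟩

lemma card_Dn_erase {F : Finset (Finset α)} {A : Finset α} {x : α} (hA : A ∈ F) (hx : x ∈ A) :
    (Dn F (A.erase x)).card = (nb F A x).card + 1 := by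
  rw [Dn_erase hA hx, Finset.card_insert_of_notMem]
  rw [mem_nb]
  exact fun h => h.1 hx

lemma card_Dn_add_Nn (F : Finset (Finset α)) (P : Finset α) :
    (Dn F P).card + (Nn F P).card = Fintype.card α - P.card := by
  rw [← Finset.card_compl, ← Finset.card_union_of_disjoint]
  · congr 1
    ext y
    rw [Finset.mem_union, mem_Dn, mem_Nn, Finset.mem_compl]
    tauto
  · rw [Finset.disjoint_left]
    intro y h1 h2
    exact (mem_Nn.mp h2).2 (mem_Dn.mp h1).2

lemma sum_shadow (F : Finset (Finset α)) (f : Finset α → ℚ) :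
    ∑ A ∈ F, ∑ x ∈ A, f (A.erase x) = ∑ P ∈ ∂ F, ((Dn F P).card : ℚ) * f P := by
  have h0 : ∀ P ∈ ∂ F, ((Dn F P).card : ℚ) * f P = ∑ _y ∈ Dn F P, f P := by
    intro P _
    rw [Finset.sum_const, nsmul_eq_mul]
  rw [Finset.sum_congr rfl h0, Finset.sum_sigma', Finset.sum_sigma']
  refine Finset.sum_bij' (fun (a : Σ _ : Finset α, α) _ => (⟨a.1.erase a.2, a.2⟩ : Σ _ : Finset α, α))
    (fun a _ => ⟨insert a.2 a.1, a.2⟩) ?_ ?_ ?_ ?_ ?_
  · rintro ⟨A, x⟩ h
    rw [Finset.mem_sigma] at h ⊢
    obtain ⟨hA, hx⟩ := h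
    refine ⟨Finset.mem_shadow_iff.mpr ⟨A, hA, x, hx, rfl⟩, ?_⟩
    change x ∈ Dn F (A.erase x)
    rw [Dn_erase hA hx]
    exact Finset.mem_insert_self _ _
  · rintro ⟨P, y⟩ h
    rw [Finset.mem_sigma] at h ⊢
    exact ⟨(mem_Dn.mp h.2).2, Finset.mem_insert_self _ _⟩
  · rintro ⟨A, x⟩ h
    rw [Finset.mem_sigma] at h
    simp only
    rw [Finset.insert_erase h.2]
  · rintro ⟨P, y⟩ h
    rw [Finset.mem_sigma] at h
    simp only
    rw [Finset.erase_insert (mem_Dn.mp h.2).1]
  · rintro ⟨A, x⟩ _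
    rfl

lemma Dn_pos {F : Finset (Finset α)} {P : Finset α} (hP : P ∈ ∂ F) : 0 < (Dn F P).card := by
  obtain ⟨y, hy, hyF⟩ := Finset.mem_shadow_iff_insert_mem.mp hP
  exact Finset.card_pos.mpr ⟨y, mem_Dn.mpr ⟨hy, hyF⟩⟩

/-- inequality (II), shadow form -/
lemma sum_Nn_le {k : ℕ} {F : Finset (Finset α)} (hF : ∀ A ∈ F, A.card = k) (hk : 1 ≤ k) :
    ∑ P ∈ ∂ F, (Nn F P).card ≤ k * ((powersetCard k (univ : Finset α)) \ F).card := by
  have h1 : k * ((powersetCard k (univ : Finset α)) \ F).card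
      = (((powersetCard k (univ : Finset α)) \ F).sigma (fun E => E)).card := by
    rw [Finset.card_sigma, Finset.sum_const_nat (m := k), mul_comm]
    intro E hE
    exact (Finset.mem_powersetCard.mp (Finset.mem_sdiff.mp hE).1).2
  rw [h1, ← Finset.card_sigma]
  refine Finset.card_le_card_of_injOn (fun a => ⟨insert a.2 a.1, a.2⟩) ?_ ?_
  · rintro ⟨P, y⟩ h
    have h' := Finset.mem_sigma.mp (Finset.mem_coe.mp h)
    obtain ⟨hP, hy⟩ := h'
    simp only at hP hy
    have hy' := mem_Nn.mp hy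
    refine Finset.mem_coe.mpr (Finset.mem_sigma.mpr ⟨Finset.mem_sdiff.mpr ⟨?_, hy'.2⟩, Finset.mem_insert_self _ _⟩)
    refine Finset.mem_powersetCard.mpr ⟨Finset.subset_univ _, ?_⟩
    obtain ⟨z, hz, hzF⟩ := Finset.mem_shadow_iff_insert_mem.mp hP
    have := hF _ hzF
    rw [Finset.card_insert_of_notMem hz] at this
    change (insert y P).card = k
    rw [Finset.card_insert_of_notMem hy'.1]
    exact this
  · rintro ⟨P, y⟩ h ⟨P', y'⟩ h' heq
    have hy := (mem_Nn.mp (Finset.mem_sigma.mp (Finset.mem_coe.mp h)).2).1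
    have hy' := (mem_Nn.mp (Finset.mem_sigma.mp (Finset.mem_coe.mp h')).2).1
    simp only [Sigma.mk.injEq, heq_eq_eq] at heq hy hy' ⊢
    obtain ⟨h1, h2⟩ := heq
    subst h2
    refine ⟨?_, rfl⟩
    rw [← Finset.erase_insert hy, ← Finset.erase_insert hy', h1]

/-- equality in (II) -/
lemma shadow_of_eq {k : ℕ} {F : Finset (Finset α)} (hF : ∀ A ∈ F, A.card = k) (hk : 1 ≤ k)
    (heq : k * ((powersetCard k (univ : Finset α)) \ F).card ≤ ∑ P ∈ ∂ F, (Nn F P).card)
    {E : Finset α} (hE : E.card = k) (hEF : E ∉ F) {y : α} (hy : y ∈ E) : E.erase y ∈ ∂ F := by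
  have h1 : k * ((powersetCard k (univ : Finset α)) \ F).card
      = (((powersetCard k (univ : Finset α)) \ F).sigma (fun E => E)).card := by
    rw [Finset.card_sigma, Finset.sum_const_nat (m := k), mul_comm]
    intro E hE
    exact (Finset.mem_powersetCard.mp (Finset.mem_sdiff.mp hE).1).2
  rw [h1, ← Finset.card_sigma] at heq
  have hsurj := Finset.surj_on_of_inj_on_of_card_le
    (s := (∂ F).sigma (fun P => Nn F P))
    (t := ((powersetCard k (univ : Finset α)) \ F).sigma (fun E => E))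
    (fun a _ => (⟨insert a.2 a.1, a.2⟩ : Σ _ : Finset α, α)) ?_ ?_ heq ⟨E, y⟩ ?_
  · obtain ⟨⟨P, z⟩, hPz, h2⟩ := hsurj
    simp only [Sigma.mk.injEq, heq_eq_eq] at h2
    obtain ⟨h3, h4⟩ := h2
    subst h4
    have h5 := Finset.mem_sigma.mp hPz
    simp only at h5
    rw [h3, Finset.erase_insert (mem_Nn.mp h5.2).1]
    exact h5.1
  · rintro ⟨P, y⟩ h
    obtain ⟨hP, hy⟩ := Finset.mem_sigma.mp h
    simp only at hP hy
    have hy' := mem_Nn.mp hy
    refine Finset.mem_sigma.mpr ⟨Finset.mem_sdiff.mpr ⟨?_, hy'.2⟩, Finset.mem_insert_self _ _⟩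
    refine Finset.mem_powersetCard.mpr ⟨Finset.subset_univ _, ?_⟩
    obtain ⟨z, hz, hzF⟩ := Finset.mem_shadow_iff_insert_mem.mp hP
    have := hF _ hzF
    rw [Finset.card_insert_of_notMem hz] at this
    change (insert y P).card = k
    rw [Finset.card_insert_of_notMem hy'.1]
    exact this
  · rintro ⟨P, y⟩ ⟨P', y'⟩ h h' heq
    have hy := (mem_Nn.mp (Finset.mem_sigma.mp h).2).1
    have hy' := (mem_Nn.mp (Finset.mem_sigma.mp h').2).1
    simp only [Sigma.mk.injEq, heq_eq_eq] at heq hy hy' ⊢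
    obtain ⟨h1, h2⟩ := heq
    subst h2
    refine ⟨?_, rfl⟩
    rw [← Finset.erase_insert hy, ← Finset.erase_insert hy', h1]
  · exact Finset.mem_sigma.mpr ⟨Finset.mem_sdiff.mpr
      ⟨Finset.mem_powersetCard.mpr ⟨Finset.subset_univ _, hE⟩, hEF⟩, hy⟩

lemma card_notin {k : ℕ} {F : Finset (Finset α)} (hF : ∀ A ∈ F, A.card = k) :
    (((powersetCard k (univ : Finset α)) \ F).card : ℚ) = ((Fintype.card α).choose k : ℚ) - F.card := by
  have hsub : F ⊆ powersetCard k (univ : Finset α) := fun A hA =>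
    Finset.mem_powersetCard.mpr ⟨Finset.subset_univ _, hF A hA⟩
  have h1 := Finset.card_sdiff_add_card_eq_card hsub
  rw [Finset.card_powersetCard, Finset.card_univ] at h1
  rw [← h1]; push_cast; ring

lemma sum_weights {k : ℕ} {F : Finset (Finset α)} (hF : ∀ A ∈ F, A.card = k) (hk : 1 ≤ k)
    (hkn : k ≤ Fintype.card α) :
    ∑ A ∈ F, ∑ x ∈ A, (((Fintype.card α - k : ℕ) : ℚ) - (nb F A x).card) / ((nb F A x).card + 1)
      = ((∑ P ∈ ∂ F, (Nn F P).card : ℕ) : ℚ) := by
  have h1 : ∀ A ∈ F, ∀ x ∈ A, (((Fintype.card α - k : ℕ) : ℚ) - (nb F A x).card) / ((nb F A x).card + 1)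
      = ((Nn F (A.erase x)).card : ℚ) / (Dn F (A.erase x)).card := by
    intro A hA x hx
    have h2 := card_Dn_add_Nn F (A.erase x)
    have h3 := card_Dn_erase hA hx
    rw [Finset.card_erase_of_mem hx, hF A hA] at h2
    rw [h3] at h2 ⊢
    have h4 : (nb F A x).card + (Nn F (A.erase x)).card = Fintype.card α - k := by omega
    rw [← h4]
    push_cast
    congr 1
    ring
  rw [Finset.sum_congr rfl (fun A hA => Finset.sum_congr rfl (h1 A hA)),
    sum_shadow F (fun P => ((Nn F P).card : ℚ) / (Dn F P).card)]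
  push_cast
  refine Finset.sum_congr rfl (fun P hP => ?_)
  have := Dn_pos hP
  field_simp

/-- inequality (II) -/
lemma countII {k : ℕ} {F : Finset (Finset α)} (hF : ∀ A ∈ F, A.card = k) (hk : 1 ≤ k)
    (hkn : k ≤ Fintype.card α) :
    ∑ A ∈ F, ∑ x ∈ A, (((Fintype.card α - k : ℕ) : ℚ) - (nb F A x).card) / ((nb F A x).card + 1)
      ≤ k * (((Fintype.card α).choose k : ℚ) - F.card) := by
  rw [sum_weights hF hk hkn, ← card_notin hF]
  exact_mod_cast sum_Nn_le hF hk

lemma countII_eq {k : ℕ} {F : Finset (Finset α)} (hF : ∀ A ∈ F, A.card = k) (hk : 1 ≤ k)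
    (hkn : k ≤ Fintype.card α)
    (heq : k * (((Fintype.card α).choose k : ℚ) - F.card) ≤
      ∑ A ∈ F, ∑ x ∈ A, (((Fintype.card α - k : ℕ) : ℚ) - (nb F A x).card) / ((nb F A x).card + 1))
    {E : Finset α} (hE : E.card = k) (hEF : E ∉ F) {y : α} (hy : y ∈ E) : E.erase y ∈ ∂ F := by
  rw [sum_weights hF hk hkn, ← card_notin hF] at heq
  exact shadow_of_eq hF hk (by exact_mod_cast heq) hE hEF hy



theorem circle_on (V : Finset α) {m : ℕ} (hm : 1 ≤ m)
    (h2m : 2 * m ≤ V.card) (G : Finset (Finset α)) (hG : ∀ A ∈ G, A ⊆ V ∧ A.card = m) :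
    m * G.card + (V.card - m) * (G.filter (fun A => ∀ B ∈ G, (A ∩ B).Nonempty)).card
      ≤ m * V.card.choose m := by
  classical
  set φ : Finset α → Finset V := fun A => A.subtype (· ∈ V) with hφ
  have hback : ∀ A, A ⊆ V → (φ A).map (Function.Embedding.subtype _) = A := by
    intro A hA
    rw [hφ]
    simp only [Finset.subtype_map]
    exact Finset.filter_true_of_mem hA
  have hinj : Set.InjOn φ (G : Set (Finset α)) := by
    intro A hA B hB hAB
    rw [← hback A (hG A hA).1, ← hback B (hG B hB).1, hAB]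
  have hcard : ∀ A, A ⊆ V → (φ A).card = A.card := by
    intro A hA
    rw [← Finset.card_map (Function.Embedding.subtype (· ∈ V)), hback A hA]
  have hint : ∀ A B, A ⊆ V → B ⊆ V → ((φ A ∩ φ B).Nonempty ↔ (A ∩ B).Nonempty) := by
    intro A B hA hB
    constructor
    · rintro ⟨⟨x, hx⟩, hxm⟩
      rw [Finset.mem_inter, hφ] at hxm
      simp only [Finset.mem_subtype] at hxm
      exact ⟨x, Finset.mem_inter.mpr hxm⟩
    · rintro ⟨x, hx⟩
      rw [Finset.mem_inter] at hx
      refine ⟨⟨x, hA hx.1⟩, ?_⟩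
      rw [Finset.mem_inter, hφ]
      simp only [Finset.mem_subtype]
      exact hx
  have h := circle (β := V) hm (by rw [Fintype.card_coe]; exact h2m) (G.image φ) (by
    intro A' hA'
    obtain ⟨A, hA, rfl⟩ := Finset.mem_image.mp hA'
    rw [hcard A (hG A hA).1]; exact (hG A hA).2)
  rw [Fintype.card_coe, Finset.card_image_of_injOn hinj] at h
  have h3 : ((G.image φ).filter (fun A => ∀ B ∈ G.image φ, (A ∩ B).Nonempty))
      = (G.filter (fun A => ∀ B ∈ G, (A ∩ B).Nonempty)).image φ := by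
    ext A'
    simp only [Finset.mem_filter, Finset.mem_image]
    constructor
    · rintro ⟨⟨A, hA, rfl⟩, hB⟩
      refine ⟨A, ⟨hA, fun B hBG => ?_⟩, rfl⟩
      exact (hint A B (hG A hA).1 (hG B hBG).1).mp (hB (φ B) ⟨B, hBG, rfl⟩)
    · rintro ⟨A, ⟨hA, hB⟩, rfl⟩
      refine ⟨⟨A, hA, rfl⟩, ?_⟩
      rintro _ ⟨B, hBG, rfl⟩
      exact (hint A B (hG A hA).1 (hG B hBG).1).mpr (hB B hBG)
  rw [h3, Finset.card_image_of_injOn (hinj.mono (by
    intro A hA
    exact Finset.mem_coe.mpr (Finset.mem_filter.mp (Finset.mem_coe.mp hA)).1))] at h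
  exact h

/-- number of `d`-subsets of `A` which are not a trace of a member -/
def gg (F : Finset (Finset α)) (d : ℕ) (A : Finset α) : ℕ :=
  ((powersetCard d A).filter (fun X => ∀ E ∈ F, E ∩ A ≠ X)).card

lemma link_ineq {d k : ℕ} {F : Finset (Finset α)} (hF : ∀ A ∈ F, A.card = k) (hdk : d < k)
    (hn : 2 * k ≤ Fintype.card α + d) (hkn : k ≤ Fintype.card α) {X : Finset α} (hX : X.card = d) :
    (k - d) * (F.filter (fun A => X ⊆ A)).card
      + (Fintype.card α - k) * (F.filter (fun A => X ⊆ A ∧ ∀ E ∈ F, E ∩ A ≠ X)).card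
      ≤ (k - d) * (Fintype.card α - d).choose (k - d) := by
  set G := (F.filter (fun A => X ⊆ A)).image (fun A => A \ X) with hGdef
  have hinj : Set.InjOn (fun A : Finset α => A \ X) ((F.filter (fun A => X ⊆ A) : Finset (Finset α)) : Set (Finset α)) := by
    intro A hA B hB hAB
    have hA' := (Finset.mem_filter.mp (Finset.mem_coe.mp hA)).2
    have hB' := (Finset.mem_filter.mp (Finset.mem_coe.mp hB)).2
    simp only at hAB
    rw [← Finset.sdiff_union_of_subset hA', ← Finset.sdiff_union_of_subset hB', hAB]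
  have hV : (Xᶜ).card = Fintype.card α - d := by rw [Finset.card_compl, hX]
  have h := circle_on (Xᶜ) (m := k - d) (by omega) (by rw [hV]; omega) G (by
    intro B hB
    obtain ⟨A, hA, rfl⟩ := Finset.mem_image.mp hB
    obtain ⟨hAF, hXA⟩ := Finset.mem_filter.mp hA
    refine ⟨?_, ?_⟩
    · intro z hz
      rw [Finset.mem_compl]
      exact (Finset.mem_sdiff.mp hz).2
    · rw [Finset.card_sdiff_of_subset hXA, hF A hAF, hX])
  have h3 : G.filter (fun A => ∀ B ∈ G, (A ∩ B).Nonempty)
      = (F.filter (fun A => X ⊆ A ∧ ∀ E ∈ F, E ∩ A ≠ X)).image (fun A => A \ X) := by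
    ext A'
    simp only [Finset.mem_filter, Finset.mem_image, hGdef]
    constructor
    · rintro ⟨⟨A, ⟨hA, hXA⟩, rfl⟩, hB⟩
      refine ⟨A, ⟨hA, hXA, fun E hE hEA => ?_⟩, rfl⟩
      have hXE : X ⊆ E := hEA ▸ Finset.inter_subset_left
      obtain ⟨z, hz⟩ := hB (E \ X) ⟨E, ⟨hE, hXE⟩, rfl⟩
      simp only [Finset.mem_inter, Finset.mem_sdiff] at hz
      apply hz.1.2
      rw [← hEA]
      exact Finset.mem_inter.mpr ⟨hz.2.1, hz.1.1⟩
    · rintro ⟨A, ⟨hA, hXA, hE⟩, rfl⟩
      refine ⟨⟨A, ⟨hA, hXA⟩, rfl⟩, ?_⟩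
      rintro _ ⟨B, ⟨hB, hXB⟩, rfl⟩
      by_contra hcon
      apply hE B hB
      ext z
      constructor
      · intro hz
        rw [Finset.mem_inter] at hz
        by_contra hzX
        apply hcon
        refine ⟨z, ?_⟩
        simp only [Finset.mem_inter, Finset.mem_sdiff]
        exact ⟨⟨hz.2, hzX⟩, ⟨hz.1, hzX⟩⟩
      · intro hz
        exact Finset.mem_inter.mpr ⟨hXB hz, hXA hz⟩
  rw [h3, hV, Finset.card_image_of_injOn hinj, Finset.card_image_of_injOn (hinj.mono (by
    intro A hA
    have hA' := Finset.mem_filter.mp (Finset.mem_coe.mp hA)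
    exact Finset.mem_coe.mpr (Finset.mem_filter.mpr ⟨hA'.1, hA'.2.1⟩)))] at h
  have h5 : Fintype.card α - d - (k - d) = Fintype.card α - k := by omega
  rw [h5] at h
  exact h

/-- inequality (I) -/
lemma countI {d k : ℕ} {F : Finset (Finset α)} (hF : ∀ A ∈ F, A.card = k) (hdk : d < k)
    (hn : 2 * k ≤ Fintype.card α + d) (hkn : k ≤ Fintype.card α) :
    (k - d) * (F.card * k.choose d) + (Fintype.card α - k) * ∑ A ∈ F, gg F d A
      ≤ (k - d) * ((Fintype.card α).choose k * k.choose d) := by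
  have h1 : ∀ X ∈ powersetCard d (univ : Finset α), _ := fun X hX =>
    link_ineq hF hdk hn hkn (Finset.mem_powersetCard.mp hX).2
  have h2 := Finset.sum_le_sum h1
  rw [Finset.sum_add_distrib, ← Finset.mul_sum, ← Finset.mul_sum, Finset.sum_const,
    Finset.card_powersetCard, Finset.card_univ, smul_eq_mul] at h2
  have h3 : ∑ X ∈ powersetCard d (univ : Finset α), (F.filter (fun A => X ⊆ A)).card
      = F.card * k.choose d := by
    have := Finset.sum_card_bipartiteAbove_eq_sum_card_bipartiteBelow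
      (s := powersetCard d (univ : Finset α)) (t := F) (fun X A => X ⊆ A)
    simp only [Finset.bipartiteAbove, Finset.bipartiteBelow] at this
    rw [this, Finset.sum_const_nat (m := k.choose d)]
    intro A hA
    have : (powersetCard d (univ : Finset α)).filter (fun X => X ⊆ A) = powersetCard d A := by
      ext X
      simp only [Finset.mem_filter, Finset.mem_powersetCard, Finset.subset_univ, true_and]
      tauto
    rw [this, Finset.card_powersetCard, hF A hA]
  have h4 : ∑ X ∈ powersetCard d (univ : Finset α),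
      (F.filter (fun A => X ⊆ A ∧ ∀ E ∈ F, E ∩ A ≠ X)).card = ∑ A ∈ F, gg F d A := by
    have := Finset.sum_card_bipartiteAbove_eq_sum_card_bipartiteBelow
      (s := powersetCard d (univ : Finset α)) (t := F) (fun X A => X ⊆ A ∧ ∀ E ∈ F, E ∩ A ≠ X)
    simp only [Finset.bipartiteAbove, Finset.bipartiteBelow] at this
    rw [this]
    refine Finset.sum_congr rfl (fun A _ => ?_)
    unfold gg
    congr 1
    ext X
    simp only [Finset.mem_filter, Finset.mem_powersetCard, Finset.subset_univ, true_and]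
    tauto
  rw [h3, h4] at h2
  refine h2.trans (le_of_eq ?_)
  have h5 := Nat.choose_mul (n := Fintype.card α) (k := k) (s := d) hdk.le
  rw [h5]
  ring



/-- the weird sets -/
lemma weird {d k : ℕ} {F : Finset (Finset α)} (hF : ∀ A ∈ F, A.card = k) (hd : 2 ≤ d) (hdk : d < k)
    {A X E : Finset α} (hA : A ∈ F) (hX : X ⊆ A) (hXd : X.card = d)
    (hne : ∀ x ∈ X, (nb F A x).Nonempty)
    (hE : E ∈ F) (hEA : E ∩ A = X) (hns : ¬ HasSimplex d F) :
    ∃ y0 ∈ E, ∀ x ∈ X, nb F A x = {y0} := by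
  classical
  choose! y hy using hne
  obtain ⟨y0, hy0E, hy0⟩ := key hF (by omega) hdk hA hX hXd y
    (fun x hx => (mem_nb.mp (hy x hx)).1) (fun x hx => (mem_nb.mp (hy x hx)).2) hE hEA hns
  refine ⟨y0, hy0E, fun x hx => ?_⟩
  ext z
  rw [Finset.mem_singleton]
  constructor
  · intro hz
    -- another element x' of X
    have : ∃ x' ∈ X, x' ≠ x := by
      by_contra hcon
      push Not at hcon
      have : X ⊆ {x} := fun w hw => Finset.mem_singleton.mpr (hcon w hw)
      have := Finset.card_le_card this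
      rw [Finset.card_singleton] at this
      omega
    obtain ⟨x', hx', hne'⟩ := this
    obtain ⟨y1, -, hy1⟩ := key hF (by omega) hdk hA hX hXd (fun w => if w = x then z else y w)
      (fun w hw => by
        by_cases h : w = x
        · simp only [h, if_true]; exact (mem_nb.mp hz).1
        · simp only [h, if_false]; exact (mem_nb.mp (hy w hw)).1)
      (fun w hw => by
        by_cases h : w = x
        · simp only [h, if_true]; exact (mem_nb.mp hz).2
        · simp only [h, if_false]; exact (mem_nb.mp (hy w hw)).2) hE hEA hns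
    have h1 := hy1 x hx
    have h2 := hy1 x' hx'
    simp only [if_true] at h1
    simp only [hne', if_false] at h2
    rw [h1, ← h2, hy0 x' hx']
  · intro hz
    rw [hz, ← hy0 x hx]
    exact hy x hx

omit [Fintype α] in
/-- exchange closure -/
lemma exch_closure (S : Finset α → Prop) (T0 : Finset α)
    (hstep : ∀ W, S W → T0 ⊆ W → ∀ x ∈ W, x ∉ T0 → ∀ y, y ∉ W → S (insert y (W.erase x))) :
    ∀ m : ℕ, ∀ W W' : Finset α, (W' \ W).card = m → W.card = W'.card → T0 ⊆ W → T0 ⊆ W' →
      S W → S W' := by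
  intro m
  induction m with
  | zero =>
    intro W W' h0 hc _ _ hS
    rw [Finset.card_eq_zero, Finset.sdiff_eq_empty_iff_subset] at h0
    rw [Finset.eq_of_subset_of_card_le h0 hc.le]
    exact hS
  | succ m ih =>
    intro W W' h0 hc hT hT' hS
    have h1 : (W' \ W).Nonempty := by rw [← Finset.card_pos]; omega
    obtain ⟨y, hy⟩ := h1
    have h2 : (W \ W').card = (W' \ W).card := by
      have e1 := Finset.card_sdiff_add_card_inter W W'
      have e2 := Finset.card_sdiff_add_card_inter W' W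
      rw [Finset.inter_comm] at e2
      omega
    have h3 : (W \ W').Nonempty := by rw [← Finset.card_pos]; omega
    obtain ⟨x, hx⟩ := h3
    rw [Finset.mem_sdiff] at hx hy
    have hxT : x ∉ T0 := fun h => hx.2 (hT' h)
    have hyW : y ∉ W := hy.2
    have hnew := hstep W hS hT x hx.1 hxT y hyW
    refine ih (insert y (W.erase x)) W' ?_ ?_ ?_ hT' hnew
    · have : W' \ insert y (W.erase x) = (W' \ W).erase y := by
        ext z
        simp only [Finset.mem_sdiff, Finset.mem_insert, Finset.mem_erase, not_or, not_and]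
        constructor
        · rintro ⟨h1, h2, h3⟩
          refine ⟨h2, h1, fun hzW => ?_⟩
          by_cases hzx : z = x
          · exact hx.2 (hzx ▸ h1)
          · exact h3 hzx hzW
        · rintro ⟨h1, h2, h3⟩
          exact ⟨h2, h1, fun _ => h3⟩
      rw [this, Finset.card_erase_of_mem (Finset.mem_sdiff.mpr hy), h0]
      omega
    · rw [Finset.card_insert_of_notMem (fun h => hyW (Finset.mem_of_mem_erase h)),
        Finset.card_erase_of_mem hx.1]
      have : 0 < W.card := Finset.card_pos.mpr ⟨x, hx.1⟩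
      omega
    · intro z hz
      refine Finset.mem_insert_of_mem (Finset.mem_erase.mpr ⟨fun h => hxT (h ▸ hz), hT hz⟩)

lemma nb_full {k : ℕ} {F : Finset (Finset α)} (hF : ∀ A ∈ F, A.card = k) {A : Finset α} (hA : A ∈ F)
    {x : α} (h : (nb F A x).card = Fintype.card α - k) : ∀ y, y ∉ A → insert y (A.erase x) ∈ F := by
  have h1 : nb F A x ⊆ Aᶜ := by
    intro y hy
    rw [Finset.mem_compl]
    exact (mem_nb.mp hy).1
  have h2 : nb F A x = Aᶜ := Finset.eq_of_subset_of_card_le h1 (by rw [Finset.card_compl, hF A hA, h])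
  intro y hy
  have : y ∈ nb F A x := by rw [h2, Finset.mem_compl]; exact hy
  exact (mem_nb.mp this).2

/-- Uniqueness lemma -/
lemma star_of_local {k : ℕ} {F : Finset (Finset α)} (hF : ∀ A ∈ F, A.card = k) (hk : 1 ≤ k)
    (hkn : k < Fintype.card α)
    (h1 : ∀ A ∈ F, ∀ x ∈ A, (nb F A x).card = 0 ∨ (nb F A x).card = Fintype.card α - k)
    (h2 : ∀ A ∈ F, (A.filter (fun x => (nb F A x).card = 0)).card ≤ 1)
    (hcard : F.card = (Fintype.card α - 1).choose (k - 1)) :
    ∃ x, ∀ A ∈ F, x ∈ A := by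
  have hpos : 0 < F.card := by rw [hcard]; exact Nat.choose_pos (by omega)
  obtain ⟨A0, hA0⟩ := Finset.card_pos.mp hpos
  by_cases hall : ∀ A ∈ F, ∀ x ∈ A, (nb F A x).card = Fintype.card α - k
  · exfalso
    have hcl : ∀ W : Finset α, W.card = k → W ∈ F := by
      intro W hW
      refine exch_closure (fun W => W ∈ F) ∅ ?_ _ A0 W rfl (by rw [hF A0 hA0, hW]) (by simp) (by simp) hA0
      intro W hW _ x hx _ y hy
      exact nb_full hF hW (hall W hW x hx) y hy
    have h3 : powersetCard k (univ : Finset α) ⊆ F := fun W hW =>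
      hcl W (Finset.mem_powersetCard.mp hW).2
    have h4 := Finset.card_le_card h3
    rw [Finset.card_powersetCard, Finset.card_univ, hcard] at h4
    obtain ⟨k', rfl⟩ : ∃ k', k = k' + 1 := ⟨k - 1, by omega⟩
    obtain ⟨n', hn'⟩ : ∃ n', Fintype.card α = n' + 1 := ⟨Fintype.card α - 1, by omega⟩
    rw [hn'] at h4 hkn
    have h5 := Nat.choose_succ_succ n' k'
    have h6 : n' + 1 - 1 = n' := by omega
    have h7 : k' + 1 - 1 = k' := by omega
    rw [h6, h7] at h4
    simp only [Nat.succ_eq_add_one] at h5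
    have : 0 < n'.choose (k' + 1) := Nat.choose_pos (by omega)
    omega
  · push Not at hall
    obtain ⟨A, hA, v, hv, hne⟩ := hall
    have hv0 : (nb F A v).card = 0 := by
      rcases h1 A hA v hv with h | h
      · exact h
      · exact absurd h hne
    have hsp : 0 < Fintype.card α - k := by omega
    have hcl : ∀ W : Finset α, W.card = k → {v} ⊆ W → (W ∈ F ∧ (nb F W v).card = 0) := by
      intro W hW hvW
      refine exch_closure (fun W => W ∈ F ∧ (nb F W v).card = 0) {v} ?_ _ A W rfl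
        (by rw [hF A hA, hW]) (by simpa using hv) hvW ⟨hA, hv0⟩
      rintro W ⟨hWF, hW0⟩ hvW x hx hxv y hy
      rw [Finset.singleton_subset_iff] at hvW
      rw [Finset.mem_singleton] at hxv
      have hxs : (nb F W x).card = Fintype.card α - k := by
        rcases h1 W hWF x hx with h | h
        · exfalso
          have h5 := h2 W hWF
          have h6 : ({x, v} : Finset α) ⊆ W.filter (fun x => (nb F W x).card = 0) := by
            intro z hz
            rw [Finset.mem_insert, Finset.mem_singleton] at hz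
            rcases hz with rfl | rfl
            · exact Finset.mem_filter.mpr ⟨hx, h⟩
            · exact Finset.mem_filter.mpr ⟨hvW, hW0⟩
          have h7 := Finset.card_le_card h6
          rw [Finset.card_pair hxv] at h7
          omega
        · exact h
      have hW' : insert y (W.erase x) ∈ F := nb_full hF hWF hxs y hy
      refine ⟨hW', ?_⟩
      have hvW' : v ∈ insert y (W.erase x) :=
        Finset.mem_insert_of_mem (Finset.mem_erase.mpr ⟨fun h => hxv h.symm, hvW⟩)
      rcases h1 _ hW' v hvW' with h | h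
      · exact h
      · exfalso
        have hyx : y ≠ x := fun h => hy (h ▸ hx)
        have hyv : y ≠ v := fun h => hy (h ▸ hvW)
        have hx' : x ∉ insert y (W.erase x) := by
          rw [Finset.mem_insert, not_or]
          exact ⟨fun h => hyx h.symm, Finset.notMem_erase _ _⟩
        have h8 := nb_full hF hW' h x hx'
        have h9 : insert x ((insert y (W.erase x)).erase v) = insert y (W.erase v) := by
          ext z
          simp only [Finset.mem_insert, Finset.mem_erase]
          constructor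
          · rintro (h | ⟨h1, h | ⟨h2, h3⟩⟩)
            · exact Or.inr ⟨by rw [h]; exact hxv, h ▸ hx⟩
            · exact Or.inl h
            · exact Or.inr ⟨h1, h3⟩
          · rintro (h | ⟨h1, h2⟩)
            · exact Or.inr ⟨by rw [h]; exact hyv, Or.inl h⟩
            · by_cases hzx : z = x
              · exact Or.inl hzx
              · exact Or.inr ⟨h1, Or.inr ⟨hzx, h2⟩⟩
        rw [h9] at h8
        have h10 : y ∈ nb F W v := mem_nb.mpr ⟨hy, h8⟩
        rw [Finset.card_eq_zero] at hW0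
        rw [hW0] at h10
        simp at h10
    -- the star is contained in F
    refine ⟨v, ?_⟩
    have hstar : ((powersetCard k (univ : Finset α)).filter (fun W => v ∈ W)) ⊆ F := by
      intro W hW
      rw [Finset.mem_filter, Finset.mem_powersetCard] at hW
      exact (hcl W hW.1.2 (by simpa using hW.2)).1
    have hstarcard : ((powersetCard k (univ : Finset α)).filter (fun W => v ∈ W)).card
        = (Fintype.card α - 1).choose (k - 1) := by
      have e1 : ((powersetCard k (univ : Finset α)).filter (fun W => v ∈ W))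
          = (powersetCard (k-1) ((univ : Finset α).erase v)).image (insert v) := by
        ext W
        simp only [Finset.mem_filter, Finset.mem_powersetCard, Finset.mem_image, Finset.subset_univ,
          true_and]
        constructor
        · rintro ⟨hW, hvW⟩
          refine ⟨W.erase v, ⟨Finset.erase_subset_erase _ (Finset.subset_univ _), ?_⟩, Finset.insert_erase hvW⟩
          rw [Finset.card_erase_of_mem hvW, hW]
        · rintro ⟨P, ⟨hP, hPc⟩, rfl⟩
          have hvP : v ∉ P := fun h => (Finset.mem_erase.mp (hP h)).1 rfl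
          refine ⟨?_, Finset.mem_insert_self _ _⟩
          rw [Finset.card_insert_of_notMem hvP, hPc]; omega
      rw [e1, Finset.card_image_of_injOn, Finset.card_powersetCard, Finset.card_erase_of_mem (Finset.mem_univ _),
        Finset.card_univ]
      intro P hP P' hP' hPP
      have hvP : v ∉ P := fun h => (Finset.mem_erase.mp ((Finset.mem_powersetCard.mp (Finset.mem_coe.mp hP)).1 h)).1 rfl
      have hvP' : v ∉ P' := fun h => (Finset.mem_erase.mp ((Finset.mem_powersetCard.mp (Finset.mem_coe.mp hP')).1 h)).1 rfl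
      rw [← Finset.erase_insert hvP, ← Finset.erase_insert hvP', hPP]
    have heq := Finset.eq_of_subset_of_card_le hstar (by rw [hstarcard, hcard])
    intro B hB
    rw [← heq] at hB
    exact (Finset.mem_filter.mp hB).2



/-! ### binomial inequalities -/

lemma choose_lt_succ {m j : ℕ} (hj : 1 ≤ j) (hjm : j ≤ m + 1) : m.choose j < (m + 1).choose j := by
  obtain ⟨j', rfl⟩ : ∃ j', j = j' + 1 := ⟨j - 1, by omega⟩
  have h1 := Nat.choose_succ_succ m j'
  simp only [Nat.succ_eq_add_one] at h1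
  have h2 : 0 < m.choose j' := Nat.choose_pos (by omega)
  omega

lemma choose_lt_of_lt {m m' j : ℕ} (hj : 1 ≤ j) (hjm : j ≤ m + 1) (h : m < m') :
    m.choose j < m'.choose j :=
  (choose_lt_succ hj hjm).trans_le (Nat.choose_le_choose j h)

lemma choose_drop (k d p : ℕ) (hp : p ≤ k) (hd : 1 ≤ d) :
    k.choose d ≤ (k - p).choose d + p * (k - 1).choose (d - 1) := by
  induction p with
  | zero => simp
  | succ p ih =>
    have h1 := ih (by omega)
    obtain ⟨d', rfl⟩ : ∃ d', d = d' + 1 := ⟨d - 1, by omega⟩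
    obtain ⟨e, he⟩ : ∃ e, k - p = e + 1 := ⟨k - p - 1, by omega⟩
    have h2 : k - (p + 1) = e := by omega
    rw [he] at h1
    rw [h2]
    have h3 := Nat.choose_succ_succ e d'
    simp only [Nat.succ_eq_add_one] at h3
    have h4 : e.choose d' ≤ (k - 1).choose (d' + 1 - 1) := by
      simp only [Nat.add_sub_cancel]
      exact Nat.choose_le_choose d' (by omega)
    have h5 : (p + 1) * (k - 1).choose (d' + 1 - 1) = p * (k - 1).choose (d' + 1 - 1)
      + (k - 1).choose (d' + 1 - 1) := by ring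
    omega

lemma choose_drop_lt {k d p : ℕ} (hp2 : 2 ≤ p) (hp : p ≤ k) (hd : 2 ≤ d) (hdk : d ≤ k) :
    k.choose d < (k - p).choose d + p * (k - 1).choose (d - 1) := by
  obtain ⟨d', rfl⟩ : ∃ d', d = d' + 1 := ⟨d - 1, by omega⟩
  obtain ⟨k', rfl⟩ : ∃ k', k = k' + 1 := ⟨k - 1, by omega⟩
  obtain ⟨p', rfl⟩ : ∃ p', p = p' + 1 := ⟨p - 1, by omega⟩
  have h1 := choose_drop k' (d' + 1) p' (by omega) (by omega)
  have h2 : k' + 1 - (p' + 1) = k' - p' := by omega
  rw [h2]
  simp only [Nat.add_sub_cancel] at h1 ⊢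
  have h3 := Nat.choose_succ_succ k' d'
  simp only [Nat.succ_eq_add_one] at h3
  have h4 : (k' - 1).choose d' < k'.choose d' :=
    choose_lt_of_lt (by omega) (by omega) (by omega)
  have h5 : p' * (k' - 1).choose d' < p' * k'.choose d' :=
    Nat.mul_lt_mul_of_pos_left h4 (by omega)
  have h6 : (p' + 1) * k'.choose d' = p' * k'.choose d' + k'.choose d' := by ring
  omega

lemma d_mul_choose {k d : ℕ} (hk : 1 ≤ k) (hd : 1 ≤ d) :
    d * k.choose d = k * (k - 1).choose (d - 1) := by
  obtain ⟨d', rfl⟩ : ∃ d', d = d' + 1 := ⟨d - 1, by omega⟩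
  obtain ⟨k', rfl⟩ : ∃ k', k = k' + 1 := ⟨k - 1, by omega⟩
  have := Nat.add_one_mul_choose_eq k' d'
  simp only [Nat.add_sub_cancel]
  rw [this]; ring

lemma k_mul_choose_le {k q d : ℕ} (hq : q ≤ k) (hd : 1 ≤ d) :
    k * q.choose d ≤ q * k.choose d := by
  rcases Nat.eq_zero_or_pos q with rfl | hq0
  · rw [Nat.choose_eq_zero_of_lt (by omega)]; simp
  · have h1 := d_mul_choose (k := q) (d := d) hq0 hd
    have h2 := d_mul_choose (k := k) (d := d) (by omega) hd
    have h3 : (q - 1).choose (d - 1) ≤ (k - 1).choose (d - 1) := Nat.choose_le_choose _ (by omega)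
    have h4 : d * (k * q.choose d) ≤ d * (q * k.choose d) := by
      calc d * (k * q.choose d) = k * (d * q.choose d) := by ring
        _ = k * (q * (q - 1).choose (d - 1)) := by rw [h1]
        _ ≤ k * (q * (k - 1).choose (d - 1)) := by gcongr
        _ = q * (k * (k - 1).choose (d - 1)) := by ring
        _ = q * (d * k.choose d) := by rw [h2]
        _ = d * (q * k.choose d) := by ring
    exact Nat.le_of_mul_le_mul_left h4 (by omega)

lemma k_mul_choose_lt {k q d : ℕ} (hq : q < k) (hd : 2 ≤ d) (hdq : d ≤ q) :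
    k * q.choose d < q * k.choose d := by
  have h1 := d_mul_choose (k := q) (d := d) (by omega) (by omega)
  have h2 := d_mul_choose (k := k) (d := d) (by omega) (by omega)
  have h3 : (q - 1).choose (d - 1) < (k - 1).choose (d - 1) :=
    choose_lt_of_lt (by omega) (by omega) (by omega)
  have h4 : d * (k * q.choose d) < d * (q * k.choose d) := by
    calc d * (k * q.choose d) = k * (d * q.choose d) := by ring
      _ = k * (q * (q - 1).choose (d - 1)) := by rw [h1]
      _ < k * (q * (k - 1).choose (d - 1)) := by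
        apply Nat.mul_lt_mul_of_pos_left _ (by omega)
        exact Nat.mul_lt_mul_of_pos_left h3 (by omega)
      _ = q * (k * (k - 1).choose (d - 1)) := by ring
      _ = q * (d * k.choose d) := by rw [h2]
      _ = d * (q * k.choose d) := by ring
  exact Nat.lt_of_mul_lt_mul_left h4


/-- elements with a Johnson neighbour -/
def Ns (F : Finset (Finset α)) (A : Finset α) : Finset α := A.filter (fun x => (nb F A x).card ≠ 0)
/-- elements with exactly one Johnson neighbour -/
def Qs (F : Finset (Finset α)) (A : Finset α) : Finset α := A.filter (fun x => (nb F A x).card = 1)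
/-- elements without Johnson neighbour -/
def Ps (F : Finset (Finset α)) (A : Finset α) : Finset α := A.filter (fun x => (nb F A x).card = 0)
/-- elements with at least two Johnson neighbours -/
def Rs (F : Finset (Finset α)) (A : Finset α) : Finset α := A.filter (fun x => 2 ≤ (nb F A x).card)
/-- weird sets -/
def Ws (F : Finset (Finset α)) (d : ℕ) (A : Finset α) : Finset (Finset α) :=
  (powersetCard d (Ns F A)).filter (fun X => ∃ E ∈ F, E ∩ A = X)

lemma gg_ge (F : Finset (Finset α)) (d : ℕ) (A : Finset α) :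
    (Ns F A).card.choose d ≤ gg F d A + (Ws F d A).card := by
  rw [← Finset.card_powersetCard]
  have h1 : powersetCard d (Ns F A) ⊆
      ((powersetCard d A).filter (fun X => ∀ E ∈ F, E ∩ A ≠ X)) ∪ Ws F d A := by
    intro X hX
    rw [Finset.mem_union]
    by_cases h : ∃ E ∈ F, E ∩ A = X
    · exact Or.inr (Finset.mem_filter.mpr ⟨hX, h⟩)
    · left
      push Not at h
      rw [Finset.mem_filter, Finset.mem_powersetCard]
      rw [Finset.mem_powersetCard] at hX
      exact ⟨⟨hX.1.trans (Finset.filter_subset _ _), hX.2⟩, h⟩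
  exact (Finset.card_le_card h1).trans (Finset.card_union_le _ _)

lemma card_Ps_add_Ns (F : Finset (Finset α)) (A : Finset α) :
    (Ps F A).card + (Ns F A).card = A.card := by
  unfold Ps Ns
  exact Finset.card_filter_add_card_filter_not _

lemma Ws_spec {d k : ℕ} {F : Finset (Finset α)} (hF : ∀ A ∈ F, A.card = k) (hd : 2 ≤ d) (hdk : d < k)
    (hns : ¬ HasSimplex d F) {A : Finset α} (hA : A ∈ F) {X : Finset α} (hX : X ∈ Ws F d A) :
    X ⊆ A ∧ X.card = d ∧ ∃ E ∈ F, E ∩ A = X ∧ ∃ y0 ∈ E, ∀ x ∈ X, nb F A x = {y0} := by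
  unfold Ws at hX
  rw [Finset.mem_filter, Finset.mem_powersetCard] at hX
  obtain ⟨⟨hXN, hXc⟩, E, hE, hEA⟩ := hX
  have hXA : X ⊆ A := hXN.trans (Finset.filter_subset _ _)
  refine ⟨hXA, hXc, E, hE, hEA, ?_⟩
  refine weird hF hd hdk hA hXA hXc ?_ hE hEA hns
  intro x hx
  have := (Finset.mem_filter.mp (hXN hx)).2
  exact Finset.card_pos.mp (Nat.pos_of_ne_zero this)

lemma Ws_sub {d k : ℕ} {F : Finset (Finset α)} (hF : ∀ A ∈ F, A.card = k) (hd : 2 ≤ d) (hdk : d < k)
    (hns : ¬ HasSimplex d F) {A : Finset α} (hA : A ∈ F) :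
    Ws F d A ⊆ powersetCard d (Qs F A) := by
  intro X hX
  obtain ⟨h1, h2, E, hE, hEA, y0, hy0, h3⟩ := Ws_spec hF hd hdk hns hA hX
  rw [Finset.mem_powersetCard]
  refine ⟨fun x hx => ?_, h2⟩
  unfold Qs
  rw [Finset.mem_filter]
  exact ⟨h1 hx, by rw [h3 x hx, Finset.card_singleton]⟩

lemma Ws_card_lt {d k : ℕ} {F : Finset (Finset α)} (hF : ∀ A ∈ F, A.card = k) (hd : 2 ≤ d)
    (hdk : d + 2 ≤ k) (hns : ¬ HasSimplex d F) {A : Finset α} (hA : A ∈ F) :
    (Ws F d A).card < k.choose d := by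
  by_contra hcon
  push Not at hcon
  have hsub : Ws F d A ⊆ powersetCard d A :=
    (Ws_sub hF hd (by omega) hns hA).trans (Finset.powersetCard_mono (Finset.filter_subset _ _))
  have heq : Ws F d A = powersetCard d A := by
    apply Finset.eq_of_subset_of_card_le hsub
    rw [Finset.card_powersetCard, hF A hA]
    exact hcon
  -- choose I, P, P'
  have hAk := hF A hA
  obtain ⟨I, hIA, hIc⟩ := Finset.exists_subset_card_eq (s := A) (n := d - 2) (by omega)
  have hAI : (A \ I).card = k - (d - 2) := by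
    rw [Finset.card_sdiff_of_subset hIA, hAk, hIc]
  obtain ⟨P, hPA, hPc⟩ := Finset.exists_subset_card_eq (s := A \ I) (n := 2) (by omega)
  have hAIP : ((A \ I) \ P).card = k - (d - 2) - 2 := by
    rw [Finset.card_sdiff_of_subset hPA, hAI, hPc]
  obtain ⟨P', hPA', hPc'⟩ := Finset.exists_subset_card_eq (s := (A \ I) \ P) (n := 2) (by omega)
  have hIP : Disjoint I P := by
    rw [Finset.disjoint_left]
    intro z hz hzP
    exact (Finset.mem_sdiff.mp (hPA hzP)).2 hz
  have hIP' : Disjoint I P' := by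
    rw [Finset.disjoint_left]
    intro z hz hzP
    exact (Finset.mem_sdiff.mp (Finset.mem_sdiff.mp (hPA' hzP)).1).2 hz
  have hPP' : Disjoint P P' := by
    rw [Finset.disjoint_left]
    intro z hz hzP
    exact (Finset.mem_sdiff.mp (hPA' hzP)).2 hz
  have hXsub : I ∪ P ⊆ A := Finset.union_subset hIA (hPA.trans Finset.sdiff_subset)
  have hXsub' : I ∪ P' ⊆ A := Finset.union_subset hIA ((hPA'.trans Finset.sdiff_subset).trans Finset.sdiff_subset)
  have hXc : (I ∪ P).card = d := by rw [Finset.card_union_of_disjoint hIP]; omega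
  have hXc' : (I ∪ P').card = d := by rw [Finset.card_union_of_disjoint hIP']; omega
  have hXX : (I ∪ P) ∩ (I ∪ P') = I := by
    ext z
    rw [Finset.mem_inter, Finset.mem_union, Finset.mem_union]
    constructor
    · rintro ⟨h1 | h1, h2 | h2⟩
      · exact h1
      · exact h1
      · exact h2
      · exact absurd h2 (Finset.disjoint_left.mp hPP' h1)
    · intro h; exact ⟨Or.inl h, Or.inl h⟩
  have hX : I ∪ P ∈ Ws F d A := by rw [heq, Finset.mem_powersetCard]; exact ⟨hXsub, hXc⟩
  have hX' : I ∪ P' ∈ Ws F d A := by rw [heq, Finset.mem_powersetCard]; exact ⟨hXsub', hXc'⟩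
  obtain ⟨-, -, E, hE, hEA, y0, hy0, h3⟩ := Ws_spec hF hd (by omega) hns hA hX
  obtain ⟨-, -, E', hE', hEA', y1, hy1, h3'⟩ := Ws_spec hF hd (by omega) hns hA hX'
  -- y0 = y1
  have hy : y0 = y1 := by
    obtain ⟨a, ha⟩ : P.Nonempty := Finset.card_pos.mp (by omega)
    obtain ⟨b, hb⟩ : P'.Nonempty := Finset.card_pos.mp (by omega)
    have hab : a ≠ b := fun h => Finset.disjoint_left.mp hPP' ha (h ▸ hb)
    have haA : a ∈ A := hXsub (Finset.mem_union_right _ ha)
    have hbA : b ∈ A := hXsub' (Finset.mem_union_right _ hb)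
    have hpair : ({a, b} : Finset α) ⊆ A := by
      intro z hz
      rw [Finset.mem_insert, Finset.mem_singleton] at hz
      rcases hz with rfl | rfl
      · exact haA
      · exact hbA
    obtain ⟨X2, h21, h22, h23⟩ := Finset.exists_subsuperset_card_eq (s := {a, b}) (t := A) (n := d) hpair
      (by rw [Finset.card_pair hab]; exact hd) (by omega)
    have hX2 : X2 ∈ Ws F d A := by rw [heq, Finset.mem_powersetCard]; exact ⟨h22, h23⟩
    obtain ⟨-, -, E2, hE2, hEA2, y2, hy2, h32⟩ := Ws_spec hF hd (by omega) hns hA hX2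
    have e1 := h32 a (h21 (by simp))
    have e2 := h32 b (h21 (by simp))
    rw [h3 a (Finset.mem_union_right _ ha)] at e1
    rw [h3' b (Finset.mem_union_right _ hb)] at e2
    rw [Finset.singleton_inj] at e1 e2
    rw [e1, e2]
  subst hy
  have hy0A : y0 ∉ A := by
    obtain ⟨a, ha⟩ : P.Nonempty := Finset.card_pos.mp (by omega)
    have e1 := h3 a (Finset.mem_union_right _ ha)
    have : y0 ∈ nb F A a := by rw [e1]; exact Finset.mem_singleton_self _
    exact (mem_nb.mp this).1
  refine hns (key2 hF (by omega) hA hXsub hXc hXsub' hXc' (by rw [hXX]; omega) hy0A ?_ hE hEA hE' hEA' hy0 hy1)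
  intro x hx
  rw [hXX] at hx
  have e1 := h3 x (Finset.mem_union_left _ hx)
  have : y0 ∈ nb F A x := by rw [e1]; exact Finset.mem_singleton_self _
  exact (mem_nb.mp this).2



lemma Ws2_inter {k : ℕ} {F : Finset (Finset α)} (hF : ∀ A ∈ F, A.card = k) (hk : 3 ≤ k)
    (hns : ¬ HasSimplex 2 F) {A : Finset α} (hA : A ∈ F) {X X' : Finset α}
    (hX : X ∈ Ws F 2 A) (hX' : X' ∈ Ws F 2 A) {a b : α} (ha : a ∈ X) (hb : b ∈ X')
    (hab : nb F A a = nb F A b) : (X ∩ X').Nonempty := by
  by_contra hcon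
  rw [Finset.not_nonempty_iff_eq_empty] at hcon
  obtain ⟨hXA, hXc, E, hE, hEA, y0, hy0, h3⟩ := Ws_spec hF le_rfl (by omega) hns hA hX
  obtain ⟨hXA', hXc', E', hE', hEA', y1, hy1, h3'⟩ := Ws_spec hF le_rfl (by omega) hns hA hX'
  have h4 := h3 a ha
  rw [hab, h3' b hb, Finset.singleton_inj] at h4
  subst h4
  have hyA : y1 ∉ A := by
    have : y1 ∈ nb F A a := by rw [h3 a ha]; exact Finset.mem_singleton_self _
    exact (mem_nb.mp this).1
  refine hns (key2 hF (by omega) hA hXA hXc hXA' hXc' (by rw [hcon]; rfl) hyA ?_ hE hEA hE' hEA' hy0 hy1)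
  intro x hx
  rw [hcon] at hx
  simp at hx

/-- auxiliary: if there is another weird pair through `a`, at most two through `b` -/
lemma Ws2_deg {k : ℕ} {F : Finset (Finset α)} (hF : ∀ A ∈ F, A.card = k) (hk : 3 ≤ k)
    (hns : ¬ HasSimplex 2 F) {A : Finset α} (hA : A ∈ F) {X : Finset α}
    (hX : X ∈ Ws F 2 A) {a b : α} (ha : a ∈ X) (hb : b ∈ X) (hab : a ≠ b)
    (hdeg : 2 ≤ ((Ws F 2 A).filter (fun Y => a ∈ Y)).card) :
    ((Ws F 2 A).filter (fun Y => b ∈ Y)).card ≤ 2 := by
  -- another pair X1 through a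
  obtain ⟨X1, hX1, hne⟩ : ∃ X1 ∈ (Ws F 2 A).filter (fun Y => a ∈ Y), X1 ≠ X := by
    by_contra hcon
    push Not at hcon
    have : (Ws F 2 A).filter (fun Y => a ∈ Y) ⊆ {X} := fun Y hY => Finset.mem_singleton.mpr (hcon Y hY)
    have := Finset.card_le_card this
    rw [Finset.card_singleton] at this
    omega
  rw [Finset.mem_filter] at hX1
  obtain ⟨hX1W, haX1⟩ := hX1
  have hpair : ∀ Y ∈ Ws F 2 A, ∀ u ∈ Y, ∀ v ∈ Y, u ≠ v → Y = {u, v} := by
    intro Y hY u hu v hv huv
    obtain ⟨-, hc, -⟩ := Ws_spec hF le_rfl (by omega) hns hA hY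
    symm
    apply Finset.eq_of_subset_of_card_le
    · intro z hz
      rw [Finset.mem_insert, Finset.mem_singleton] at hz
      rcases hz with rfl | rfl
      · exact hu
      · exact hv
    · rw [hc, Finset.card_pair huv]
  have hXab : X = {a, b} := hpair X hX a ha b hb hab
  obtain ⟨a', ha'X1, ha'a⟩ : ∃ a' ∈ X1, a' ≠ a := by
    obtain ⟨-, hc, -⟩ := Ws_spec hF le_rfl (by omega) hns hA hX1W
    by_contra hcon
    push Not at hcon
    have : X1 ⊆ {a} := fun Y hY => Finset.mem_singleton.mpr (hcon Y hY)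
    have := Finset.card_le_card this
    rw [Finset.card_singleton] at this
    omega
  have hX1a : X1 = {a, a'} := hpair X1 hX1W a haX1 a' ha'X1 ha'a.symm
  have ha'b : a' ≠ b := by
    intro h
    apply hne
    rw [hX1a, hXab, h]
  have hnbab : nb F A a = nb F A b := by
    obtain ⟨-, -, -, -, -, y, -, h⟩ := Ws_spec hF le_rfl (by omega) hns hA hX
    rw [h a ha, h b hb]
  have hsub : (Ws F 2 A).filter (fun Y => b ∈ Y) ⊆ {X, {b, a'}} := by
    intro Y hY
    rw [Finset.mem_filter] at hY
    rw [Finset.mem_insert, Finset.mem_singleton]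
    by_cases hYX : Y = X
    · exact Or.inl hYX
    · right
      have haY : a ∉ Y := by
        intro h
        apply hYX
        rw [hpair Y hY.1 a h b hY.2 hab, hXab]
      obtain ⟨z, hz⟩ := Ws2_inter hF hk hns hA hX1W hY.1 haX1 hY.2 hnbab
      rw [Finset.mem_inter] at hz
      have hza : z = a' := by
        have hz1 := hz.1
        rw [hX1a, Finset.mem_insert, Finset.mem_singleton] at hz1
        rcases hz1 with h | h
        · exact absurd (h ▸ hz.2) haY
        · exact h
      exact hpair Y hY.1 b hY.2 a' (hza ▸ hz.2) ha'b.symm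
  exact (Finset.card_le_card hsub).trans Finset.card_le_two

lemma Ws2_card_le {k : ℕ} {F : Finset (Finset α)} (hF : ∀ A ∈ F, A.card = k) (hk : 3 ≤ k)
    (hns : ¬ HasSimplex 2 F) {A : Finset α} (hA : A ∈ F) :
    (Ws F 2 A).card ≤ (Qs F A).card := by
  have hmain : ∀ X ∈ Ws F 2 A, (1 : ℚ) ≤
      ∑ x ∈ X, 1 / (((Ws F 2 A).filter (fun Y => x ∈ Y)).card : ℚ) := by
    intro X hX
    obtain ⟨-, hXc, -⟩ := Ws_spec hF le_rfl (by omega) hns hA hX
    obtain ⟨a, b, hab, hXab⟩ := Finset.card_eq_two.mp hXc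
    have ha : a ∈ X := by rw [hXab]; simp
    have hb : b ∈ X := by rw [hXab]; simp
    have h1 := Ws2_deg hF hk hns hA hX ha hb hab
    have h2 := Ws2_deg hF hk hns hA hX hb ha hab.symm
    have ha0 : 0 < ((Ws F 2 A).filter (fun Y => a ∈ Y)).card :=
      Finset.card_pos.mpr ⟨X, Finset.mem_filter.mpr ⟨hX, ha⟩⟩
    have hb0 : 0 < ((Ws F 2 A).filter (fun Y => b ∈ Y)).card :=
      Finset.card_pos.mpr ⟨X, Finset.mem_filter.mpr ⟨hX, hb⟩⟩
    rw [hXab, Finset.sum_pair hab]
    generalize ((Ws F 2 A).filter (fun Y => a ∈ Y)).card = u at *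
    generalize ((Ws F 2 A).filter (fun Y => b ∈ Y)).card = v at *
    have hv0 : (0:ℚ) < v := by exact_mod_cast hb0
    have hu0 : (0:ℚ) < u := by exact_mod_cast ha0
    by_cases hu1 : u = 1
    · subst hu1
      have : (0:ℚ) ≤ 1 / v := by positivity
      push_cast
      linarith
    · by_cases hv1 : v = 1
      · subst hv1
        have : (0:ℚ) ≤ 1 / u := by positivity
        push_cast
        linarith
      · have hu2 : u = 2 := by omega
        have hv2 : v = 2 := by omega
        subst hu2; subst hv2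
        norm_num
  have h1 : ((Ws F 2 A).card : ℚ) ≤ ∑ X ∈ Ws F 2 A,
      ∑ x ∈ X, 1 / (((Ws F 2 A).filter (fun Y => x ∈ Y)).card : ℚ) := by
    calc ((Ws F 2 A).card : ℚ) = ∑ X ∈ Ws F 2 A, (1:ℚ) := by simp
      _ ≤ _ := Finset.sum_le_sum hmain
  have h2 : ∑ X ∈ Ws F 2 A, ∑ x ∈ X, 1 / (((Ws F 2 A).filter (fun Y => x ∈ Y)).card : ℚ)
      = ∑ x ∈ Qs F A, ∑ _X ∈ (Ws F 2 A).filter (fun Y => x ∈ Y),
        1 / (((Ws F 2 A).filter (fun Y => x ∈ Y)).card : ℚ) := by
    apply Finset.sum_comm'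
    intro X x
    rw [Finset.mem_filter]
    constructor
    · rintro ⟨h1, h2⟩
      have := Ws_sub hF le_rfl (by omega) hns hA h1
      exact ⟨⟨h1, h2⟩, (Finset.mem_powersetCard.mp this).1 h2⟩
    · rintro ⟨h1, _⟩
      exact h1
  have h3 : ∑ x ∈ Qs F A, ∑ _X ∈ (Ws F 2 A).filter (fun Y => x ∈ Y),
        1 / (((Ws F 2 A).filter (fun Y => x ∈ Y)).card : ℚ) ≤ ∑ x ∈ Qs F A, (1:ℚ) := by
    apply Finset.sum_le_sum
    intro x _
    rw [Finset.sum_const, nsmul_eq_mul, mul_one_div]
    exact div_self_le_one _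
  rw [h2] at h1
  have h4 := h1.trans h3
  simp only [Finset.sum_const, nsmul_eq_mul, mul_one] at h4
  exact_mod_cast h4

/-- weighted count -/
noncomputable def hh (s : ℕ) (F : Finset (Finset α)) (A : Finset α) : ℚ :=
  ∑ x ∈ A, ((s : ℚ) - (nb F A x).card) / ((nb F A x).card + 1)

lemma nb_card_le {k : ℕ} {F : Finset (Finset α)} (hF : ∀ A ∈ F, A.card = k) {A : Finset α} (hA : A ∈ F)
    (x : α) : (nb F A x).card ≤ Fintype.card α - k := by
  rw [← hF A hA, ← Finset.card_compl]
  apply Finset.card_le_card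
  intro y hy
  rw [Finset.mem_compl]
  exact (mem_nb.mp hy).1

lemma hh_split (s : ℕ) (F : Finset (Finset α)) (A : Finset α) :
    hh s F A = (Ps F A).card * s + (Qs F A).card * ((s - 1) / 2)
      + ∑ x ∈ Rs F A, ((s : ℚ) - (nb F A x).card) / ((nb F A x).card + 1) := by
  have h1 : ∀ x ∈ A, ((s : ℚ) - (nb F A x).card) / ((nb F A x).card + 1)
      = (if (nb F A x).card = 0 then (s : ℚ) else 0) + (if (nb F A x).card = 1 then ((s - 1) / 2 : ℚ) else 0)
        + (if 2 ≤ (nb F A x).card then ((s : ℚ) - (nb F A x).card) / ((nb F A x).card + 1) else 0) := by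
    intro x _
    rcases Nat.lt_or_ge (nb F A x).card 2 with h | h
    · interval_cases h2 : (nb F A x).card
      · simp
      · norm_num
    · have e1 : (nb F A x).card ≠ 0 := by omega
      have e2 : (nb F A x).card ≠ 1 := by omega
      simp [e1, e2, h]
  unfold hh
  rw [Finset.sum_congr rfl h1, Finset.sum_add_distrib, Finset.sum_add_distrib]
  congr 1
  · congr 1
    · rw [← Finset.sum_filter, Finset.sum_const, nsmul_eq_mul]; rfl
    · rw [← Finset.sum_filter, Finset.sum_const, nsmul_eq_mul]; rfl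
  · rw [← Finset.sum_filter]; rfl

lemma Rs_nonneg {k : ℕ} {F : Finset (Finset α)} (hF : ∀ A ∈ F, A.card = k) {A : Finset α} (hA : A ∈ F) :
    0 ≤ ∑ x ∈ Rs F A, (((Fintype.card α - k : ℕ) : ℚ) - (nb F A x).card) / ((nb F A x).card + 1) := by
  apply Finset.sum_nonneg
  intro x _
  have h1 : ((nb F A x).card : ℚ) ≤ ((Fintype.card α - k : ℕ) : ℚ) := by exact_mod_cast nb_card_le hF hA x
  apply div_nonneg
  · linarith
  · positivity

lemma Rs_zero {k : ℕ} {F : Finset (Finset α)} (hF : ∀ A ∈ F, A.card = k) {A : Finset α} (hA : A ∈ F)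
    (h : ∑ x ∈ Rs F A, (((Fintype.card α - k : ℕ) : ℚ) - (nb F A x).card) / ((nb F A x).card + 1) ≤ 0)
    {x : α} (hx : x ∈ Rs F A) : (nb F A x).card = Fintype.card α - k := by
  have h0 : ∀ x ∈ Rs F A, 0 ≤ (((Fintype.card α - k : ℕ) : ℚ) - (nb F A x).card) / ((nb F A x).card + 1) := by
    intro x _
    have h1 : ((nb F A x).card : ℚ) ≤ ((Fintype.card α - k : ℕ) : ℚ) := by exact_mod_cast nb_card_le hF hA x
    apply div_nonneg
    · linarith
    · positivity
  have h2 := (Finset.sum_eq_zero_iff_of_nonneg h0).mp (le_antisymm h (Rs_nonneg hF hA)) x hx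
  have h3 : ((nb F A x).card : ℚ) + 1 ≠ 0 := by positivity
  rw [div_eq_zero_iff] at h2
  rcases h2 with h2 | h2
  · have : ((nb F A x).card : ℚ) = ((Fintype.card α - k : ℕ) : ℚ) := by linarith
    exact_mod_cast this
  · exact absurd h2 h3

lemma local_of {k : ℕ} {F : Finset (Finset α)} (hF : ∀ A ∈ F, A.card = k) {A : Finset α} (hA : A ∈ F)
    (hQ : (Qs F A).card = 0)
    (h : ∑ x ∈ Rs F A, (((Fintype.card α - k : ℕ) : ℚ) - (nb F A x).card) / ((nb F A x).card + 1) ≤ 0) :
    ∀ x ∈ A, (nb F A x).card = 0 ∨ (nb F A x).card = Fintype.card α - k := by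
  intro x hx
  rcases Nat.lt_or_ge (nb F A x).card 2 with h' | h'
  · interval_cases h2 : (nb F A x).card
    · exact Or.inl rfl
    · exfalso
      have : x ∈ Qs F A := Finset.mem_filter.mpr ⟨hx, h2⟩
      rw [Finset.card_eq_zero] at hQ
      rw [hQ] at this
      simp at this
  · right
    exact Rs_zero hF hA h (Finset.mem_filter.mpr ⟨hx, h'⟩)

/-- the local inequality -/
lemma phi_ge {d k : ℕ} {F : Finset (Finset α)} (hF : ∀ A ∈ F, A.card = k) (hd : 2 ≤ d) (hdk : d < k)
    (hs : 2 ≤ Fintype.card α - k) {A : Finset α} (hA : A ∈ F)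
    (hw : 0 < (Ws F d A).card → 2 * k * (Fintype.card α - k) * (Ws F d A).card
      < d * (Qs F A).card * (Fintype.card α - k - 1) * k.choose d) :
    1 ≤ (gg F d A : ℚ) / k.choose d + d / (k * (Fintype.card α - k : ℕ)) * hh (Fintype.card α - k) F A ∧
    ((gg F d A : ℚ) / k.choose d + d / (k * (Fintype.card α - k : ℕ)) * hh (Fintype.card α - k) F A ≤ 1 →
      (∀ x ∈ A, (nb F A x).card = 0 ∨ (nb F A x).card = Fintype.card α - k) ∧ (Ps F A).card ≤ 1) := by
  set s := Fintype.card α - k with hsdef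
  set p := (Ps F A).card with hp
  set q := (Qs F A).card with hq
  set w := (Ws F d A).card with hwdef
  set C := k.choose d with hC
  set R := ∑ x ∈ Rs F A, ((s : ℚ) - (nb F A x).card) / ((nb F A x).card + 1) with hR
  have hR0 : 0 ≤ R := Rs_nonneg hF hA
  have hsplit : hh s F A = p * s + q * ((s - 1) / 2) + R := hh_split s F A
  have hpk : p + (Ns F A).card = k := by rw [← hF A hA]; exact card_Ps_add_Ns F A
  have hgg := gg_ge F d A
  have hN : (Ns F A).card = k - p := by omega
  rw [hN] at hgg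
  have hC0 : 0 < C := Nat.choose_pos (by omega)
  have hdm := d_mul_choose (k := k) (d := d) (by omega) (by omega)
  have hdrop := choose_drop k d p (by omega) (by omega)
  -- rational versions
  have hk0 : (0:ℚ) < k := by exact_mod_cast (by omega : 0 < k)
  have hs0 : (0:ℚ) < s := by exact_mod_cast (by omega : 0 < s)
  have hs1 : (1:ℚ) ≤ (s:ℚ) - 1 := by
    have : (2:ℚ) ≤ s := by exact_mod_cast hs
    linarith
  have hC0' : (0:ℚ) < C := by exact_mod_cast hC0
  have hd0 : (0:ℚ) < d := by exact_mod_cast (by omega : 0 < d)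
  have hgg' : ((k - p).choose d : ℚ) ≤ gg F d A + w := by exact_mod_cast hgg
  have hdm' : (d : ℚ) * C = k * ((k - 1).choose (d - 1) : ℕ) := by exact_mod_cast hdm
  have hdrop' : (C : ℚ) ≤ (k - p).choose d + p * ((k - 1).choose (d - 1) : ℕ) := by exact_mod_cast hdrop
  -- phi rewriting
  have hphi : (gg F d A : ℚ) / C + d / (k * (s : ℕ)) * hh s F A
      = (gg F d A : ℚ) / C + d * p / k + d * q * (s - 1) / (2 * k * s) + d * R / (k * s) := by
    rw [hsplit]
    field_simp
    ring
  have hp1 : (d : ℚ) * p / k = p * ((k - 1).choose (d - 1) : ℕ) / C := by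
    rw [div_eq_div_iff hk0.ne' hC0'.ne']
    linear_combination (p : ℚ) * hdm'
  have hmain1 : 1 + ((((k - p).choose d : ℚ) + p * ((k - 1).choose (d - 1) : ℕ) - C) / C)
      + ((d * q * (s - 1) / (2 * k * s)) - w / C) + d * R / (k * s)
      ≤ (gg F d A : ℚ) / C + d / (k * (s : ℕ)) * hh s F A := by
    rw [hphi, hp1]
    have : ((k - p).choose d : ℚ) / C ≤ (gg F d A + w) / C := by gcongr
    have e1 : ((((k - p).choose d : ℚ) + p * ((k - 1).choose (d - 1) : ℕ) - C) / C)
      = ((k - p).choose d : ℚ) / C + p * ((k - 1).choose (d - 1) : ℕ) / C - 1 := by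
      field_simp
    have e2 : ((gg F d A : ℚ) + w) / C = gg F d A / C + w / C := by rw [add_div]
    rw [e1]
    rw [e2] at this
    linarith
  have hA1 : 0 ≤ ((((k - p).choose d : ℚ) + p * ((k - 1).choose (d - 1) : ℕ) - C) / C) := by
    apply div_nonneg _ hC0'.le
    linarith
  have hA3 : 0 ≤ d * R / (k * s) := by positivity
  have hcast : ((s - 1 : ℕ) : ℚ) = (s : ℚ) - 1 := by
    rw [Nat.cast_sub (by omega)]; norm_num
  have hA2 : 0 ≤ (d * q * (s - 1) / (2 * k * s) : ℚ) - w / C := by
    rcases Nat.eq_zero_or_pos w with h | h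
    · have hw0 : (w : ℚ) = 0 := Nat.cast_eq_zero.mpr h
      rw [hw0, zero_div, sub_zero]
      have h0 : (0:ℚ) ≤ s - 1 := by linarith
      exact div_nonneg (mul_nonneg (mul_nonneg (Nat.cast_nonneg _) (Nat.cast_nonneg _)) h0)
        (mul_nonneg (mul_nonneg (by norm_num) hk0.le) hs0.le)
    · have h1 := hw h
      have h2 : (2 * k * s * w : ℚ) < d * q * (s - 1) * C := by
        rw [← hcast]; exact_mod_cast h1
      rw [sub_nonneg, div_le_div_iff₀ hC0' (by positivity)]
      nlinarith [h2]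
  have hA2' : (d * q * (s - 1) / (2 * k * s) : ℚ) - w / C ≤ 0 → q = 0 := by
    intro hle
    rcases Nat.eq_zero_or_pos w with h | h
    · have hw0 : (w : ℚ) = 0 := Nat.cast_eq_zero.mpr h
      rw [hw0, zero_div, sub_zero] at hle
      by_contra hq0
      have : (0:ℚ) < q := by exact_mod_cast Nat.pos_of_ne_zero hq0
      have h3 : (0:ℚ) < d * q * (s - 1) / (2 * k * s) := by
        have h0 : (0:ℚ) < (s:ℚ) - 1 := by linarith
        exact div_pos (mul_pos (mul_pos hd0 this) h0) (mul_pos (mul_pos (by norm_num) hk0) hs0)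
      linarith
    · exfalso
      have h1 := hw h
      have h2 : (2 * k * s * w : ℚ) < d * q * (s - 1) * C := by
        rw [← hcast]; exact_mod_cast h1
      rw [sub_nonpos, div_le_div_iff₀ (by positivity) hC0'] at hle
      nlinarith [h2]
  refine ⟨by linarith, fun hle => ?_⟩
  have hz1 : ((((k - p).choose d : ℚ) + p * ((k - 1).choose (d - 1) : ℕ) - C) / C) ≤ 0 := by linarith
  have hz2 : (d * q * (s - 1) / (2 * k * s) : ℚ) - w / C ≤ 0 := by linarith
  have hz3 : d * R / (k * s) ≤ 0 := by linarith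
  have hq0 : q = 0 := hA2' hz2
  have hR00 : R ≤ 0 := by
    by_contra hcon
    push Not at hcon
    have : 0 < d * R / (k * s) := by positivity
    linarith
  refine ⟨local_of hF hA hq0 hR00, ?_⟩
  by_contra hp2
  push Not at hp2
  have h5 := choose_drop_lt (k := k) (d := d) (p := p) (by omega) (by omega) hd (by omega)
  have h6 : (C : ℚ) < (k - p).choose d + p * ((k - 1).choose (d - 1) : ℕ) := by exact_mod_cast h5
  have h7 : 0 < ((((k - p).choose d : ℚ) + p * ((k - 1).choose (d - 1) : ℕ) - C) / C) := by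
    apply div_pos _ hC0'
    linarith
  linarith



lemma chv_local {d k : ℕ} {F : Finset (Finset α)} (hF : ∀ A ∈ F, A.card = k) (hd : 2 ≤ d)
    (hdk : k = d + 1) (hns : ¬ HasSimplex d F) {A : Finset α} (hA : A ∈ F)
    (hne : ∀ x ∈ A, (nb F A x).Nonempty) : ∃ y0, y0 ∉ A ∧ ∀ x ∈ A, nb F A x = {y0} := by
  have hAk := hF A hA
  have step : ∀ x0 ∈ A, ∀ y0 ∈ nb F A x0, ∀ x ∈ A, x ≠ x0 → nb F A x = {y0} := by
    intro x0 hx0 y0 hy0 x hx hxx
    obtain ⟨hy0A, hy0F⟩ := mem_nb.mp hy0
    have hEA : insert y0 (A.erase x0) ∩ A = A.erase x0 := by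
      rw [Finset.insert_inter_of_notMem hy0A]
      exact Finset.inter_eq_left.mpr (Finset.erase_subset _ _)
    obtain ⟨y1, hy1, h⟩ := weird hF hd (by omega) hA (Finset.erase_subset x0 A)
      (by rw [Finset.card_erase_of_mem hx0]; omega)
      (fun z hz => hne z (Finset.mem_of_mem_erase hz)) hy0F hEA hns
    have h1 := h x (Finset.mem_erase.mpr ⟨hxx, hx⟩)
    have hy1A : y1 ∉ A := by
      have : y1 ∈ nb F A x := by rw [h1]; exact Finset.mem_singleton_self _
      exact (mem_nb.mp this).1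
    rw [Finset.mem_insert] at hy1
    rcases hy1 with hy1 | hy1
    · rw [h1, hy1]
    · exact absurd (Finset.mem_of_mem_erase hy1) hy1A
  obtain ⟨x0, hx0⟩ : A.Nonempty := Finset.card_pos.mp (by omega)
  obtain ⟨y0, hy0⟩ := hne x0 hx0
  obtain ⟨x1, hx1⟩ : (A.erase x0).Nonempty := Finset.card_pos.mp (by
    rw [Finset.card_erase_of_mem hx0]; omega)
  rw [Finset.mem_erase] at hx1
  have h1 := step x0 hx0 y0 hy0 x1 hx1.2 hx1.1
  refine ⟨y0, (mem_nb.mp hy0).1, fun x hx => ?_⟩
  by_cases hxx : x = x0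
  · rw [hxx]
    exact step x1 hx1.2 y0 (by rw [h1]; exact Finset.mem_singleton_self _) x0 hx0 hx1.1.symm
  · exact step x0 hx0 y0 hy0 x hx hxx

lemma boundary {d k : ℕ} {F : Finset (Finset α)} (hF : ∀ A ∈ F, A.card = k) (hd : 2 ≤ d)
    (hdk : k = d + 1) (hns : ¬ HasSimplex d F) (hs : 2 ≤ Fintype.card α - k)
    (hs3 : Fintype.card α - k ≤ 3)
    (hII : ∀ E : Finset α, E.card = k → E ∉ F → ∀ y ∈ E, E.erase y ∈ ∂ F)
    (hh_le : ∀ E ∈ F, hh (Fintype.card α - k) F E ≤ (Fintype.card α - k : ℕ))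
    {A : Finset α} (hA : A ∈ F) {y0 : α} (hy0A : y0 ∉ A) (hnb : ∀ x ∈ A, nb F A x = {y0}) : False := by
  have hAk := hF A hA
  set Z := insert y0 A with hZ
  have hZc : Z.card = k + 1 := by rw [hZ, Finset.card_insert_of_notMem hy0A, hAk]
  have hZF : ∀ z ∈ Z, Z.erase z ∈ F := by
    intro z hz
    by_cases hzy : z = y0
    · rw [hzy, hZ, Finset.erase_insert hy0A]; exact hA
    · have hzA : z ∈ A := by
        rw [hZ, Finset.mem_insert] at hz
        exact hz.resolve_left hzy
      have h1 : y0 ∈ nb F A z := by rw [hnb z hzA]; exact Finset.mem_singleton_self _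
      have h2 : Z.erase z = insert y0 (A.erase z) := by
        rw [hZ, Finset.erase_insert_of_ne (fun h => hzy h.symm)]
      rw [h2]
      exact (mem_nb.mp h1).2
  have claim : ∀ z1 ∈ Z, ∀ z2 ∈ Z, z1 ≠ z2 → ∀ w, w ∉ Z → insert w ((Z.erase z1).erase z2) ∉ F := by
    intro z1 hz1 z2 hz2 h12 w hw hcon
    have hB := hZF z1 hz1
    have hBnb : ∀ x ∈ Z.erase z1, z1 ∈ nb F (Z.erase z1) x := by
      intro x hx
      rw [Finset.mem_erase] at hx
      rw [mem_nb]
      refine ⟨Finset.notMem_erase _ _, ?_⟩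
      have : insert z1 ((Z.erase z1).erase x) = Z.erase x := by
        rw [Finset.erase_right_comm, Finset.insert_erase (Finset.mem_erase.mpr ⟨hx.1.symm, hz1⟩)]
      rw [this]
      exact hZF x hx.2
    obtain ⟨y1, _, h1⟩ := chv_local hF hd hdk hns hB (fun x hx => ⟨z1, hBnb x hx⟩)
    have hz2B : z2 ∈ Z.erase z1 := Finset.mem_erase.mpr ⟨h12.symm, hz2⟩
    have e1 := hBnb z2 hz2B
    rw [h1 z2 hz2B, Finset.mem_singleton] at e1
    have e2 : w ∈ nb F (Z.erase z1) z2 := mem_nb.mpr ⟨fun h => hw (Finset.mem_of_mem_erase h), hcon⟩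
    rw [h1 z2 hz2B, Finset.mem_singleton, ← e1] at e2
    exact hw (e2 ▸ hz1)
  -- w outside Z
  have hZcc : (Zᶜ).card + 1 = Fintype.card α - k := by
    rw [Finset.card_compl, hZc]; omega
  obtain ⟨w, hw⟩ : (Zᶜ).Nonempty := Finset.card_pos.mp (by omega)
  rw [Finset.mem_compl] at hw
  -- three elements of Z
  obtain ⟨T, hTZ, hTc⟩ := Finset.exists_subset_card_eq (s := Z) (n := 3) (by omega)
  obtain ⟨z1, z2, z3, h12, h13, h23, hT⟩ := Finset.card_eq_three.mp hTc
  have hz1 : z1 ∈ Z := hTZ (by rw [hT]; simp)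
  have hz2 : z2 ∈ Z := hTZ (by rw [hT]; simp)
  have hz3 : z3 ∈ Z := hTZ (by rw [hT]; simp)
  set T3 := ((Z.erase z1).erase z2).erase z3 with hT3
  have hmemT3 : ∀ z, z ∈ T3 ↔ z ≠ z3 ∧ z ≠ z2 ∧ z ≠ z1 ∧ z ∈ Z := by
    intro z
    rw [hT3, Finset.mem_erase, Finset.mem_erase, Finset.mem_erase]
  -- subclaim
  have sub : ∀ w', w' ∉ Z → ∀ t ∈ Z, t ∉ T3 → insert t (insert w' T3) ∉ F := by
    intro w' hw' t htZ htT
    have ht : t = z3 ∨ t = z2 ∨ t = z1 := by
      by_contra hcon
      push Not at hcon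
      exact htT ((hmemT3 t).mpr ⟨hcon.1, hcon.2.1, hcon.2.2, htZ⟩)
    rcases ht with rfl | rfl | rfl
    · have : insert t (insert w' T3) = insert w' ((Z.erase z1).erase z2) := by
        rw [Finset.insert_comm, hT3, Finset.insert_erase]
        rw [Finset.mem_erase, Finset.mem_erase]
        exact ⟨h23.symm, h13.symm, hz3⟩
      rw [this]
      exact claim z1 hz1 z2 hz2 h12 w' hw'
    · have : insert t (insert w' T3) = insert w' ((Z.erase z1).erase z3) := by
        rw [Finset.insert_comm, hT3, Finset.erase_right_comm (a := t) (b := z3), Finset.insert_erase]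
        rw [Finset.mem_erase, Finset.mem_erase]
        exact ⟨h23, h12.symm, hz2⟩
      rw [this]
      exact claim z1 hz1 z3 hz3 h13 w' hw'
    · have : insert t (insert w' T3) = insert w' ((Z.erase z2).erase z3) := by
        rw [Finset.insert_comm, hT3, Finset.erase_right_comm (a := t) (b := z2),
          Finset.erase_right_comm (a := t) (b := z3), Finset.insert_erase]
        rw [Finset.mem_erase, Finset.mem_erase]
        exact ⟨h13, h12, hz1⟩
      rw [this]
      exact claim z2 hz2 z3 hz3 h23 w' hw'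
  have hwT3 : w ∉ T3 := fun h => hw ((hmemT3 w).mp h).2.2.2
  -- E0
  have hz3E0 : z3 ∈ insert w ((Z.erase z1).erase z2) := by
    apply Finset.mem_insert_of_mem
    rw [Finset.mem_erase, Finset.mem_erase]
    exact ⟨h23.symm, h13.symm, hz3⟩
  have hE0c : (insert w ((Z.erase z1).erase z2)).card = k := by
    rw [Finset.card_insert_of_notMem (fun h => hw (Finset.mem_of_mem_erase (Finset.mem_of_mem_erase h))),
      Finset.card_erase_of_mem (Finset.mem_erase.mpr ⟨h12.symm, hz2⟩), Finset.card_erase_of_mem hz1, hZc]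
    omega
  have hsh := hII _ hE0c (claim z1 hz1 z2 hz2 h12 w hw) z3 hz3E0
  have hE0e : (insert w ((Z.erase z1).erase z2)).erase z3 = insert w T3 := by
    rw [Finset.erase_insert_of_ne (fun h => hw (by rw [h]; exact hz3))]
  rw [hE0e] at hsh
  obtain ⟨u, hu, huF⟩ := Finset.mem_shadow_iff_insert_mem.mp hsh
  have huZ : u ∉ Z := by
    intro huZ
    exact sub w hw u huZ (fun h => hu (Finset.mem_insert_of_mem h)) huF
  have huw : u ≠ w := fun h => hu (h ▸ Finset.mem_insert_self _ _)
  have hZcomp : ∀ t, t ∉ Z → t = w ∨ t = u := by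
    intro t ht
    by_contra hcon
    push Not at hcon
    have hsub : ({t, w, u} : Finset α) ⊆ Zᶜ := by
      intro z hz
      simp only [Finset.mem_insert, Finset.mem_singleton] at hz
      rw [Finset.mem_compl]
      rcases hz with rfl | rfl | rfl
      · exact ht
      · exact hw
      · exact huZ
    have h3 := Finset.card_le_card hsub
    rw [Finset.card_eq_three.mpr ⟨t, w, u, hcon.1, hcon.2, huw.symm, rfl⟩] at h3
    omega
  have huT3 : u ∉ T3 := fun h => huZ ((hmemT3 u).mp h).2.2.2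
  -- both nb sets are empty
  have hnu : (nb F (insert u (insert w T3)) u).card = 0 := by
    rw [Finset.card_eq_zero, Finset.eq_empty_iff_forall_notMem]
    intro t ht
    rw [mem_nb, Finset.erase_insert hu] at ht
    obtain ⟨ht1, ht2⟩ := ht
    have ht3 : t ∉ T3 := fun h => ht1 (Finset.mem_insert_of_mem (Finset.mem_insert_of_mem h))
    by_cases htZ : t ∈ Z
    · exact sub w hw t htZ ht3 ht2
    · rcases hZcomp t htZ with rfl | rfl
      · exact ht1 (Finset.mem_insert_of_mem (Finset.mem_insert_self _ _))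
      · exact ht1 (Finset.mem_insert_self _ _)
  have hnw : (nb F (insert u (insert w T3)) w).card = 0 := by
    rw [Finset.card_eq_zero, Finset.eq_empty_iff_forall_notMem]
    intro t ht
    have hcomm : (insert u (insert w T3)).erase w = insert u T3 := by
      rw [Finset.insert_comm, Finset.erase_insert]
      rw [Finset.mem_insert, not_or]
      exact ⟨huw.symm, hwT3⟩
    rw [mem_nb, hcomm] at ht
    obtain ⟨ht1, ht2⟩ := ht
    have ht3 : t ∉ T3 := fun h => ht1 (Finset.mem_insert_of_mem (Finset.mem_insert_of_mem h))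
    by_cases htZ : t ∈ Z
    · exact sub u huZ t htZ ht3 ht2
    · rcases hZcomp t htZ with rfl | rfl
      · exact ht1 (Finset.mem_insert_of_mem (Finset.mem_insert_self _ _))
      · exact ht1 (Finset.mem_insert_self _ _)
  have hPs : 2 ≤ (Ps F (insert u (insert w T3))).card := by
    have hsub : ({u, w} : Finset α) ⊆ Ps F (insert u (insert w T3)) := by
      intro z hz
      rw [Finset.mem_insert, Finset.mem_singleton] at hz
      unfold Ps
      rw [Finset.mem_filter]
      rcases hz with rfl | rfl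
      · exact ⟨Finset.mem_insert_self _ _, hnu⟩
      · exact ⟨Finset.mem_insert_of_mem (Finset.mem_insert_self _ _), hnw⟩
    have := Finset.card_le_card hsub
    rw [Finset.card_pair huw] at this
    exact this
  have h1 := hh_le _ huF
  rw [hh_split] at h1
  have h2 := Rs_nonneg hF huF
  have h3 : (2:ℚ) ≤ (Ps F (insert u (insert w T3))).card := by exact_mod_cast hPs
  have h4 : (2:ℚ) ≤ ((Fintype.card α - k : ℕ) : ℚ) := by exact_mod_cast hs
  have h5 : (0:ℚ) ≤ (Qs F (insert u (insert w T3))).card := Nat.cast_nonneg _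
  nlinarith [mul_nonneg h5 (by linarith : (0:ℚ) ≤ (((Fintype.card α - k : ℕ) : ℚ) - 1) / 2),
    mul_le_mul_of_nonneg_right h3 (by linarith : (0:ℚ) ≤ ((Fintype.card α - k : ℕ) : ℚ))]

/-! ### the weird condition -/

lemma hw_ge3 {d k : ℕ} {F : Finset (Finset α)} (hF : ∀ A ∈ F, A.card = k) (hd : 3 ≤ d)
    (hdk : d + 2 ≤ k) (hs : 3 ≤ Fintype.card α - k) (hns : ¬ HasSimplex d F) {A : Finset α}
    (hA : A ∈ F) (hw : 0 < (Ws F d A).card) :
    2 * k * (Fintype.card α - k) * (Ws F d A).card
      < d * (Qs F A).card * (Fintype.card α - k - 1) * k.choose d := by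
  have hle : (Ws F d A).card ≤ (Qs F A).card.choose d := by
    have := Finset.card_le_card (Ws_sub hF (by omega) (by omega) hns hA)
    rwa [Finset.card_powersetCard] at this
  have hqk : (Qs F A).card ≤ k := by
    rw [← hF A hA]; exact Finset.card_le_card (Finset.filter_subset _ _)
  have hqd : d ≤ (Qs F A).card := by
    by_contra hcon
    push Not at hcon
    rw [Nat.choose_eq_zero_of_lt hcon] at hle
    omega
  have hlt : k * (Ws F d A).card < (Qs F A).card * k.choose d := by
    rcases Nat.lt_or_ge (Qs F A).card k with h | h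
    · exact (Nat.mul_le_mul_left k hle).trans_lt (k_mul_choose_lt h (by omega) hqd)
    · have hqk' : (Qs F A).card = k := le_antisymm hqk h
      rw [hqk']
      exact Nat.mul_lt_mul_of_pos_left (Ws_card_lt hF (by omega) hdk hns hA) (by omega)
  obtain ⟨s, hs'⟩ : ∃ s, Fintype.card α - k = s + 1 := ⟨Fintype.card α - k - 1, by omega⟩
  rw [hs'] at hs ⊢
  have e : s + 1 - 1 = s := by omega
  rw [e]
  have h1 : 2 * (s + 1) ≤ d * s := by nlinarith
  calc 2 * k * (s + 1) * (Ws F d A).card = 2 * (s + 1) * (k * (Ws F d A).card) := by ring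
    _ < 2 * (s + 1) * ((Qs F A).card * k.choose d) := Nat.mul_lt_mul_of_pos_left hlt (by omega)
    _ ≤ d * s * ((Qs F A).card * k.choose d) := Nat.mul_le_mul_right _ h1
    _ = d * (Qs F A).card * s * k.choose d := by ring

lemma hw_eq2 {k : ℕ} {F : Finset (Finset α)} (hF : ∀ A ∈ F, A.card = k)
    (hk : 4 ≤ k) (hs : 4 ≤ Fintype.card α - k) (hns : ¬ HasSimplex 2 F) {A : Finset α}
    (hA : A ∈ F) (hw : 0 < (Ws F 2 A).card) :
    2 * k * (Fintype.card α - k) * (Ws F 2 A).card
      < 2 * (Qs F A).card * (Fintype.card α - k - 1) * k.choose 2 := by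
  have hle := Ws2_card_le hF (by omega) hns hA
  obtain ⟨s, hs'⟩ : ∃ s, Fintype.card α - k = s + 1 := ⟨Fintype.card α - k - 1, by omega⟩
  rw [hs'] at hs ⊢
  have e : s + 1 - 1 = s := by omega
  rw [e]
  have hc := d_mul_choose (k := k) (d := 2) (by omega) (by omega)
  rw [show 2 - 1 = 1 from rfl, Nat.choose_one_right] at hc
  obtain ⟨j, hj⟩ : ∃ j, k = j + 1 := ⟨k - 1, by omega⟩
  subst hj
  simp only [Nat.add_sub_cancel] at hc
  have h1 : 2 * (s + 1) < s * j := by nlinarith
  have hq : 0 < (Qs F A).card := by omega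
  calc 2 * (j + 1) * (s + 1) * (Ws F 2 A).card ≤ 2 * (j + 1) * (s + 1) * (Qs F A).card :=
        Nat.mul_le_mul_left _ hle
    _ = (Qs F A).card * (j + 1) * (2 * (s + 1)) := by ring
    _ < (Qs F A).card * (j + 1) * (s * j) := Nat.mul_lt_mul_of_pos_left h1 (by positivity)
    _ = (Qs F A).card * s * ((j + 1) * j) := by ring
    _ = (Qs F A).card * s * (2 * (j + 1).choose 2) := by rw [hc]
    _ = 2 * (Qs F A).card * s * (j + 1).choose 2 := by ring



lemma final_bound {k n f : ℕ} (hk : 1 ≤ k) (hkn : k ≤ n)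
    (h : ((n - k : ℕ) : ℚ) * f ≤ k * ((n.choose k : ℚ) - f)) : f ≤ (n - 1).choose (k - 1) := by
  have h1 := d_mul_choose (k := n) (d := k) (by omega) hk
  have h1' : (k : ℚ) * n.choose k = n * ((n - 1).choose (k - 1) : ℕ) := by exact_mod_cast h1
  have h2 : ((n - k : ℕ) : ℚ) = n - k := by rw [Nat.cast_sub hkn]
  rw [h2] at h
  have h3 : (n : ℚ) * f ≤ n * ((n - 1).choose (k - 1) : ℕ) := by
    rw [← h1']; linarith
  have hn : (0 : ℚ) < n := by exact_mod_cast (by omega : 0 < n)
  have h4 := le_of_mul_le_mul_left h3 hn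
  exact_mod_cast h4

lemma final_eq {k n f : ℕ} (hk : 1 ≤ k) (hkn : k ≤ n) (hf : f = (n - 1).choose (k - 1)) :
    k * ((n.choose k : ℚ) - f) = ((n - k : ℕ) : ℚ) * f := by
  have h1 := d_mul_choose (k := n) (d := k) (by omega) hk
  have h1' : (k : ℚ) * n.choose k = n * ((n - 1).choose (k - 1) : ℕ) := by exact_mod_cast h1
  have h2 : ((n - k : ℕ) : ℚ) = n - k := by rw [Nat.cast_sub hkn]
  rw [h2, hf]
  linarith

/-- Chvatal's case `k = d + 1`. -/
theorem direct_succ {d k : ℕ} {F : Finset (Finset α)} (hF : ∀ A ∈ F, A.card = k) (hd : 2 ≤ d)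
    (hdk : k = d + 1) (hkn : k ≤ Fintype.card α) (hs : 2 ≤ Fintype.card α - k)
    (hs3 : k = 3 → 3 ≤ Fintype.card α - k) (hns : ¬ HasSimplex d F) :
    F.card ≤ (Fintype.card α - 1).choose (k - 1) ∧
      (F.card = (Fintype.card α - 1).choose (k - 1) → ∃ x, ∀ A ∈ F, x ∈ A) := by
  set s := Fintype.card α - k with hsdef
  have hsq : (2:ℚ) ≤ s := by exact_mod_cast hs
  have hks : 2 * s ≤ k * (s - 1) := by
    obtain ⟨t, ht⟩ : ∃ t, s = t + 1 := ⟨s - 1, by omega⟩
    rw [ht]
    simp only [Nat.add_sub_cancel]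
    rcases Nat.lt_or_ge k 4 with h | h
    · have h3 : k = 3 := by omega
      have := hs3 h3
      rw [h3]; omega
    · nlinarith
  have hcast : ((s - 1 : ℕ) : ℚ) = (s : ℚ) - 1 := by
    rw [Nat.cast_sub (by omega)]; norm_num
  have hksq : (2 * s : ℚ) ≤ k * (s - 1) := by rw [← hcast]; exact_mod_cast hks
  -- local dichotomy
  have hdich : ∀ A ∈ F, 1 ≤ (Ps F A).card ∨ (∃ y0, y0 ∉ A ∧ ∀ x ∈ A, nb F A x = {y0}) := by
    intro A hA
    by_cases h : ∀ x ∈ A, (nb F A x).Nonempty
    · exact Or.inr (chv_local hF hd hdk hns hA h)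
    · left
      push Not at h
      obtain ⟨x, hx, hx0⟩ := h
      refine Finset.card_pos.mpr ⟨x, Finset.mem_filter.mpr ⟨hx, ?_⟩⟩
      rw [hx0]; rfl
  have hQ0 : ∀ A : Finset α, (0:ℚ) ≤ (Qs F A).card * ((s - 1) / 2) := by
    intro A
    apply mul_nonneg (Nat.cast_nonneg _)
    linarith
  have hlocal : ∀ A ∈ F, (s : ℚ) ≤ hh s F A := by
    intro A hA
    rw [hh_split]
    have hR := Rs_nonneg hF hA
    rw [← hsdef] at hR
    rcases hdich A hA with h | ⟨y0, hy0, h⟩
    · have h1 : (1:ℚ) ≤ (Ps F A).card := by exact_mod_cast h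
      have h2 := hQ0 A
      nlinarith
    · have hq : (Qs F A).card = k := by
        rw [← hF A hA]
        congr 1
        apply Finset.filter_true_of_mem
        intro x hx
        rw [h x hx, Finset.card_singleton]
      rw [hq]
      have : (0:ℚ) ≤ (Ps F A).card * s := by positivity
      linarith
  have hII := countII hF (by omega) hkn
  rw [← hsdef] at hII
  have hII' : ∑ A ∈ F, hh s F A ≤ k * (((Fintype.card α).choose k : ℚ) - F.card) := hII
  have hsum : (s : ℚ) * F.card ≤ ∑ A ∈ F, hh s F A := by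
    calc (s : ℚ) * F.card = ∑ A ∈ F, (s : ℚ) := by rw [Finset.sum_const, nsmul_eq_mul]; ring
      _ ≤ _ := Finset.sum_le_sum hlocal
  refine ⟨final_bound (by omega) hkn (hsum.trans hII'), fun heq => ?_⟩
  have hfe := final_eq (by omega : 1 ≤ k) hkn heq
  rw [← hsdef] at hfe
  have hsum_eq : ∑ A ∈ F, hh s F A ≤ ∑ A ∈ F, (s : ℚ) := by
    rw [Finset.sum_const, nsmul_eq_mul]
    linarith
  have hall : ∀ A ∈ F, hh s F A = s := by
    have h1 := (Finset.sum_eq_sum_iff_of_le hlocal).mp (le_antisymm (Finset.sum_le_sum hlocal) hsum_eq)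
    intro A hA
    exact (h1 A hA).symm
  by_cases hP : ∀ A ∈ F, 1 ≤ (Ps F A).card
  · -- all have a private element
    have hloc : ∀ A ∈ F, (∀ x ∈ A, (nb F A x).card = 0 ∨ (nb F A x).card = Fintype.card α - k) ∧
        (Ps F A).card ≤ 1 := by
      intro A hA
      have h1 := hall A hA
      rw [hh_split] at h1
      have hR := Rs_nonneg hF hA
      rw [← hsdef] at hR
      have hp1 : (1:ℚ) ≤ (Ps F A).card := by exact_mod_cast hP A hA
      have h2 := hQ0 A
      have hp2 : (Ps F A).card ≤ 1 := by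
        by_contra hcon
        push Not at hcon
        have : (2:ℚ) ≤ (Ps F A).card := by exact_mod_cast hcon
        nlinarith
      have hp3 : ((Ps F A).card : ℚ) = 1 := by
        have : ((Ps F A).card : ℚ) ≤ 1 := by exact_mod_cast hp2
        linarith
      rw [hp3, one_mul] at h1
      have hQz : (Qs F A).card = 0 := by
        by_contra hcon
        have : (1:ℚ) ≤ (Qs F A).card := by exact_mod_cast Nat.one_le_iff_ne_zero.mpr hcon
        nlinarith
      refine ⟨local_of hF hA hQz ?_, hp2⟩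
      rw [← hsdef]
      linarith
    exact star_of_local hF (by omega) (by omega) (fun A hA => (hloc A hA).1) (fun A hA => (hloc A hA).2) heq
  · exfalso
    push Not at hP
    obtain ⟨A, hA, hPA⟩ := hP
    rcases hdich A hA with h | ⟨y0, hy0, h⟩
    · omega
    have hs_le : s ≤ 3 := by
      have h1 := hall A hA
      rw [hh_split] at h1
      have hR := Rs_nonneg hF hA
      rw [← hsdef] at hR
      have hq : (Qs F A).card = k := by
        rw [← hF A hA]
        congr 1
        apply Finset.filter_true_of_mem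
        intro x hx
        rw [h x hx, Finset.card_singleton]
      rw [hq] at h1
      have hP0 : (0:ℚ) ≤ (Ps F A).card * s := by positivity
      have h5 : (k * (s - 1) : ℚ) ≤ 2 * s := by linarith
      rw [← hcast] at h5
      have h6 : k * (s - 1) ≤ 2 * s := by exact_mod_cast h5
      by_contra hcon
      push Not at hcon
      obtain ⟨t, ht⟩ : ∃ t, s = t + 1 := ⟨s - 1, by omega⟩
      rw [ht] at h6 hcon
      simp only [Nat.add_sub_cancel] at h6
      have h7 : 3 * t ≤ k * t := Nat.mul_le_mul_right _ (by omega)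
      omega
    refine boundary hF hd hdk hns (by omega) (by omega) ?_ ?_ hA hy0 h
    · intro E hE hEF y hy
      refine countII_eq hF (by omega) hkn ?_ hE hEF hy
      rw [hfe]
      calc (s:ℚ) * F.card ≤ ∑ A ∈ F, hh s F A := hsum
        _ = _ := rfl
    · intro E hE
      rw [← hsdef]
      exact (hall E hE).le

/-- the direct theorem for `k ≥ d + 2`. -/
theorem direct_big {d k : ℕ} {F : Finset (Finset α)} (hF : ∀ A ∈ F, A.card = k) (hd : 2 ≤ d)
    (hdk : d + 2 ≤ k) (hkn : k ≤ Fintype.card α) (hs : 2 ≤ Fintype.card α - k)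
    (hcond : k ≤ (Fintype.card α - k) + d)
    (hw : ∀ A ∈ F, 0 < (Ws F d A).card → 2 * k * (Fintype.card α - k) * (Ws F d A).card
      < d * (Qs F A).card * (Fintype.card α - k - 1) * k.choose d) :
    F.card ≤ (Fintype.card α - 1).choose (k - 1) ∧
      (F.card = (Fintype.card α - 1).choose (k - 1) → ∃ x, ∀ A ∈ F, x ∈ A) := by
  have hphi := fun A (hA : A ∈ F) => phi_ge hF hd (by omega) hs hA (hw A hA)
  have hI := countI hF (by omega : d < k) (by omega) hkn
  have hII : ∑ A ∈ F, hh (Fintype.card α - k) F A ≤ k * (((Fintype.card α).choose k : ℚ) - F.card) :=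
    countII hF (by omega) hkn
  generalize hsdef : Fintype.card α - k = s at *
  have hs0 : (0:ℚ) < s := by exact_mod_cast (by omega : 0 < s)
  have hk0 : (0:ℚ) < k := by exact_mod_cast (by omega : 0 < k)
  have hC0 : (0:ℚ) < k.choose d := by exact_mod_cast Nat.choose_pos (by omega)
  have hd0 : (0:ℚ) < d := by exact_mod_cast (by omega : 0 < d)
  have hkd : ((k - d : ℕ) : ℚ) = k - d := by rw [Nat.cast_sub (by omega)]
  have hI' : ((k : ℚ) - d) * (F.card * k.choose d) + s * ∑ A ∈ F, (gg F d A : ℚ)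
      ≤ (k - d) * ((Fintype.card α).choose k * k.choose d) := by
    rw [← hkd]; exact_mod_cast hI
  have hsumphi : ∑ A ∈ F, ((gg F d A : ℚ) / k.choose d + d / (k * (s : ℕ)) * hh s F A)
      = (∑ A ∈ F, (gg F d A : ℚ)) / k.choose d + d / (k * s) * ∑ A ∈ F, hh s F A := by
    rw [Finset.sum_add_distrib, Finset.sum_div, Finset.mul_sum]
  have hle : (∑ A ∈ F, (gg F d A : ℚ)) / k.choose d + d / (k * s) * ∑ A ∈ F, hh s F A
      ≤ k * (((Fintype.card α).choose k : ℚ) - F.card) / s := by
    have h1 : (∑ A ∈ F, (gg F d A : ℚ)) / k.choose d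
        ≤ ((k : ℚ) - d) * (((Fintype.card α).choose k : ℚ) - F.card) / s := by
      rw [div_le_div_iff₀ hC0 hs0]
      linarith
    have h2 : d / (k * s) * ∑ A ∈ F, hh s F A
        ≤ d / (k * s) * (k * (((Fintype.card α).choose k : ℚ) - F.card)) := by
      apply mul_le_mul_of_nonneg_left hII
      positivity
    have h3 : d / (k * s) * (k * (((Fintype.card α).choose k : ℚ) - F.card))
        = d * (((Fintype.card α).choose k : ℚ) - F.card) / s := by
      field_simp
    have h4 : k * (((Fintype.card α).choose k : ℚ) - F.card) / s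
        = ((k : ℚ) - d) * (((Fintype.card α).choose k : ℚ) - F.card) / s
          + d * (((Fintype.card α).choose k : ℚ) - F.card) / s := by
      field_simp
      ring
    rw [h4]
    linarith
  have hge : (F.card : ℚ) ≤ ∑ A ∈ F, ((gg F d A : ℚ) / k.choose d + d / (k * (s : ℕ)) * hh s F A) := by
    calc (F.card : ℚ) = ∑ A ∈ F, (1:ℚ) := by simp
      _ ≤ _ := Finset.sum_le_sum (fun A hA => (hphi A hA).1)
  have hmain : (s : ℚ) * F.card ≤ k * (((Fintype.card α).choose k : ℚ) - F.card) := by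
    have := hge.trans (hsumphi.le.trans hle)
    rw [le_div_iff₀ hs0] at this
    linarith
  refine ⟨final_bound (by omega) hkn (by rw [hsdef]; exact hmain), fun heq => ?_⟩
  have hfe := final_eq (by omega : 1 ≤ k) hkn heq
  rw [hsdef] at hfe
  have hsum_eq : ∑ A ∈ F, ((gg F d A : ℚ) / k.choose d + d / (k * (s : ℕ)) * hh s F A)
      ≤ ∑ A ∈ F, (1:ℚ) := by
    rw [Finset.sum_const, nsmul_eq_mul, mul_one]
    refine (hsumphi.le.trans hle).trans (le_of_eq ?_)
    rw [hfe]
    field_simp
  have hall : ∀ A ∈ F, ((gg F d A : ℚ) / k.choose d + d / (k * (s : ℕ)) * hh s F A) ≤ 1 := by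
    have h1 := (Finset.sum_eq_sum_iff_of_le (fun A hA => (hphi A hA).1)).mp
      (le_antisymm (Finset.sum_le_sum (fun A hA => (hphi A hA).1)) hsum_eq)
    intro A hA
    exact (h1 A hA).symm.le
  refine star_of_local hF (by omega) (by omega) (fun A hA => ?_) (fun A hA => ((hphi A hA).2 (hall A hA)).2) heq
  rw [hsdef]
  exact ((hphi A hA).2 (hall A hA)).1

/-- the direct theorem -/
theorem direct {d k : ℕ} {F : Finset (Finset α)} (hF : ∀ A ∈ F, A.card = k) (hd : 2 ≤ d)
    (hdk : d + 1 ≤ k) (hkn : k ≤ Fintype.card α) (hs : 2 ≤ Fintype.card α - k)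
    (hcond : k + 1 ≤ (Fintype.card α - k) + d) (h2 : d = 2 → k ≤ Fintype.card α - k)
    (hns : ¬ HasSimplex d F) :
    F.card ≤ (Fintype.card α - 1).choose (k - 1) ∧
      (F.card = (Fintype.card α - 1).choose (k - 1) → ∃ x, ∀ A ∈ F, x ∈ A) := by
  rcases Nat.lt_or_ge k (d + 2) with h | h
  · refine direct_succ hF hd (by omega) hkn hs ?_ hns
    intro h3
    have := h2 (by omega)
    omega
  · rcases Nat.lt_or_ge d 3 with h3 | h3
    · have hd2 : d = 2 := by omega
      subst hd2
      have := h2 rfl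
      exact direct_big hF hd h hkn hs (by omega) (fun A hA hw => hw_eq2 hF h (by omega) hns hA hw)
    · exact direct_big hF hd h hkn hs (by omega)
        (fun A hA hw => hw_ge3 hF h3 h (by omega) hns hA hw)


end Pool.Agent.Chv
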