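import Pool.Agent.Lib.MP_32eaa8_co.Cover
import Pool.Agent.Lib.MP_32eaa8_co.EKRUnique

set_option autoImplicit false

open Finset

namespace SimplexPool

/-- The conclusion of Chvátal's conjecture for the parameters `d`, `r`, `n`: every family of
`r`-subsets of an `n`-set with no `d`-simplex has at most `(n-1).choose (r-1)` members, and
a family with exactly that many members is contained in a star. -/
def ChvatalHolds (d r n : ℕ) : Prop :=
  ∀ F : Finset (Finset (Fin n)),
    (∀ A ∈ F, A.card = r) →
    (¬ ∃ S : Finset (Finset (Fin n)), S ⊆ F ∧ S.card = d + 1 ∧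
        S.inf id = (∅ : Finset (Fin n)) ∧
        ∀ T : Finset (Finset (Fin n)), T ⊆ S → T.card = d → (T.inf id).Nonempty) →
    F.card ≤ (n - 1).choose (r - 1) ∧
      (F.card = (n - 1).choose (r - 1) → ∃ x : Fin n, ∀ A ∈ F, x ∈ A)

lemma mem_inf_id {n : ℕ} {S : Finset (Finset (Fin n))} {x : Fin n} :
    x ∈ S.inf id ↔ ∀ A ∈ S, x ∈ A := by
  rw [← singleton_subset_iff]
  rw [Finset.le_inf_iff]
  simp

/-- what has to be known about the complementary family -/
def CoverHolds (n s D : ℕ) : Prop :=
  ∀ H : Finset (Finset (Fin n)), (∀ C ∈ H, C ⊆ univ ∧ C.card = s) → NoCover H univ D →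
    n * H.card ≤ (n - s) * n.choose s ∧
    (n * H.card = (n - s) * n.choose s →
      ∀ C C' : Finset (Fin n), C.card = s → C'.card = s → Disjoint C C' → C ∈ H ∨ C' ∈ H)

theorem chvatal_of_cover {d r n s : ℕ} (hs : 1 ≤ s) (hn : n = r + s) (hr : 1 ≤ r)
    (h2s : 2 * s + 1 ≤ n) (hB : CoverHolds n s (d + 1)) : ChvatalHolds d r n := by
  classical
  intro F hF hno
  set H : Finset (Finset (Fin n)) := F.image compl with hH
  have hHc : H.card = F.card := card_image_of_injective _ compl_injective
  have memH : ∀ C, C ∈ H ↔ Cᶜ ∈ F := by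
    intro C
    rw [hH, mem_image]
    constructor
    · rintro ⟨A, hA, rfl⟩; rw [compl_compl]; exact hA
    · intro h; exact ⟨Cᶜ, h, compl_compl C⟩
  have hHs : ∀ C ∈ H, C ⊆ univ ∧ C.card = s := by
    intro C hC
    rw [memH] at hC
    refine ⟨subset_univ _, ?_⟩
    have h1 := hF _ hC
    have h2 := card_add_card_compl C
    rw [Fintype.card_fin] at h2
    omega
  have hcov : NoCover H univ (d + 1) := by
    intro S hSH hSc hirr
    apply hno
    refine ⟨S.image compl, ?_, ?_, ?_, ?_⟩
    · intro A hA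
      rw [mem_image] at hA
      obtain ⟨C, hC, rfl⟩ := hA
      exact (memH C).1 (hSH hC)
    · rw [card_image_of_injective _ compl_injective, hSc]
    · rw [eq_empty_iff_forall_notMem]
      intro x hx
      rw [mem_inf_id] at hx
      have hxu : x ∈ S.sup id := by rw [hirr.1]; exact mem_univ x
      rw [mem_sup] at hxu
      obtain ⟨C, hC, hxC⟩ := hxu
      have := hx Cᶜ (mem_image_of_mem _ hC)
      rw [mem_compl] at this
      exact this hxC
    · intro T hT hTc
      have hScard : (S.image compl).card = d + 1 := by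
        rw [card_image_of_injective _ compl_injective, hSc]
      obtain ⟨A₀, hA₀, hA₀T⟩ : ∃ A ∈ S.image compl, A ∉ T := by
        by_contra hcon
        push Not at hcon
        have := card_le_card (show S.image compl ⊆ T from fun A hA => hcon A hA)
        omega
      rw [mem_image] at hA₀
      obtain ⟨C₀, hC₀, rfl⟩ := hA₀
      have hne := hirr.2 C₀ hC₀
      obtain ⟨x, hx⟩ : ∃ x, x ∉ (S.erase C₀).sup id := by
        by_contra hcon
        push Not at hcon
        exact hne (eq_univ_iff_forall.2 hcon)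
      refine ⟨x, ?_⟩
      rw [mem_inf_id]
      intro A hA
      have hAS := hT hA
      rw [mem_image] at hAS
      obtain ⟨C, hC, rfl⟩ := hAS
      rw [mem_compl]
      intro hxC
      apply hx
      rw [mem_sup]
      refine ⟨C, ?_, hxC⟩
      rw [mem_erase]
      refine ⟨?_, hC⟩
      rintro rfl
      exact hA₀T hA
  obtain ⟨hb, he⟩ := hB H hHs hcov
  rw [hHc] at hb he
  have hns : n - s = r := by omega
  have e1 : n.choose s = n.choose r := by
    rw [← Nat.choose_symm (by omega : s ≤ n), hns]
  have e2 : n * (n - 1).choose (r - 1) = r * n.choose r := by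
    obtain ⟨m, rfl⟩ : ∃ m, n = m + 1 := ⟨n - 1, by omega⟩
    obtain ⟨q, rfl⟩ : ∃ q, r = q + 1 := ⟨r - 1, by omega⟩
    have := Nat.add_one_mul_choose_eq m q
    simp only [Nat.add_sub_cancel]
    rw [this]; ring
  have e3 : n * (n - 1).choose (s - 1) = s * n.choose s := by
    obtain ⟨m, rfl⟩ : ∃ m, n = m + 1 := ⟨n - 1, by omega⟩
    obtain ⟨q, rfl⟩ : ∃ q, s = q + 1 := ⟨s - 1, by omega⟩
    have := Nat.add_one_mul_choose_eq m q
    simp only [Nat.add_sub_cancel]
    rw [this]; ring
  have hnpos : 0 < n := by omega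
  constructor
  · have : n * F.card ≤ n * (n - 1).choose (r - 1) := by
      rw [e2, ← e1, ← hns]; exact hb
    exact Nat.le_of_mul_le_mul_left this hnpos
  · intro hFe
    have heq : n * F.card = (n - s) * n.choose s := by
      rw [hFe, e2, hns, e1]
    have hdis := he heq
    set Y : Finset (Finset (Fin n)) := (univ : Finset (Fin n)).powersetCard s \ H with hY
    have hHsub : H ⊆ (univ : Finset (Fin n)).powersetCard s := by
      intro C hC; rw [mem_powersetCard]; exact hHs C hC
    have hYc : Y.card = (n - 1).choose (s - 1) := by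
      have h1 : Y.card + F.card = n.choose s := by
        rw [hY, ← hHc, card_sdiff_add_card_eq_card hHsub, card_powersetCard, card_univ,
          Fintype.card_fin]
      have h2 : n * Y.card + n * F.card = n * n.choose s := by rw [← mul_add, h1]
      have h3 : n * n.choose s = s * n.choose s + (n - s) * n.choose s := by
        rw [← add_mul]; congr 1; omega
      have h4 : n * Y.card = n * (n - 1).choose (s - 1) := by
        rw [e3]
        rw [heq, h3] at h2
        exact Nat.add_right_cancel h2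
      exact Nat.eq_of_mul_eq_mul_left hnpos h4
    have hYs : ∀ C ∈ Y, C.card = s := by
      intro C hC
      rw [hY, mem_sdiff, mem_powersetCard] at hC
      exact hC.1.2
    have hYn : ∀ C ∈ Y, C ∉ H := fun C hC => (mem_sdiff.1 hC).2
    obtain ⟨x, hx⟩ := ekr_unique hs h2s Y hYs (by
      intro C hC C' hC' hd
      rcases hdis C C' (hYs C hC) (hYs C' hC') hd with h | h
      · exact hYn C hC h
      · exact hYn C' hC' h) hYc
    refine ⟨x, fun A hA => ?_⟩
    by_contra hxA
    -- `Y` is the full star at `x`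
    have hYsub : Y ⊆ ((univ : Finset (Fin n)).powersetCard s).filter (fun W => {x} ⊆ W) := by
      intro C hC
      rw [mem_filter, mem_powersetCard, singleton_subset_iff]
      exact ⟨⟨subset_univ _, hYs C hC⟩, hx C hC⟩
    have hYeq : Y = ((univ : Finset (Fin n)).powersetCard s).filter (fun W => {x} ⊆ W) := by
      apply eq_of_subset_of_card_le hYsub
      rw [card_supersets univ {x} s (subset_univ _) (by rw [card_singleton]; exact hs),
        card_singleton, card_univ, Fintype.card_fin, hYc]
    have hAH : Aᶜ ∈ H := by rw [memH, compl_compl]; exact hA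
    have hAY : Aᶜ ∈ Y := by
      rw [hYeq, mem_filter, mem_powersetCard, singleton_subset_iff, mem_compl]
      exact ⟨⟨subset_univ _, (hHs _ hAH).2⟩, hxA⟩
    exact hYn _ hAY hAH

theorem cover_of_split {n s D : ℕ} (hs : 1 ≤ s)
    (h : ∃ n₁ n₂ D₁ D₂, s ≤ n₁ ∧ s ≤ n₂ ∧ n₁ + n₂ = n ∧ D₁ + D₂ = D ∧ TB n₁ s D₁ ∧ TB n₂ s D₂) :
    CoverHolds n s D := by
  obtain ⟨n₁, n₂, D₁, D₂, h1, h2, rfl, rfl, T1, T2⟩ := h
  intro H hH hno
  have := product hs h1 h2 T1 T2 (by rw [card_univ, Fintype.card_fin]) hH hno
  refine ⟨this.1, fun he C C' hC hC' hd => ?_⟩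
  exact this.2 he C C' (subset_univ _) (subset_univ _) hC hC' hd

/-- Chvátal's conjecture for `n ≥ ⌈(d+1)/2⌉ (n - r) + ⌊(d+1)/2⌋`. -/
theorem chvatal_range (d r n : ℕ) (hd : 2 ≤ d) (hr : d + 1 ≤ r) (h1 : r * (d + 1) < d * n)
    (h2 : (d + 1 - (d + 1) / 2) * (n - r) + (d + 1) / 2 ≤ n) : ChvatalHolds d r n := by
  have hrn : r < n := by
    by_contra hcon
    push Not at hcon
    have : d * n ≤ r * (d + 1) := by nlinarith
    omega
  obtain ⟨s, hs⟩ : ∃ s, n = r + s := ⟨n - r, by omega⟩
  have hs1 : 1 ≤ s := by omega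
  have e : n - r = s := by omega
  rw [e] at h2
  have h3 : n ≤ (d + 1) * s := by
    rw [hs] at h1 ⊢
    nlinarith
  have h4 : 2 * s + 1 ≤ n := by
    have a1 : 2 ≤ d + 1 - (d + 1) / 2 := by omega
    have a2 : 1 ≤ (d + 1) / 2 := by omega
    have a3 : 2 * s ≤ (d + 1 - (d + 1) / 2) * s := Nat.mul_le_mul_right _ a1
    omega
  exact chvatal_of_cover hs1 hs (by omega) h4
    (cover_of_split hs1 (exists_split hs1 (by omega) h2 h3))

end SimplexPool
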