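import Mathlib
import Pool.Agent.Lib.MP_32eaa8_co.Base
import Pool.Agent.Lib.MP_32eaa8_co.Transfer

set_option autoImplicit false

open Finset

namespace SimplexPool

/-- the splitting lemma: all `n ≥ 2 s + D - 1` -/
theorem split_all (s : ℕ) (hs : 2 ≤ s) : ∀ D : ℕ, 3 ≤ D → ∀ n : ℕ, 2 * s + D ≤ n + 1 →
    n ≤ D * s → ∃ n₁ n₂ D₁ D₂, s ≤ n₁ ∧ s ≤ n₂ ∧ n₁ + n₂ = n ∧ D₁ + D₂ = D ∧
      TB n₁ s D₁ ∧ TB n₂ s D₂ := by
  intro D
  induction D using Nat.strong_induction_on with
  | _ D ih =>
    intro hD n h1 h2
    rcases Nat.lt_or_ge D 5 with h5 | h5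
    · rcases Nat.lt_or_ge D 4 with h4 | h4
      · have hD3 : D = 3 := by omega
        subst hD3
        exact ⟨s, n - s, 1, 2, le_rfl, by omega, by omega, rfl, TB_one (by omega),
          TB_two (by omega) (by omega)⟩
      · have hD4 : D = 4 := by omega
        subst hD4
        exact ⟨n / 2, n - n / 2, 2, 2, by omega, by omega, by omega, rfl,
          TB_two (by omega) (by omega), TB_two (by omega) (by omega)⟩
    · obtain ⟨e, rfl⟩ : ∃ e, D = e + 5 := ⟨D - 5, by omega⟩
      rcases Nat.lt_or_ge (3 * s + (e + 3)) n with h6 | h6
      · have ih' := ih (e + 3) (by omega) (by omega)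
        rcases Nat.lt_or_ge (s * (e + 4) + 1) n with h7 | h7
        · -- first piece of size `2 s`
          have a1 : 2 * s + (e + 3) ≤ (n - 2 * s) + 1 := by
            have : s * (e + 4) = s * e + 4 * s := by ring
            have : e ≤ s * e := Nat.le_mul_of_pos_left e (by omega)
            omega
          have a2 : n - 2 * s ≤ (e + 3) * s := by
            have : (e + 5) * s = (e + 3) * s + 2 * s := by ring
            omega
          obtain ⟨m₁, m₂, E₁, E₂, b1, b2, b3, b4, b5, b6⟩ := ih' _ a1 a2
          have hT : TB (n - 2 * s) s (e + 3) := by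
            rw [← b3, ← b4]
            exact TB_product (by omega) b1 b2 b5 b6
          exact ⟨2 * s, n - 2 * s, 2, e + 3, by omega, by omega, by omega, by omega,
            TB_two (by omega) (by omega), hT⟩
        · have a1 : 2 * s + (e + 3) ≤ (n - (s + 1)) + 1 := by omega
          have a2 : n - (s + 1) ≤ (e + 3) * s := by
            have : s * (e + 4) = (e + 3) * s + s := by ring
            omega
          obtain ⟨m₁, m₂, E₁, E₂, b1, b2, b3, b4, b5, b6⟩ := ih' _ a1 a2
          have hT : TB (n - (s + 1)) s (e + 3) := by
            rw [← b3, ← b4]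
            exact TB_product (by omega) b1 b2 b5 b6
          exact ⟨s + 1, n - (s + 1), 2, e + 3, by omega, by omega, by omega, by omega,
            TB_two (by omega) (by omega), hT⟩
      · have hT : TB (s + (e + 3)) s (e + 3) := by
          by_cases hc : e + 3 ≤ s * (e + 3 - 2)
          · exact TB_base (by omega) (by omega) hc
          · have he : e = 0 ∧ s = 2 := by
              have e1 : e + 3 - 2 = e + 1 := by omega
              rw [e1] at hc
              push Not at hc
              constructor
              · by_contra hne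
                have : 1 ≤ e := by omega
                nlinarith
              · by_contra hne
                have : 3 ≤ s := by omega
                nlinarith
            obtain ⟨rfl, rfl⟩ := he
            exact TB_product (n₁ := 2) (n₂ := 3) (D₁ := 1) (D₂ := 2) (by omega) (by omega)
              (by omega) (TB_one (by omega)) (TB_two (by omega) (by omega))
        exact ⟨n - (s + (e + 3)), s + (e + 3), 2, e + 3, by omega, by omega, by omega, by omega,
          TB_two (by omega) (by omega), hT⟩

/-- Chvátal's conjecture for `n ≤ 2 r - d`. -/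
theorem chvatal_low (d r n : ℕ) (hd : 2 ≤ d) (hr : d + 1 ≤ r) (h1 : r * (d + 1) < d * n)
    (h2 : n + d ≤ 2 * r) : ChvatalHolds d r n := by
  have hrn : r < n := by
    by_contra hcon
    push Not at hcon
    have : d * n ≤ r * (d + 1) := by nlinarith
    omega
  obtain ⟨s, hs⟩ : ∃ s, n = r + s := ⟨n - r, by omega⟩
  have h3 : r < d * s := by
    rw [hs] at h1
    nlinarith
  have h4 : n ≤ (d + 1) * s := by
    rw [hs]
    nlinarith
  have hs2 : 2 ≤ s := by
    by_contra hcon
    have : s ≤ 1 := by omega
    have : d * s ≤ d * 1 := Nat.mul_le_mul_left _ this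
    omega
  exact chvatal_of_cover (by omega) hs (by omega) (by omega)
    (cover_of_split (by omega) (split_all s hs2 (d + 1) (by omega) n (by omega) h4))

end SimplexPool
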