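import Pool.Agent.Lib.MP_32eaa8_co.Direct
import Pool.Agent.Lib.MP_32eaa8_co.Range

set_option autoImplicit false

namespace Pool.Agent.Lib.MP_32eaa8_co

/-- If r ≥ d+1 ≥ 2 and dn > r(d+1), any family of r-subsets of an n-set with no d+1 members having empty intersection but every d of them intersecting has at most C(n-1,r-1) members, and attaining this forces a common vertex. -/
theorem chvatal_fin :
    ∀ d r n : ℕ, 1 ≤ d → d + 1 ≤ r → r * (d + 1) < d * n →
      ∀ F : Finset (Finset (Fin n)),
        (∀ A ∈ F, A.card = r) →
        (¬ ∃ S : Finset (Finset (Fin n)), S ⊆ F ∧ S.card = d + 1 ∧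
            S.inf id = (∅ : Finset (Fin n)) ∧
            ∀ T : Finset (Finset (Fin n)), T ⊆ S → T.card = d → (T.inf id).Nonempty) →
        F.card ≤ (n - 1).choose (r - 1) ∧
          (F.card = (n - 1).choose (r - 1) → ∃ x : Fin n, ∀ A ∈ F, x ∈ A) := by
  intro d r n hd hdr hn F hF hns
  have hrn : r < n := by
    by_contra hcon
    push Not at hcon
    have : d * n ≤ r * (d + 1) := by nlinarith
    omega
  rcases Nat.lt_or_ge d 2 with hd2 | hd2
  · -- Erdős–Ko–Rado
    have hd1 : d = 1 := by omega
    subst hd1
    have hint : ∀ C ∈ F, ∀ C' ∈ F, ¬ Disjoint C C' := by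
      intro C hC C' hC' hdis
      have hne : ∀ A ∈ F, A.Nonempty := fun A hA => Finset.card_pos.mp (by rw [hF A hA]; omega)
      have hCC : C ≠ C' := by
        intro h
        rw [← h, disjoint_self] at hdis
        exact (hne C hC).ne_empty hdis
      apply hns
      refine Pool.Agent.Chv.hasSimplex_of (d := 1) (F := F) (S := {C, C'}) ?_ ?_ ?_ ?_
      · intro B hB
        rw [Finset.mem_insert, Finset.mem_singleton] at hB
        rcases hB with rfl | rfl
        · exact hC
        · exact hC'
      · exact Finset.card_pair hCC
      · intro z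
        by_cases hz : z ∈ C
        · exact ⟨C', by simp, fun hz' => Finset.disjoint_left.mp hdis hz hz'⟩
        · exact ⟨C, by simp, hz⟩
      · intro B hB
        rw [Finset.mem_insert, Finset.mem_singleton] at hB
        rcases hB with rfl | rfl
        · obtain ⟨z, hz⟩ := hne C' hC'
          refine ⟨z, fun B' hB' hne' => ?_⟩
          rw [Finset.mem_insert, Finset.mem_singleton] at hB'
          rcases hB' with rfl | rfl
          · exact absurd rfl hne'
          · exact hz
        · obtain ⟨z, hz⟩ := hne C hC
          refine ⟨z, fun B' hB' hne' => ?_⟩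
          rw [Finset.mem_insert, Finset.mem_singleton] at hB'
          rcases hB' with rfl | rfl
          · exact hz
          · exact absurd rfl hne'
    refine ⟨?_, fun heq => SimplexPool.ekr_unique (by omega) (by omega) F hF hint heq⟩
    have h := Pool.Agent.Chv.circle_fin (N := n) (m := r) (by omega) (by omega) F hF
    have hfil : F.filter (fun A => ∀ B ∈ F, (A ∩ B).Nonempty) = F := by
      apply Finset.filter_true_of_mem
      intro A hA B hB
      rw [← Finset.not_disjoint_iff_nonempty_inter]
      exact hint A hA B hB
    rw [hfil] at h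
    apply Pool.Agent.Chv.final_bound (by omega : 1 ≤ r) hrn.le
    have h' : ((r : ℚ) * F.card + ((n - r : ℕ) : ℚ) * F.card) ≤ r * (n.choose r : ℕ) := by
      exact_mod_cast h
    linarith
  · have hs2 : 2 ≤ n - r := by
      by_contra hcon
      push Not at hcon
      have h1 : n = r + 1 := by omega
      rw [h1] at hn
      have : d * (r + 1) = r * d + d := by ring
      have : r * (d + 1) = r * d + r := by ring
      omega
    rcases Nat.lt_or_ge (2 * r) (n + d) with h1 | h1
    · by_cases h2 : d = 2 ∧ n + 1 = 2 * r
      · obtain ⟨rfl, h2⟩ := h2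
        exact SimplexPool.chvatal_range 2 r n le_rfl hdr hn (by omega) F hF hns
      · have h3 := Pool.Agent.Chv.direct (d := d) (k := r) hF hd2 hdr
          (by rw [Fintype.card_fin]; omega) (by rw [Fintype.card_fin]; exact hs2)
          (by rw [Fintype.card_fin]; omega) (by rw [Fintype.card_fin]; omega) hns
        rw [Fintype.card_fin] at h3
        exact h3
    · exact SimplexPool.chvatal_low d r n hd2 hdr hn h1 F hF hns

end Pool.Agent.Lib.MP_32eaa8_co
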